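import Pool.Agent.SPZ.Targets

/-!
# The size of `ζ` to the left of the critical line
-/

set_option autoImplicit false

namespace Pool.Agent.SPZ

open Complex Metric Set Filter Topology
open Pool.Agent.Lib.ChiBound Pool.Agent.Lib.ZetaLine Pool.Agent.Lib.ZetaRay
open Pool.Agent.Lib.ZetaConv

namespace S4Aux

/-- `|Γ_ℝ(1/2 + u + it)| / |Γ_ℝ(1/2 - u + it)|` -/
noncomputable def phi (u t : ℝ) : ℝ :=
  ‖Gammaℝ (((1 / 2 + u : ℝ) : ℂ) + t * I)‖ / ‖Gammaℝ (((1 / 2 - u : ℝ) : ℂ) + t * I)‖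

lemma gammaR_ne {s : ℂ} (hs : s.im ≠ 0) : Gammaℝ s ≠ 0 := by
  rw [Ne, Gammaℝ_eq_zero_iff]
  rintro ⟨n, hn⟩
  have := congrArg Complex.im hn
  simp at this
  exact hs this

lemma gammaR_pos (x : ℝ) {t : ℝ} (ht : 0 < t) : 0 < ‖Gammaℝ ((x : ℂ) + t * I)‖ := by
  rw [norm_pos_iff]
  apply gammaR_ne
  simp
  exact ht.ne'

lemma phi_pos (u : ℝ) {t : ℝ} (ht : 0 < t) : 0 < phi u t :=
  div_pos (gammaR_pos _ ht) (gammaR_pos _ ht)

lemma norm_chi_eq (x t : ℝ) : ‖chi ((x : ℂ) + t * I)‖ = phi (1 / 2 - x) t := by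
  unfold chi phi
  have h1 : (1 - ((x : ℂ) + t * I) : ℂ) =
      (starRingEnd ℂ) (((1 / 2 + (1 / 2 - x) : ℝ) : ℂ) + t * I) := by
    apply Complex.ext
    · simp; ring
    · simp
  rw [h1, norm_div, norm_Gammaℝ_conj]
  congr 4
  push_cast
  ring

lemma phi_neg (u : ℝ) {t : ℝ} (ht : 0 < t) : phi (-u) t * phi u t = 1 := by
  unfold phi
  have h1 := gammaR_pos (1 / 2 + u) ht
  have h2 := gammaR_pos (1 / 2 - u) ht
  rw [show (1 / 2 + -u : ℝ) = 1 / 2 - u by ring, show (1 / 2 - -u : ℝ) = 1 / 2 + u by ring]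
  rw [div_mul_div_comm, mul_comm, div_self (mul_pos h1 h2).ne']

lemma functional' {s : ℂ} (hi : s.im ≠ 0) : riemannZeta s = chi s * riemannZeta (1 - s) := by
  have h0 : s ≠ 0 := by rintro rfl; simp at hi
  have h1 : (1 - s) ≠ 0 := by
    intro h
    have := congrArg Complex.im h
    simp at this
    exact hi this
  rw [riemannZeta_def_of_ne_zero h0, riemannZeta_def_of_ne_zero h1, completedRiemannZeta_one_sub,
    chi]
  have h2 := gammaR_ne hi
  have h3 := gammaR_one_sub_ne hi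
  field_simp

lemma gammaR_add_two (x : ℝ) {t : ℝ} (ht : 0 < t) :
    ‖Gammaℝ (((x + 2 : ℝ) : ℂ) + t * I)‖ =
      ‖Gammaℝ ((x : ℂ) + t * I)‖ * (‖(x : ℂ) + t * I‖ / (2 * Real.pi)) := by
  have hne : (x : ℂ) + t * I ≠ 0 := by
    intro h
    have := congrArg Complex.im h
    simp at this
    exact ht.ne' this
  have h := Gammaℝ_add_two hne
  have h2 : ((x + 2 : ℝ) : ℂ) + t * I = (x : ℂ) + t * I + 2 := by push_cast; ring
  rw [h2, h, norm_div, norm_div, norm_mul, Complex.norm_real, Real.norm_eq_abs,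
    abs_of_pos Real.pi_pos]
  simp
  ring

/-- the recursion -/
lemma phi_add_two (u : ℝ) {t : ℝ} (ht : 0 < t) :
    phi (u + 2) t = phi u t *
      (‖((1 / 2 + u : ℝ) : ℂ) + t * I‖ * ‖((1 / 2 - (u + 2) : ℝ) : ℂ) + t * I‖ /
        (4 * Real.pi ^ 2)) := by
  unfold phi
  have h1 := gammaR_add_two (1 / 2 + u) ht
  have h2 := gammaR_add_two (1 / 2 - (u + 2)) ht
  rw [show (1 / 2 + u + 2 : ℝ) = 1 / 2 + (u + 2) by ring] at h1
  rw [show (1 / 2 - (u + 2) + 2 : ℝ) = 1 / 2 - u by ring] at h2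
  have h3 := gammaR_pos (1 / 2 - (u + 2)) ht
  have h4 := gammaR_pos (1 / 2 - u) ht
  have hpi := Real.pi_pos
  rw [h1]
  rw [h2] at h4 ⊢
  have h5 : 0 < ‖((1 / 2 - (u + 2) : ℝ) : ℂ) + t * I‖ := by
    by_contra hcon
    push Not at hcon
    have h6 : ‖((1 / 2 - (u + 2) : ℝ) : ℂ) + t * I‖ = 0 := le_antisymm hcon (norm_nonneg _)
    rw [h6] at h4
    simp at h4
  clear h1 h2 h4
  generalize ‖Gammaℝ (((1 / 2 + u : ℝ) : ℂ) + t * I)‖ = a1
  generalize ‖((1 / 2 + u : ℝ) : ℂ) + t * I‖ = a2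
  generalize ‖Gammaℝ (((1 / 2 - (u + 2) : ℝ) : ℂ) + t * I)‖ = a3 at h3 ⊢
  generalize ‖((1 / 2 - (u + 2) : ℝ) : ℂ) + t * I‖ = a4 at h5 ⊢
  field_simp
  ring

lemma le_norm_im (x t : ℝ) : t ≤ ‖(x : ℂ) + t * I‖ := by
  have := Complex.abs_im_le_norm ((x : ℂ) + t * I)
  simp at this
  exact (le_abs_self t).trans this

lemma norm_le_abs_add (x : ℝ) {t : ℝ} (ht : 0 < t) : ‖(x : ℂ) + t * I‖ ≤ |x| + t := by
  refine (norm_add_le _ _).trans ?_
  rw [norm_mul, Complex.norm_I, mul_one, Complex.norm_real, Complex.norm_real, Real.norm_eq_abs,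
    Real.norm_eq_abs, abs_of_pos ht]

lemma phi_bound (n : ℕ) : ∃ C : ℝ, 1 ≤ C ∧ ∀ u t : ℝ, -1 ≤ u → u ≤ 2 * n + 1 → 20 ≤ t →
    phi u t ≤ C * t ^ u ∧ t ^ u ≤ C * phi u t := by
  induction n with
  | zero =>
    have key : ∀ u t : ℝ, 0 ≤ u → u ≤ 1 → 20 ≤ t → phi u t ≤ 9 * t ^ u ∧ t ^ u ≤ 9 * phi u t := by
      intro u t hu0 hu1 ht
      have ht0 : 0 < t := by linarith
      have h1 := chi_left hu0 hu1 ht
      rw [norm_chi_eq, show (1 / 2 - (1 / 2 - u) : ℝ) = u by ring] at h1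
      have h2 := chi_norm_le (x := u) hu0 (by linarith) ht
      rw [norm_chi_eq, show (1 / 2 - (1 / 2 + u) : ℝ) = -u by ring] at h2
      have h3 := phi_neg u ht0
      have hp := phi_pos u ht0
      have htu : 0 < t ^ u := Real.rpow_pos_of_pos ht0 _
      refine ⟨by nlinarith, ?_⟩
      have h4 : (9 / t) ^ u = 9 ^ u / t ^ u := Real.div_rpow (by norm_num) ht0.le _
      have h5 : (9 : ℝ) ^ u ≤ 9 := by
        calc (9 : ℝ) ^ u ≤ 9 ^ (1 : ℝ) := Real.rpow_le_rpow_of_exponent_le (by norm_num) hu1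
          _ = 9 := Real.rpow_one _
      rw [h4, le_div_iff₀ htu] at h2
      calc t ^ u = (phi (-u) t * phi u t) * t ^ u := by rw [h3, one_mul]
        _ = (phi (-u) t * t ^ u) * phi u t := by ring
        _ ≤ 9 * phi u t := mul_le_mul_of_nonneg_right (h2.trans h5) hp.le
    refine ⟨9, by norm_num, fun u t hu0 hu1 ht => ?_⟩
    have hu1' : u ≤ 1 := by simpa using hu1
    rcases le_total 0 u with hu | hu
    · exact key u t hu hu1' ht
    · have ht0 : 0 < t := by linarith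
      obtain ⟨h1, h2⟩ := key (-u) t (by linarith) (by linarith) ht
      have h3 := phi_neg u ht0
      have hp := phi_pos u ht0
      have htu : 0 < t ^ u := Real.rpow_pos_of_pos ht0 _
      have h4 : t ^ (-u) * t ^ u = 1 := by
        rw [← Real.rpow_add ht0]; simp
      constructor
      · calc phi u t = (t ^ (-u) * t ^ u) * phi u t := by rw [h4, one_mul]
          _ ≤ ((9 * phi (-u) t) * t ^ u) * phi u t := by gcongr
          _ = 9 * t ^ u * (phi (-u) t * phi u t) := by ring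
          _ = 9 * t ^ u := by rw [h3, mul_one]
      · calc t ^ u = (phi (-u) t * phi u t) * t ^ u := by rw [h3, one_mul]
          _ ≤ ((9 * t ^ (-u)) * phi u t) * t ^ u := by gcongr
          _ = 9 * phi u t * (t ^ (-u) * t ^ u) := by ring
          _ = 9 * phi u t := by rw [h4, mul_one]
  | succ n ih =>
    obtain ⟨C, hC, ih⟩ := ih
    have hn : (0 : ℝ) ≤ n := Nat.cast_nonneg n
    refine ⟨C * 40 * (2 * n + 4) ^ 2, by nlinarith, fun u t hu0 hu1 ht => ?_⟩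
    have ht0 : 0 < t := by linarith
    have hpi := Real.pi_pos
    have hpi3 := Real.pi_gt_three
    have hpi4 := Real.pi_lt_d2
    have hfac : C ≤ C * 40 * (2 * (n : ℝ) + 4) ^ 2 := by
      have : (1 : ℝ) ≤ (2 * n + 4) ^ 2 := by nlinarith
      nlinarith
    rcases le_total u 1 with hu | hu
    · obtain ⟨h1, h2⟩ := ih u t hu0 (by linarith) ht
      have hp := phi_pos u ht0
      have htu : 0 < t ^ u := Real.rpow_pos_of_pos ht0 _
      exact ⟨h1.trans (by gcongr), h2.trans (by gcongr)⟩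
    · push_cast at hu1
      obtain ⟨h1, h2⟩ := ih (u - 2) t (by linarith) (by linarith) ht
      have hr := phi_add_two (u - 2) ht0
      rw [show u - 2 + 2 = u by ring] at hr
      have hp := phi_pos (u - 2) ht0
      have htu : 0 < t ^ (u - 2) := Real.rpow_pos_of_pos ht0 _
      have htt : t ^ u = t ^ (u - 2) * t ^ 2 := by
        rw [← Real.rpow_natCast, ← Real.rpow_add ht0]
        congr 1
        push_cast
        ring
      set A := ‖((1 / 2 + (u - 2) : ℝ) : ℂ) + t * I‖ with hA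
      set B := ‖((1 / 2 - u : ℝ) : ℂ) + t * I‖ with hB
      have hA1 : t ≤ A := le_norm_im _ _
      have hB1 : t ≤ B := le_norm_im _ _
      have hA2 : A ≤ (2 * n + 4) * t := by
        refine (norm_le_abs_add _ ht0).trans ?_
        have : |1 / 2 + (u - 2)| ≤ 2 * n + 3 := by
          rw [abs_le]; constructor <;> linarith
        nlinarith
      have hB2 : B ≤ (2 * n + 4) * t := by
        refine (norm_le_abs_add _ ht0).trans ?_
        have : |1 / 2 - u| ≤ 2 * n + 3 := by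
          rw [abs_le]; constructor <;> linarith
        nlinarith
      have hAB1 : t ^ 2 ≤ A * B := by nlinarith
      have hAB2 : A * B ≤ (2 * n + 4) ^ 2 * t ^ 2 := by
        calc A * B ≤ ((2 * n + 4) * t) * ((2 * n + 4) * t) := by gcongr
          _ = _ := by ring
      have hpp1 : 1 ≤ 4 * Real.pi ^ 2 := by nlinarith
      have hpp2 : 4 * Real.pi ^ 2 ≤ 40 := by nlinarith
      have hpp0 : 0 < 4 * Real.pi ^ 2 := by positivity
      rw [hr, htt]
      constructor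
      · calc phi (u - 2) t * (A * B / (4 * Real.pi ^ 2))
            ≤ (C * t ^ (u - 2)) * ((2 * n + 4) ^ 2 * t ^ 2) := by
              apply mul_le_mul h1 _ (by positivity) (by positivity)
              rw [div_le_iff₀ hpp0]
              calc A * B ≤ (2 * n + 4) ^ 2 * t ^ 2 := hAB2
                _ ≤ (2 * n + 4) ^ 2 * t ^ 2 * (4 * Real.pi ^ 2) :=
                  le_mul_of_one_le_right (by positivity) hpp1
          _ ≤ C * 40 * (2 * n + 4) ^ 2 * (t ^ (u - 2) * t ^ 2) := by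
              have : 0 ≤ C * (2 * (n : ℝ) + 4) ^ 2 * (t ^ (u - 2) * t ^ 2) := by positivity
              linarith
      · have h6 : t ^ 2 ≤ 40 * (A * B / (4 * Real.pi ^ 2)) := by
          rw [mul_div_assoc', le_div_iff₀ hpp0]
          calc t ^ 2 * (4 * Real.pi ^ 2) ≤ (A * B) * 40 := by gcongr
            _ = 40 * (A * B) := by ring
        calc t ^ (u - 2) * t ^ 2 ≤ (C * phi (u - 2) t) * (40 * (A * B / (4 * Real.pi ^ 2))) := by
              gcongr
          _ = C * 40 * 1 * (phi (u - 2) t * (A * B / (4 * Real.pi ^ 2))) := by ring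
          _ ≤ C * 40 * (2 * n + 4) ^ 2 * (phi (u - 2) t * (A * B / (4 * Real.pi ^ 2))) := by
              have : (1 : ℝ) ≤ (2 * n + 4) ^ 2 := by nlinarith
              gcongr

lemma norm_zeta_one_sub (x t : ℝ) :
    ‖riemannZeta (1 - ((x : ℂ) + t * I))‖ = ‖riemannZeta (((1 - x : ℝ) : ℂ) + t * I)‖ := by
  have h2 : (1 - ((x : ℂ) + t * I) : ℂ) = (starRingEnd ℂ) (((1 - x : ℝ) : ℂ) + t * I) := by
    apply Complex.ext <;> simp
  rw [h2, riemannZeta_conj, Complex.norm_conj]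

lemma part_one (K : ℝ) : ∃ C T₁ : ℝ, 1 ≤ C ∧ 1 ≤ T₁ ∧ ∀ x t : ℝ, -K ≤ x → x ≤ 1 / 2 → T₁ ≤ t →
    ‖riemannZeta ((x : ℂ) + t * I)‖ ≤
      C * t ^ (1 / 2 - x) * ‖riemannZeta (((1 - x : ℝ) : ℂ) + t * I)‖ ∧
    t ^ (1 / 2 - x) * ‖riemannZeta (((1 - x : ℝ) : ℂ) + t * I)‖ ≤
      C * ‖riemannZeta ((x : ℂ) + t * I)‖ := by
  obtain ⟨n, hn⟩ := exists_nat_ge (K + 1)
  obtain ⟨C, hC, h⟩ := phi_bound n
  refine ⟨C, 20, hC, by norm_num, fun x t hx0 hx1 ht => ?_⟩
  have hn0 : (0 : ℝ) ≤ n := Nat.cast_nonneg n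
  obtain ⟨h1, h2⟩ := h (1 / 2 - x) t (by linarith) (by linarith) ht
  have ht0 : 0 < t := by linarith
  have hf := functional' (s := (x : ℂ) + t * I) (by simp; exact ht0.ne')
  have hfn : ‖riemannZeta ((x : ℂ) + t * I)‖ =
      phi (1 / 2 - x) t * ‖riemannZeta (((1 - x : ℝ) : ℂ) + t * I)‖ := by
    rw [hf, norm_mul, norm_chi_eq, norm_zeta_one_sub]
  rw [hfn]
  constructor
  · gcongr
  · calc t ^ (1 / 2 - x) * ‖riemannZeta (((1 - x : ℝ) : ℂ) + t * I)‖
        ≤ (C * phi (1 / 2 - x) t) * ‖riemannZeta (((1 - x : ℝ) : ℂ) + t * I)‖ := by gcongr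
      _ = _ := by ring

lemma part_two (δ : ℝ) (hδ : 0 < δ) : ∃ c : ℝ, 0 < c ∧ ∀ s : ℂ, 1 + δ ≤ s.re →
    c ≤ ‖riemannZeta s‖ := by
  set μ' : ℕ → ℂ := fun n => (ArithmeticFunction.moebius n : ℂ) with hμ
  have hre : ((1 + δ : ℝ) : ℂ).re = 1 + δ := Complex.ofReal_re _
  have hs : LSeriesSummable μ' ((1 + δ : ℝ) : ℂ) :=
    ArithmeticFunction.LSeriesSummable_moebius_iff.mpr (by rw [hre]; linarith)
  have hsn : Summable fun n => ‖LSeries.term μ' ((1 + δ : ℝ) : ℂ) n‖ := hs.norm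
  set M : ℝ := 1 + ∑' n, ‖LSeries.term μ' ((1 + δ : ℝ) : ℂ) n‖ with hM
  have hT : 0 ≤ ∑' n, ‖LSeries.term μ' ((1 + δ : ℝ) : ℂ) n‖ := tsum_nonneg fun _ => norm_nonneg _
  have hM0 : 0 < M := by linarith
  refine ⟨1 / M, by positivity, fun s hs1 => ?_⟩
  have hs2 : 1 < s.re := by linarith
  have h1 := ArithmeticFunction.LSeries_zeta_mul_Lseries_moebius hs2
  rw [ArithmeticFunction.LSeries_zeta_eq_riemannZeta hs2] at h1
  have h2 : ‖LSeries μ' s‖ ≤ M := by
    have h3 : ‖LSeries μ' s‖ ≤ ∑' n, ‖LSeries.term μ' ((1 + δ : ℝ) : ℂ) n‖ := by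
      apply tsum_of_norm_bounded hsn.hasSum
      intro n
      exact LSeries.norm_term_le_of_re_le_re μ' (by rw [hre]; exact hs1) n
    linarith
  have h3 : ‖riemannZeta s‖ * ‖LSeries μ' s‖ = 1 := by
    rw [← norm_mul, h1, norm_one]
  rw [div_le_iff₀ hM0, ← h3]
  exact mul_le_mul_of_nonneg_left h2 (norm_nonneg _)

end S4Aux

theorem s4 : S4 := ⟨S4Aux.part_one, S4Aux.part_two⟩

end Pool.Agent.SPZ
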