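import Pool.Agent.SPZ.Targets

/-!
# S2: the divisor count bounds the number of zeros that can be split off; monotonicity
-/

set_option autoImplicit false

namespace Pool.Agent.SPZ

open Complex Metric Set Filter Topology
open Pool.Agent.LHW (Up CountLe Fac isOpen_Up)

theorem S2.preconnected : IsPreconnected Up := by
  apply Convex.isPreconnected
  intro x hx y hy a b ha hb hab
  simp only [Up, mem_ofPred] at hx hy ⊢
  simp only [add_im, real_smul, mul_im, ofReal_re, ofReal_im, zero_mul, add_zero]
  have h1 : a * 1 ≤ a * x.im := by gcongr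
  have h2 : b * 1 ≤ b * y.im := by gcongr
  rcases ha.lt_or_eq with h | h
  · have h3 : a * 1 < a * x.im := by gcongr
    linarith
  · have h3 : b = 1 := by linarith
    rw [h3, ← h]
    linarith

theorem S2.analytic {f : ℂ → ℂ} (hf : DifferentiableOn ℂ f Up) : AnalyticOnNhd ℂ f Up :=
  hf.analyticOnNhd isOpen_Up

theorem S2.order_ne_top {f : ℂ → ℂ} (hf : DifferentiableOn ℂ f Up) (h0 : ∃ z ∈ Up, f z ≠ 0)
    {a : ℂ} (ha : a ∈ Up) : analyticOrderAt f a ≠ ⊤ := by
  intro h
  rw [analyticOrderAt_eq_top] at h
  have h2 := (S2.analytic hf).eqOn_zero_of_preconnected_of_eventuallyEq_zero S2.preconnected ha h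
  obtain ⟨z, hz, hz0⟩ := h0
  exact hz0 (h2 hz)

theorem S2.ball_sub {c : ℂ} {r : ℝ} (h : 1 < c.im - r) : closedBall c r ⊆ Up := by
  intro z hz
  rw [mem_closedBall, dist_eq_norm] at hz
  have h1 := abs_im_le_norm (z - c)
  rw [sub_im] at h1
  have h2 := neg_abs_le (z.im - c.im)
  change 1 < z.im
  linarith

theorem S2.diff_prod (t : Multiset ℂ) :
    Differentiable ℂ (fun z : ℂ => (t.map fun a => z - a).prod) := by
  induction t using Multiset.induction_on with
  | empty => simp
  | cons b t ih =>
    have : (fun z : ℂ => ((b ::ₘ t).map fun a => z - a).prod) =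
        fun z => (z - b) * (t.map fun a => z - a).prod := by
      funext z; simp
    rw [this]
    exact (differentiable_id.sub_const b).mul ih

/-- the multiplicity of a split-off zero is at most the order -/
theorem S2.count_le {f g : ℂ → ℂ} {s : Multiset ℂ} (hf : DifferentiableOn ℂ f Up)
    (hF : Fac f g Up s) {a : ℂ} (ha : a ∈ Up) :
    (s.count a : ℕ∞) ≤ analyticOrderAt f a := by
  have hana : AnalyticAt ℂ f a := S2.analytic hf a ha
  rw [natCast_le_analyticOrderAt hana]
  refine ⟨fun z => ((s.filter fun b => ¬ b = a).map fun b => z - b).prod * g z, ?_, ?_⟩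
  · have hd : DifferentiableOn ℂ (fun z => ((s.filter fun b => ¬ b = a).map fun b => z - b).prod *
        g z) Up := (S2.diff_prod _).differentiableOn.mul hF.1
    exact hd.analyticAt (isOpen_Up.mem_nhds ha)
  · filter_upwards [isOpen_Up.mem_nhds ha] with z hz
    rw [hF.2 z hz]
    conv_lhs => rw [← Multiset.filter_add_not (fun b => b = a) s]
    rw [Multiset.map_add, Multiset.prod_add, Multiset.filter_eq', Multiset.map_replicate,
      Multiset.prod_replicate, smul_eq_mul, mul_assoc]

theorem S2.count {f : ℂ → ℂ} (hf : DifferentiableOn ℂ f Up) (h0 : ∃ z ∈ Up, f z ≠ 0)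
    {c : ℂ} {r : ℝ} {N : ℕ} (hc : 1 < c.im - r) (hN : zeros f c r ≤ (N : ℤ)) :
    CountLe f Up (closedBall c r) N := by
  intro s g hF hs
  have hana : AnalyticOnNhd ℂ f (closedBall c r) := (S2.analytic hf).mono (S2.ball_sub hc)
  set D := MeromorphicOn.divisor f (closedBall c r) with hD
  have hnn : ∀ z, 0 ≤ D z := fun z => (MeromorphicOn.AnalyticOnNhd.divisor_nonneg hana) z
  have hfin : (Function.support (fun z => D z)).Finite :=
    D.finiteSupport (isCompact_closedBall c r)
  have hpt : ∀ a ∈ s, ((s.count a : ℕ) : ℤ) ≤ D a := by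
    intro a has
    have haK : a ∈ closedBall c r := hs a has
    have haU : a ∈ Up := S2.ball_sub hc haK
    rw [hD, MeromorphicOn.AnalyticOnNhd.divisor_apply hana haK]
    have h2 := S2.count_le hf hF haU
    have h3 := S2.order_ne_top hf h0 haU
    obtain ⟨n, hn⟩ := ENat.ne_top_iff_exists.1 h3
    rw [← hn] at h2 ⊢
    have h4 : s.count a ≤ n := by exact_mod_cast h2
    simpa using h4
  have hcard : (s.card : ℤ) = ∑ a ∈ s.toFinset, ((s.count a : ℕ) : ℤ) := by
    rw [← Multiset.toFinset_sum_count_eq]
    push_cast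
    rfl
  have hle : (s.card : ℤ) ≤ ∑ᶠ u, D u := by
    rw [hcard]
    calc ∑ a ∈ s.toFinset, ((s.count a : ℕ) : ℤ) ≤ ∑ a ∈ s.toFinset, D a := by
          refine Finset.sum_le_sum fun a ha => hpt a (by simpa using ha)
      _ ≤ ∑ a ∈ s.toFinset ∪ hfin.toFinset, D a :=
          Finset.sum_le_sum_of_subset_of_nonneg Finset.subset_union_left fun a _ _ => hnn a
      _ = ∑ᶠ u, D u := by
          rw [finsum_eq_sum_of_support_subset]
          intro u hu
          simp only [Finset.coe_union, Set.mem_union]
          right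
          simpa using hu
  exact_mod_cast hle.trans hN

theorem S2.mono {f : ℂ → ℂ} (hf : DifferentiableOn ℂ f Up) {c d : ℂ} {r R : ℝ}
    (hc : 1 < c.im - R) (hs : closedBall d r ⊆ closedBall c R) : zeros f d r ≤ zeros f c R := by
  have aW : AnalyticOnNhd ℂ f (closedBall c R) := (S2.analytic hf).mono (S2.ball_sub hc)
  have aV : AnalyticOnNhd ℂ f (closedBall d r) := aW.mono hs
  unfold zeros
  apply finsum_le_finsum'
    ((MeromorphicOn.divisor f (closedBall d r)).finiteSupport (isCompact_closedBall d r))
    ((MeromorphicOn.divisor f (closedBall c R)).finiteSupport (isCompact_closedBall c R))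
  intro u
  by_cases huV : u ∈ closedBall d r
  · rw [MeromorphicOn.divisor_apply aV.meromorphicOn huV,
      MeromorphicOn.divisor_apply aW.meromorphicOn (hs huV)]
  · have h1 : MeromorphicOn.divisor f (closedBall d r) u = 0 :=
      Function.locallyFinsuppWithin.apply_eq_zero_of_notMem _ huV
    rw [h1]
    exact MeromorphicOn.AnalyticOnNhd.divisor_nonneg aW u

theorem s2 : S2 := by
  intro f hf h0
  refine ⟨fun c r N l b hc hN => ?_, fun c d r R hc hs => S2.mono hf hc hs⟩
  intro s g hF hs
  refine S2.count hf h0 hc hN s (fun z => g z * cexp (-(l * (z - b)))) ⟨?_, fun z hz => ?_⟩ hs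
  · refine hF.1.mul (Differentiable.differentiableOn ?_)
    exact ((differentiable_const _).mul (differentiable_id.sub_const b)).neg.cexp
  · have h1 := hF.2 z hz
    simp only at h1
    rw [← mul_assoc, ← h1, mul_assoc, ← Complex.exp_add, add_neg_cancel, Complex.exp_zero, mul_one]

end Pool.Agent.SPZ
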