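import Pool.Agent.SPZ.Targets

/-!
# S7: Jensen's bound and subadditivity of the zero count
-/

set_option autoImplicit false

namespace Pool.Agent.SPZ

open Complex Metric Set Filter Topology
open Pool.Agent.LHW (Up CountLe T4 T5)

namespace S7aux

lemma isOpen_up : IsOpen Up := isOpen_lt continuous_const Complex.continuous_im

lemma sub_up {c : ℂ} {r : ℝ} (h : 1 < c.im - r) : closedBall c r ⊆ Up := by
  intro z hz
  rw [mem_closedBall, dist_eq_norm] at hz
  have h1 := (Complex.abs_im_le_norm (z - c)).trans hz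
  rw [sub_im, abs_le] at h1
  change 1 < z.im
  linarith [h1.1]

lemma an {f : ℂ → ℂ} (hf : DifferentiableOn ℂ f Up) {c : ℂ} {r : ℝ} (h : 1 < c.im - r) :
    AnalyticOnNhd ℂ f (closedBall c r) :=
  (hf.analyticOnNhd isOpen_up).mono (sub_up h)

/-- Jensen -/
theorem a (f : ℂ → ℂ) (w : ℂ) (ρ R b : ℝ) (hρ : 0 < ρ) (hR : ρ < R) (hb : 0 ≤ b)
    (hw : 1 < w.im - R) (hf : DifferentiableOn ℂ f Up)
    (hM : ∀ z ∈ closedBall w R, ‖f z‖ ≤ Real.exp b) (hl : Real.exp (-b) ≤ ‖f w‖) :
    (zeros f w ρ : ℝ) ≤ 2 * b / Real.log (R / ρ) := by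
  have hR0 : 0 < R := hρ.trans hR
  have hfw : 0 < ‖f w‖ := (Real.exp_pos _).trans_le hl
  have hJ := AnalyticOnNhd.sum_divisor_le (c := w) (r := ρ) (R := R) (M := Real.exp b)
    (f := f) (by rw [abs_of_pos hρ]; exact hρ) (by rw [abs_of_pos hρ, abs_of_pos hR0]; exact hR)
    (Real.one_le_exp hb) (by rw [abs_of_pos hR0]; exact an hf hw) (norm_pos_iff.mp hfw)
    (by
      rw [abs_of_pos hR0]
      exact fun z hz => hM z (sphere_subset_closedBall hz))
  rw [abs_of_pos hρ] at hJ
  refine hJ.trans ?_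
  have hlog : 0 ≤ Real.log (R / ρ) := Real.log_nonneg (by rw [le_div_iff₀ hρ]; linarith)
  refine div_le_div_of_nonneg_right ?_ hlog
  calc Real.log (Real.exp b / ‖f w‖) ≤ Real.log (Real.exp (2 * b)) := by
        apply Real.log_le_log (by positivity)
        rw [div_le_iff₀ hfw]
        calc Real.exp b = Real.exp (2 * b) * Real.exp (-b) := by
              rw [← Real.exp_add]; ring_nf
          _ ≤ Real.exp (2 * b) * ‖f w‖ := by gcongr
    _ = 2 * b := Real.log_exp _

/-- a closed disc is covered by finitely many discs of a given radius centred in it -/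
lemma cover (r h : ℝ) (hh : 0 < h) : ∃ t : Finset ℂ, (∀ p ∈ t, p ∈ closedBall (0 : ℂ) r) ∧
    closedBall (0 : ℂ) r ⊆ ⋃ p ∈ t, closedBall p h := by
  obtain ⟨t, ht1, ht2, ht3⟩ := (isCompact_closedBall (0 : ℂ) r).finite_cover_balls hh
  refine ⟨ht2.toFinset, fun p hp => ht1 (by simpa using hp), fun z hz => ?_⟩
  obtain ⟨p, hp, hz2⟩ := by simpa using ht3 hz
  simp only [mem_iUnion, Set.Finite.mem_toFinset, exists_prop]
  exact ⟨p, hp, ball_subset_closedBall (by simpa using hz2)⟩

/-- the count in a set covered by finitely many discs -/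
theorem b (r h : ℝ) (hh : 0 < h) : ∃ M : ℕ, ∀ (f : ℂ → ℂ) (c : ℂ) (N : ℝ),
    DifferentiableOn ℂ f Up → 1 < c.im - r - h →
    (∀ p ∈ closedBall c r, (zeros f p h : ℝ) ≤ N) → (zeros f c r : ℝ) ≤ M * N := by
  obtain ⟨t, ht1, ht2⟩ := cover r h hh
  refine ⟨t.card, fun f c N hf hc hN => ?_⟩
  have hcr : 1 < c.im - r := by linarith
  have hA := an hf hcr
  have hAp : ∀ p ∈ t, AnalyticOnNhd ℂ f (closedBall (c + p) h) := by
    intro p hp
    apply an hf
    have h1 := ht1 p hp
    rw [mem_closedBall, dist_zero_right] at h1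
    have h2 := (Complex.abs_im_le_norm p).trans h1
    rw [abs_le] at h2
    rw [add_im]
    linarith [h2.1]
  set D : ℂ → ℤ := fun u => MeromorphicOn.divisor f (closedBall c r) u with hD
  have hDfin : (Function.support D).Finite :=
    (MeromorphicOn.divisor f (closedBall c r)).finiteSupport (isCompact_closedBall c r)
  set E : ℂ → ℂ → ℤ := fun p u => MeromorphicOn.divisor f (closedBall (c + p) h) u with hE
  have hEfin : ∀ p, (Function.support (E p)).Finite := fun p =>
    (MeromorphicOn.divisor f (closedBall (c + p) h)).finiteSupport (isCompact_closedBall _ h)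
  have hEnn : ∀ p ∈ t, ∀ u, 0 ≤ E p u := fun p hp u =>
    (MeromorphicOn.AnalyticOnNhd.divisor_nonneg (hAp p hp)) u
  have hpt : ∀ u, D u ≤ ∑ p ∈ t, E p u := by
    intro u
    by_cases hu : u ∈ closedBall c r
    · have hu0 : u - c ∈ closedBall (0 : ℂ) r := by
        rw [mem_closedBall, dist_zero_right]
        rwa [mem_closedBall, dist_eq_norm] at hu
      have h1 := ht2 hu0
      simp only [mem_iUnion, exists_prop] at h1
      obtain ⟨p, hp, hup⟩ := h1
      have hup' : u ∈ closedBall (c + p) h := by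
        rw [mem_closedBall, dist_eq_norm] at hup ⊢
        rwa [show u - (c + p) = u - c - p by ring]
      have h2 : D u = E p u := by
        simp only [hD, hE]
        rw [MeromorphicOn.divisor_apply hA.meromorphicOn hu,
          MeromorphicOn.divisor_apply (hAp p hp).meromorphicOn hup']
      rw [h2]
      exact Finset.single_le_sum (f := fun q => E q u) (fun q hq => hEnn q hq u) hp
    · have h1 : D u = 0 := Function.locallyFinsuppWithin.apply_eq_zero_of_notMem _ hu
      rw [h1]
      exact Finset.sum_nonneg fun q hq => hEnn q hq u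
  have hle : zeros f c r ≤ ∑ p ∈ t, zeros f (c + p) h := by
    have h1 : (∑ᶠ u, D u) ≤ ∑ᶠ u, ∑ p ∈ t, E p u := by
      refine finsum_le_finsum' hDfin ?_ hpt
      refine Set.Finite.subset (t.finite_toSet.biUnion fun p _ => hEfin p) ?_
      intro u hu
      rw [Function.mem_support] at hu
      obtain ⟨p, hp, hne⟩ := Finset.exists_ne_zero_of_sum_ne_zero hu
      exact Set.mem_biUnion (show p ∈ (t : Set ℂ) from hp) hne
    rw [finsum_sum_comm t (fun u p => E p u) fun p _ => hEfin p] at h1
    exact h1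
  have hle' : (zeros f c r : ℝ) ≤ ∑ p ∈ t, (zeros f (c + p) h : ℝ) := by exact_mod_cast hle
  refine hle'.trans ?_
  calc ∑ p ∈ t, (zeros f (c + p) h : ℝ) ≤ ∑ _p ∈ t, N := by
        refine Finset.sum_le_sum fun p hp => hN _ ?_
        have h1 := ht1 p hp
        rw [mem_closedBall, dist_zero_right] at h1
        rw [mem_closedBall, dist_eq_norm]
        simpa using h1
    _ = t.card * N := by rw [Finset.sum_const, nsmul_eq_mul]

/-- the zero count is not changed by an exponential factor -/
theorem c (f : ℂ → ℂ) (c b : ℂ) (r l : ℝ) (hf : DifferentiableOn ℂ f Up)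
    (hc : 1 < c.im - r) :
    zeros (fun s => f s * cexp (l * (s - b))) c r = zeros f c r := by
  have hA := an hf hc
  have hexp : AnalyticOnNhd ℂ (fun s : ℂ => cexp (l * (s - b))) (closedBall c r) := fun z _ => by
    fun_prop
  have hB : AnalyticOnNhd ℂ (fun s => f s * cexp (l * (s - b))) (closedBall c r) :=
    hA.mul hexp
  unfold zeros
  refine finsum_congr fun u => ?_
  by_cases hu : u ∈ closedBall c r
  · rw [MeromorphicOn.divisor_apply hA.meromorphicOn hu,
      MeromorphicOn.divisor_apply hB.meromorphicOn hu]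
    have h1 : (fun s => f s * cexp (l * (s - b))) =
        (fun s : ℂ => cexp (l * (s - b))) * f := by
      funext s
      simp [mul_comm]
    rw [h1, meromorphicOrderAt_mul_of_ne_zero (hexp u hu) (Complex.exp_ne_zero _)]
  · rw [Function.locallyFinsuppWithin.apply_eq_zero_of_notMem _ hu,
      Function.locallyFinsuppWithin.apply_eq_zero_of_notMem _ hu]

end S7aux

/-- S7 -/
theorem s7 : S7 := by
  refine ⟨S7aux.a, fun r h _ hh => ?_, S7aux.c⟩
  obtain ⟨M, hM⟩ := S7aux.b r h hh
  exact ⟨M, fun f c N hf _ hc hN => hM f c N hf hc hN⟩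

end Pool.Agent.SPZ
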