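import Pool.Agent.SPZ.Targets
import Pool.Agent.LHW.J4
import Pool.Agent.LHW.J5

/-!
# S1: propagation of smallness along a horizontal segment through few zeros
-/

set_option autoImplicit false

namespace Pool.Agent.SPZ

open Complex Metric Set Filter Topology
open Pool.Agent.LHW (Up CountLe T4 T5 numbers isOpen_Up ball_Up t4 t5)

/-- smallness of `F` at a point -/
def SmallF (F : ℂ → ℂ) (R a : ℝ) (p : ℂ) : Prop :=
  (∀ z ∈ closedBall p (R / 32), ‖F z‖ ≤ Real.exp a) ∧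
    ∃ w ∈ closedBall p (R / 64), Real.exp (-a) ≤ ‖F w‖

lemma SmallF.mono {F : ℂ → ℂ} {R a b : ℝ} {p : ℂ} (h : SmallF F R a p) (hab : a ≤ b) :
    SmallF F R b p := by
  obtain ⟨h1, w, hw, h2⟩ := h
  refine ⟨fun z hz => (h1 z hz).trans (Real.exp_le_exp.mpr hab), w, hw, ?_⟩
  exact (Real.exp_le_exp.mpr (by linarith)).trans h2

theorem s1 : S1 := by
  intro x₀ x₁ R A₀ ε hR hA₀ hε
  obtain ⟨C, hC, h4⟩ := t4
  obtain ⟨A, hAdef⟩ : ∃ A : ℝ, A = max A₀ 2 := ⟨_, rfl⟩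
  have hA2 : 2 ≤ A := by rw [hAdef]; exact le_max_right _ _
  have hAA : A₀ ≤ A := by rw [hAdef]; exact le_max_left _ _
  have hC0 : 0 < C := by linarith
  have hCA : C ≤ C * A := by nlinarith
  obtain ⟨M, h5⟩ := t5 |x₁ - x₀| 0 (R / 32) (by positivity)
  obtain ⟨α, η, hη, hα0, hα1, hα2, hαM⟩ := numbers (C * A) (hC.trans hCA) M ε hε
  refine ⟨η, hη, α 0, hα0 0, R + 3, ?_⟩
  intro T hT F hF hbd hcount hs1 hs2
  have hT0 : 0 < T := by linarith
  have hT1 : 1 < T - R := by linarith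
  set L := Real.log T with hL
  have hL0 : 0 < L := Real.log_pos (by linarith)
  have hpow : ∀ b : ℝ, T ^ b = Real.exp (b * L) := by
    intro b
    rw [Real.rpow_def_of_pos hT0, mul_comm]
  let S : Set ℂ := (fun v : ℝ => (v : ℂ) + T * I) '' uIcc x₀ x₁
  have hS : IsPreconnected S := isPreconnected_uIcc.image _ (by fun_prop)
  let G : ℕ → Set ℂ := fun k => {p | SmallF F R (α k * L) p}
  have him : ∀ v : ℝ, ((v : ℂ) + T * I).im = T := by intro v; simp
  have key := h5 S ((x₀ : ℂ) + T * I) G hS ?_ ?_ ?_ ?_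
  · intro x hx
    have hG : SmallF F R (α M * L) ((x : ℂ) + T * I) := key ⟨x, hx, rfl⟩
    have h1 := hG.1 _ (mem_closedBall_self (by positivity))
    refine h1.trans ?_
    rw [hpow, Real.exp_le_exp]
    nlinarith
  · rintro _ ⟨v, hv, rfl⟩
    have h1 : |v - x₀| ≤ |x₁ - x₀| := abs_sub_left_of_mem_uIcc hv
    constructor
    · simpa using h1
    · simp
  · intro k p hp
    exact SmallF.mono hp (by nlinarith [hα1 k])
  · -- the start
    refine ⟨(x₀ : ℂ) + T * I, ⟨x₀, left_mem_uIcc, rfl⟩, ?_, ?_⟩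
    · intro z hz
      have h1 := hs1 z hz
      rwa [hpow] at h1
    · obtain ⟨w, hw, h1⟩ := hs2
      refine ⟨w, hw, ?_⟩
      rw [hpow] at h1
      rwa [neg_mul] at h1
  · -- the step
    rintro k hk _ ⟨v, hv, rfl⟩ hp q hqS hpq
    obtain ⟨hα3, hα4⟩ := hα2 k hk
    have hN : ((⌊η * L⌋₊ : ℕ) : ℝ) ≤ η * L := Nat.floor_le (by positivity)
    have hcnt := hcount v hv
    have hαk := hα0 k
    have hcond : C * (α k * L + (⌊η * L⌋₊ : ℕ)) ≤ A * L := by
      calc C * (α k * L + (⌊η * L⌋₊ : ℕ)) ≤ C * (α k * L + η * L) := by gcongr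
        _ = C * (α k + η) * L := by ring
        _ ≤ C * A * (α k + η) * L := by gcongr
        _ ≤ 2 * L := by gcongr
        _ ≤ A * L := by gcongr
    have hbound : ∀ z ∈ closedBall ((v : ℂ) + T * I) R, ‖F z‖ ≤ Real.exp (A * L) := by
      intro z hz
      refine (hbd v hv z hz).trans ?_
      rw [hpow, Real.exp_le_exp]
      gcongr
    obtain ⟨h7, h8'⟩ := h4 F Up ((v : ℂ) + T * I) R (A * L) (α k * L) ⌊η * L⌋₊ hR isOpen_Up
      (ball_Up (by rw [him]; exact hT1)) hF (by positivity) hbound hcnt (by positivity) hcond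
      hp.1 hp.2
    have hexp : C * ((α k * L + (⌊η * L⌋₊ : ℕ)) ^ (1 / 4 : ℝ) * (A * L) ^ (3 / 4 : ℝ)) ≤
        α (k + 1) * L := by
      have e1 : (α k * L + (⌊η * L⌋₊ : ℕ)) ^ (1 / 4 : ℝ) ≤ ((α k + η) * L) ^ (1 / 4 : ℝ) := by
        apply Real.rpow_le_rpow (by positivity) _ (by norm_num)
        linarith
      have e2 : ((α k + η) * L) ^ (1 / 4 : ℝ) = (α k + η) ^ (1 / 4 : ℝ) * L ^ (1 / 4 : ℝ) :=
        Real.mul_rpow (by positivity) hL0.le
      have e3 : (A * L) ^ (3 / 4 : ℝ) = A ^ (3 / 4 : ℝ) * L ^ (3 / 4 : ℝ) :=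
        Real.mul_rpow (by positivity) hL0.le
      have e4 : L ^ (1 / 4 : ℝ) * L ^ (3 / 4 : ℝ) = L := by
        rw [← Real.rpow_add hL0]; norm_num
      have e5 : A ^ (3 / 4 : ℝ) ≤ A * 2 ^ (3 / 4 : ℝ) := by
        have e6 : A ^ (3 / 4 : ℝ) ≤ A ^ (1 : ℝ) :=
          Real.rpow_le_rpow_of_exponent_le (by linarith) (by norm_num)
        have e7 : (1 : ℝ) ≤ 2 ^ (3 / 4 : ℝ) := Real.one_le_rpow (by norm_num) (by norm_num)
        rw [Real.rpow_one] at e6
        nlinarith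
      calc C * ((α k * L + (⌊η * L⌋₊ : ℕ)) ^ (1 / 4 : ℝ) * (A * L) ^ (3 / 4 : ℝ))
          ≤ C * (((α k + η) * L) ^ (1 / 4 : ℝ) * (A * L) ^ (3 / 4 : ℝ)) := by gcongr
        _ = C * ((α k + η) ^ (1 / 4 : ℝ) * A ^ (3 / 4 : ℝ)) *
              (L ^ (1 / 4 : ℝ) * L ^ (3 / 4 : ℝ)) := by rw [e2, e3]; ring
        _ ≤ C * ((α k + η) ^ (1 / 4 : ℝ) * (A * 2 ^ (3 / 4 : ℝ))) *
              (L ^ (1 / 4 : ℝ) * L ^ (3 / 4 : ℝ)) := by gcongr
        _ = C * A * ((α k + η) ^ (1 / 4 : ℝ) * 2 ^ (3 / 4 : ℝ)) *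
              (L ^ (1 / 4 : ℝ) * L ^ (3 / 4 : ℝ)) := by ring
        _ ≤ α (k + 1) * L := by rw [e4]; gcongr
    constructor
    · intro z hz
      have hz2 : z ∈ closedBall ((v : ℂ) + T * I) (R / 16) := by
        rw [mem_closedBall] at hz ⊢
        calc dist z ((v : ℂ) + T * I) ≤ dist z q + dist q ((v : ℂ) + T * I) :=
              dist_triangle _ _ _
          _ ≤ R / 32 + R / 32 := by
              rw [dist_comm q]
              exact add_le_add hz hpq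
          _ = R / 16 := by ring
      exact (h7 z hz2).trans (Real.exp_le_exp.mpr hexp)
    · obtain ⟨w, hw, hw2⟩ := h8' q (by rw [mem_closedBall, dist_comm]; exact hpq)
      exact ⟨w, hw, (Real.exp_le_exp.mpr (by linarith)).trans hw2⟩

end Pool.Agent.SPZ
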