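import Pool.Agent.LHW.Main

/-!
# Speiser's criterion for the Lindelöf hypothesis: exact targets

`Z k a s = ζ^(k)(s) - a`. Each target is a proposition; the theorem proving the target `S3` is
`Pool.Agent.SPZ.s3`, and so on.
-/

set_option autoImplicit false

namespace Pool.Agent.SPZ

open Complex Metric Set Filter Topology
open Pool.Agent.LHW (Up CountLe T4 T5)

/-- `ζ^(k) - a` -/
noncomputable def Z (k : ℕ) (a : ℂ) (s : ℂ) : ℂ := iteratedDeriv k riemannZeta s - a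

/-- The number of zeros of `f` in the closed disc with centre `s` and radius `r`, with
multiplicity (`f` analytic there). -/
noncomputable def zeros (f : ℂ → ℂ) (s : ℂ) (r : ℝ) : ℤ :=
  ∑ᶠ u, MeromorphicOn.divisor f (closedBall s r) u

/-- the Lindelöf hypothesis -/
def LH : Prop := ∀ ε : ℝ, 0 < ε → ∃ C : ℝ, ∀ t : ℝ, ‖riemannZeta (1 / 2 + t * I)‖ ≤
  C * (1 + |t|) ^ ε

/-- the normalised function to the left of the critical line: `‖ZL k a T s‖ =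
‖ζ^(k)(s) - a‖ T^(Re s - 1/2)` -/
noncomputable def ZL (k : ℕ) (a : ℂ) (T : ℝ) (s : ℂ) : ℂ :=
  Z k a s * cexp (Real.log T * (s - 1 / 2))

/-- P1: Taylor polynomial with a remainder controlled on the segment. (Induction on `k`, applied to
`deriv f`; mean value inequality on the segment.) -/
def P1 : Prop := ∀ (k : ℕ) (f : ℂ → ℂ) (U : Set ℂ) (z₀ : ℂ), IsOpen U → Convex ℝ U →
  DifferentiableOn ℂ f U → z₀ ∈ U → ∃ P : Polynomial ℂ, P.natDegree ≤ k ∧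
    ∀ z ∈ U, ∀ M : ℝ, (∀ w ∈ segment ℝ z₀ z, ‖iteratedDeriv k f w‖ ≤ M) →
      ‖f z - P.eval z‖ ≤ M * ‖z - z₀‖ ^ k

/-- P2: growth of a polynomial outside a disc (Cauchy estimates for the coefficients at `c`). -/
def P2 : Prop := ∀ (P : Polynomial ℂ) (k : ℕ) (c z : ℂ) (r m : ℝ), P.natDegree ≤ k → 0 < r →
  (∀ w ∈ closedBall c r, ‖P.eval w‖ ≤ m) → r ≤ ‖z - c‖ →
    ‖P.eval z‖ ≤ (k + 1) * m * (‖z - c‖ / r) ^ k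

/-- S1: propagation of smallness along a horizontal segment through few zeros. (As
`LHW.small_on`, with `T4`, `T5`, `numbers`.) -/
def S1 : Prop := ∀ x₀ x₁ R A ε : ℝ, 0 < R → 0 < A → 0 < ε →
  ∃ η : ℝ, 0 < η ∧ ∃ α : ℝ, 0 < α ∧ ∃ T₀ : ℝ, ∀ T : ℝ, T₀ ≤ T → ∀ F : ℂ → ℂ,
    DifferentiableOn ℂ F Up →
    (∀ x ∈ uIcc x₀ x₁, ∀ z ∈ closedBall ((x : ℂ) + T * I) R, ‖F z‖ ≤ T ^ A) →
    (∀ x ∈ uIcc x₀ x₁, CountLe F Up (closedBall ((x : ℂ) + T * I) (R / 2)) ⌊η * Real.log T⌋₊) →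
    (∀ z ∈ closedBall ((x₀ : ℂ) + T * I) (R / 32), ‖F z‖ ≤ T ^ α) →
    (∃ w ∈ closedBall ((x₀ : ℂ) + T * I) (R / 64), T ^ (-α) ≤ ‖F w‖) →
    ∀ x ∈ uIcc x₀ x₁, ‖F ((x : ℂ) + T * I)‖ ≤ T ^ ε

/-- S2: the divisor count bounds `CountLe`, also for the normalised functions. -/
def S2 : Prop := ∀ (f : ℂ → ℂ), DifferentiableOn ℂ f Up → (∃ z ∈ Up, f z ≠ 0) →
  (∀ (c : ℂ) (r : ℝ) (N : ℕ) (l : ℝ) (b : ℂ), 1 < c.im - r → zeros f c r ≤ (N : ℤ) →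
    CountLe (fun s => f s * cexp (l * (s - b))) Up (closedBall c r) N) ∧
  (∀ (c d : ℂ) (r R : ℝ), 1 < c.im - R → closedBall d r ⊆ closedBall c R →
    zeros f d r ≤ zeros f c R)

/-- S3: lower bound far to the right, and boundedness for `Re s ≥ 3/2`. (`LSeries_iteratedDeriv`;
dominant term `n = 1` or `n = 2`. Boundedness: `norm_zeta_le_of_re` and Cauchy's estimates.) -/
def S3 : Prop :=
  (∀ (k : ℕ) (a : ℂ) (K : ℝ), ∃ E : ℝ, 2 ≤ E ∧ K ≤ E ∧ ∃ c : ℝ, 0 < c ∧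
    ∀ t : ℝ, c ≤ ‖Z k a ((E : ℂ) + t * I)‖) ∧
  (∀ (k : ℕ) (a : ℂ), ∃ C : ℝ, 1 ≤ C ∧ ∀ s : ℂ, 3 / 2 ≤ s.re → ‖Z k a s‖ ≤ C)

/-- S4: the size of `ζ` to the left of the critical line. (`chi_norm_le`, `chi_left`,
`chi s = chi (s+2) * s * (s + 1) / (4 π ^ 2)` up to sign, `chi s * chi (1 - s) = 1`; `ζ * L(μ) = 1`
for the last part.) -/
def S4 : Prop :=
  (∀ K : ℝ, ∃ C T₁ : ℝ, 1 ≤ C ∧ 1 ≤ T₁ ∧ ∀ x t : ℝ, -K ≤ x → x ≤ 1 / 2 → T₁ ≤ t →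
    ‖riemannZeta ((x : ℂ) + t * I)‖ ≤
      C * t ^ (1 / 2 - x) * ‖riemannZeta (((1 - x : ℝ) : ℂ) + t * I)‖ ∧
    t ^ (1 / 2 - x) * ‖riemannZeta (((1 - x : ℝ) : ℂ) + t * I)‖ ≤
      C * ‖riemannZeta ((x : ℂ) + t * I)‖) ∧
  (∀ δ : ℝ, 0 < δ → ∃ c : ℝ, 0 < c ∧ ∀ s : ℂ, 1 + δ ≤ s.re → c ≤ ‖riemannZeta s‖)

/-- S5: (a) crude bound for the derivatives in a half plane; (b) bound to the left of the line
`Re s = 0`; (c), (d) bounds under LH. (Functional equation for zeta, then Cauchy's estimates on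
small circles.) -/
def S5 : Prop :=
  (∀ (k : ℕ) (a : ℂ) (K : ℝ), ∃ A T₀ : ℝ, 0 < A ∧ 1 ≤ T₀ ∧ ∀ s : ℂ, -K ≤ s.re → T₀ ≤ s.im →
    ‖Z k a s‖ ≤ s.im ^ A) ∧
  (∀ (k : ℕ) (a : ℂ) (K δ ε : ℝ), 0 < δ → 0 < ε → ∃ T₀ : ℝ, 1 ≤ T₀ ∧ ∀ s : ℂ, -K ≤ s.re →
    s.re ≤ -δ → T₀ ≤ s.im → ‖Z k a s‖ ≤ s.im ^ (1 / 2 - s.re + ε)) ∧
  (LH → ∀ (k : ℕ) (a : ℂ) (K δ ε : ℝ), 0 < δ → 0 < ε → ∃ T₀ : ℝ, 1 ≤ T₀ ∧ ∀ s : ℂ, -K ≤ s.re →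
    s.re ≤ 1 / 2 - δ → T₀ ≤ s.im → ‖Z k a s‖ ≤ s.im ^ (1 / 2 - s.re + ε)) ∧
  (LH → ∀ (k : ℕ) (a : ℂ) (δ ε : ℝ), 0 < δ → 0 < ε → ∃ T₀ : ℝ, 1 ≤ T₀ ∧ ∀ s : ℂ,
    1 / 2 + δ ≤ s.re → T₀ ≤ s.im → ‖Z k a s‖ ≤ s.im ^ ε)

/-- S6: to the left of the line `Re s = 0` the derivatives are large somewhere in every small disc.
(Otherwise `ζ` is close to a polynomial of degree `≤ k` in a disc, which contradicts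
`|ζ(s)| = T^(1/2 - Re s + o(1))` by `P2`.) -/
def S6 : Prop := ∀ (k : ℕ) (a : ℂ) (x ρ ε : ℝ), x < 0 → 0 < ρ → 0 < ε → ∃ T₀ : ℝ, ∀ T : ℝ,
  T₀ ≤ T → ∃ w ∈ closedBall ((x : ℂ) + T * I) ρ, T ^ (1 / 2 - w.re - ε) ≤ ‖Z k a w‖

/-- S7: Jensen's bound and subadditivity. -/
def S7 : Prop :=
  (∀ (f : ℂ → ℂ) (w : ℂ) (ρ R b : ℝ), 0 < ρ → ρ < R → 0 ≤ b → 1 < w.im - R →
    DifferentiableOn ℂ f Up → (∀ z ∈ closedBall w R, ‖f z‖ ≤ Real.exp b) →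
    Real.exp (-b) ≤ ‖f w‖ → (zeros f w ρ : ℝ) ≤ 2 * b / Real.log (R / ρ)) ∧
  (∀ r h : ℝ, 0 < r → 0 < h → ∃ M : ℕ, ∀ (f : ℂ → ℂ) (c : ℂ) (N : ℝ),
    DifferentiableOn ℂ f Up → (∃ z ∈ Up, f z ≠ 0) → 1 < c.im - r - h →
    (∀ p ∈ closedBall c r, (zeros f p h : ℝ) ≤ N) → (zeros f c r : ℝ) ≤ M * N) ∧
  (∀ (f : ℂ → ℂ) (c b : ℂ) (r l : ℝ), DifferentiableOn ℂ f Up → 1 < c.im - r →
    zeros (fun s => f s * cexp (l * (s - b))) c r = zeros f c r)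

/-- S8: an upper bound for a derivative of zeta on the left implies LH. -/
def S8 : Prop := ∀ k : ℕ, (∀ δ ε : ℝ, 0 < δ → 0 < ε → ∃ T₀ : ℝ, 1 ≤ T₀ ∧ ∀ s : ℂ,
  -(1 / 4) ≤ s.re → s.re ≤ 1 / 2 - δ → T₀ ≤ s.im →
    ‖iteratedDeriv k riemannZeta s‖ ≤ s.im ^ (1 / 2 - s.re + ε)) → LH

/-- S9: an upper bound for a derivative of zeta on the right implies LH. -/
def S9 : Prop := ∀ k : ℕ, (∀ δ ε : ℝ, 0 < δ → 0 < ε → ∃ T₀ : ℝ, 1 ≤ T₀ ∧ ∀ s : ℂ,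
  1 / 2 + δ ≤ s.re → s.re ≤ 2 → T₀ ≤ s.im → ‖iteratedDeriv k riemannZeta s‖ ≤ s.im ^ ε) → LH

/-- The main theorem. -/
def Main : Prop := ∀ (k : ℕ) (a : ℂ), List.TFAE
  [LH,
    ∀ x r : ℝ, 0 < r → x + r < 1 / 2 → ∀ η : ℝ, 0 < η → ∃ T₀ : ℝ, ∀ T : ℝ, T₀ ≤ T →
      (zeros (Z k a) ((x : ℂ) + T * I) r : ℝ) ≤ η * Real.log T,
    ∀ x r : ℝ, 0 < r → 1 / 2 < x - r → ∀ η : ℝ, 0 < η → ∃ T₀ : ℝ, ∀ T : ℝ, T₀ ≤ T →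
      (zeros (Z k a) ((x : ℂ) + T * I) r : ℝ) ≤ η * Real.log T]

end Pool.Agent.SPZ
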