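import Pool.Agent.SPZ.Targets
import Pool.Agent.LHW.J7

/-!
# Bounds for the derivatives of zeta (Cauchy)
-/

set_option autoImplicit false

namespace Pool.Agent.SPZ

open Complex Metric Set Filter Topology
open Pool.Agent.LHW (Up)
open Pool.Agent.Lib.ZetaLine Pool.Agent.Lib.ZetaConv

/-- Cauchy's estimates for zeta on small circles -/
lemma s5_cauchy (k : ℕ) (a : ℂ) (P P' : ℝ → Prop) (e : ℝ → ℝ) {ρ η E C T₁ : ℝ} (hρ : 0 < ρ)
    (hρ1 : ρ ≤ 1) (hη : 0 < η) (hC : 0 ≤ C)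
    (hP : ∀ x y, P x → |y - x| ≤ ρ → P' y) (he : ∀ x y, P x → |y - x| ≤ ρ → e y ≤ e x + η)
    (he0 : ∀ x, P x → 0 ≤ e x) (heE : ∀ x, P x → e x ≤ E)
    (h : ∀ s : ℂ, P' s.re → T₁ ≤ s.im → ‖riemannZeta s‖ ≤ C * s.im ^ e s.re) :
    ∃ T₀ : ℝ, 1 ≤ T₀ ∧ ∀ s : ℂ, P s.re → T₀ ≤ s.im → ‖Z k a s‖ ≤ s.im ^ (e s.re + 2 * η) := by
  set D : ℝ := k.factorial * (C * 2 ^ (E + η)) / ρ ^ k + ‖a‖ with hD
  have hD0 : 0 ≤ D := by positivity
  obtain ⟨T₂, hT₂⟩ : ∃ T₂ : ℝ, ∀ T : ℝ, T₂ ≤ T → D ≤ T ^ η :=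
    eventually_atTop.mp ((tendsto_rpow_atTop hη).eventually (eventually_ge_atTop D))
  have hT₁ := le_abs_self T₁
  have hT₂' := le_abs_self T₂
  have hT₁0 := abs_nonneg T₁
  have hT₂0 := abs_nonneg T₂
  refine ⟨3 + |T₁| + |T₂|, by linarith, ?_⟩
  intro s hs hT
  have hT3 : 3 ≤ s.im := by linarith
  have hT0 : 0 < s.im := by linarith
  have hes := he0 _ hs
  have hsph : ∀ z : ℂ, ‖z - s‖ ≤ ρ → |z.re - s.re| ≤ ρ ∧ |z.im - s.im| ≤ ρ := by
    intro z hz
    constructor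
    · have := abs_re_le_norm (z - s)
      rw [sub_re] at this
      exact this.trans hz
    · have := abs_im_le_norm (z - s)
      rw [sub_im] at this
      exact this.trans hz
  have hdiff : DiffContOnCl ℂ riemannZeta (ball s ρ) := by
    apply DifferentiableOn.diffContOnCl
    rw [closure_ball _ hρ.ne']
    intro z hz
    apply (differentiableAt_riemannZeta _).differentiableWithinAt
    rintro rfl
    rw [mem_closedBall, dist_eq_norm] at hz
    have h1 := (abs_le.1 (hsph 1 hz).2).1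
    rw [one_im] at h1
    linarith
  have hbd : ∀ z ∈ sphere s ρ, ‖riemannZeta z‖ ≤
      C * 2 ^ (E + η) * s.im ^ (e s.re + η) := by
    intro z hz
    rw [mem_sphere_iff_norm] at hz
    obtain ⟨h1, h2⟩ := hsph z hz.le
    have h3 := abs_le.1 h2
    have h4 := h z (hP _ _ hs h1) (by linarith [h3.1])
    have h5 : z.im ^ e z.re ≤ z.im ^ (e s.re + η) :=
      Real.rpow_le_rpow_of_exponent_le (by linarith [h3.1]) (he _ _ hs h1)
    have h6 : z.im ^ (e s.re + η) ≤ (2 * s.im) ^ (e s.re + η) :=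
      Real.rpow_le_rpow (by linarith [h3.1]) (by linarith [h3.2]) (by linarith)
    have h7 : (2 * s.im) ^ (e s.re + η) = 2 ^ (e s.re + η) * s.im ^ (e s.re + η) :=
      Real.mul_rpow (by norm_num) hT0.le
    have h8 : (2 : ℝ) ^ (e s.re + η) ≤ 2 ^ (E + η) :=
      Real.rpow_le_rpow_of_exponent_le (by norm_num) (by linarith [heE _ hs])
    calc ‖riemannZeta z‖ ≤ C * z.im ^ e z.re := h4
      _ ≤ C * (2 * s.im) ^ (e s.re + η) := by
          apply mul_le_mul_of_nonneg_left (h5.trans h6) hC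
      _ = C * 2 ^ (e s.re + η) * s.im ^ (e s.re + η) := by rw [h7]; ring
      _ ≤ C * 2 ^ (E + η) * s.im ^ (e s.re + η) := by gcongr
  have hcau := Complex.norm_iteratedDeriv_le_of_forall_mem_sphere_norm_le k hρ hdiff hbd
  have hone : 1 ≤ s.im ^ (e s.re + η) := Real.one_le_rpow (by linarith) (by linarith)
  have hDT := hT₂ s.im (by linarith)
  have hpos : 0 < s.im ^ (e s.re + η) := by positivity
  have hsum : ‖Z k a s‖ ≤ D * s.im ^ (e s.re + η) := by
    have h1 : ‖Z k a s‖ ≤ ‖iteratedDeriv k riemannZeta s‖ + ‖a‖ := norm_sub_le _ _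
    have h2 : ‖a‖ ≤ ‖a‖ * s.im ^ (e s.re + η) := le_mul_of_one_le_right (norm_nonneg a) hone
    have h3 : (k.factorial : ℝ) * (C * 2 ^ (E + η) * s.im ^ (e s.re + η)) / ρ ^ k =
        (k.factorial * (C * 2 ^ (E + η)) / ρ ^ k) * s.im ^ (e s.re + η) := by ring
    rw [h3] at hcau
    calc ‖Z k a s‖ ≤ ‖iteratedDeriv k riemannZeta s‖ + ‖a‖ := h1
      _ ≤ (k.factorial * (C * 2 ^ (E + η)) / ρ ^ k) * s.im ^ (e s.re + η) +
          ‖a‖ * s.im ^ (e s.re + η) := add_le_add hcau h2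
      _ = D * s.im ^ (e s.re + η) := by rw [hD]; ring
  calc ‖Z k a s‖ ≤ D * s.im ^ (e s.re + η) := hsum
    _ ≤ s.im ^ η * s.im ^ (e s.re + η) := by gcongr
    _ = s.im ^ (e s.re + 2 * η) := by
        rw [← Real.rpow_add hT0]
        congr 1
        ring

/-- the functional equation combined with a bound on the right half -/
lemma s5_left (h4 : S4) (K x₁ y B C' T' : ℝ) (hx₁ : x₁ ≤ 1 / 2) (hy : y ≤ 1 - x₁)
    (hC' : 0 ≤ C') (h : ∀ s : ℂ, y ≤ s.re → T' ≤ s.im → ‖riemannZeta s‖ ≤ C' * s.im ^ B) :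
    ∃ C T₁ : ℝ, 0 ≤ C ∧ 1 ≤ T₁ ∧ ∀ s : ℂ, -K ≤ s.re → s.re ≤ x₁ → T₁ ≤ s.im →
      ‖riemannZeta s‖ ≤ C * s.im ^ (1 / 2 - s.re + B) := by
  obtain ⟨C, T₁, hC, hT₁, hh⟩ := h4.1 K
  have habs := le_abs_self T'
  have habs0 := abs_nonneg T'
  refine ⟨C * C', T₁ + |T'|, by positivity, by linarith, ?_⟩
  intro s hs1 hs2 hT
  have hT0 : 0 < s.im := by linarith
  have h1 := (hh s.re s.im hs1 (hs2.trans hx₁) (by linarith)).1
  have h2 := h (((1 - s.re : ℝ) : ℂ) + s.im * I) (by simp; linarith) (by simp; linarith)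
  have h3 : (((1 - s.re : ℝ) : ℂ) + s.im * I).im = s.im := by simp
  rw [h3] at h2
  rw [re_add_im] at h1
  calc ‖riemannZeta s‖ ≤ C * s.im ^ (1 / 2 - s.re) *
        ‖riemannZeta (((1 - s.re : ℝ) : ℂ) + s.im * I)‖ := h1
    _ ≤ C * s.im ^ (1 / 2 - s.re) * (C' * s.im ^ B) := by gcongr
    _ = C * C' * s.im ^ (1 / 2 - s.re + B) := by
        rw [Real.rpow_add hT0]
        ring

/-- the step from zeta to its derivatives in the left half plane -/
lemma s5_step (c : ℝ) (hc : c ≤ 1 / 2)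
    (h : ∀ K δ ε : ℝ, 0 < δ → 0 < ε → ∃ C T₁ : ℝ, 0 ≤ C ∧ 1 ≤ T₁ ∧ ∀ s : ℂ, -K ≤ s.re →
      s.re ≤ c - δ → T₁ ≤ s.im → ‖riemannZeta s‖ ≤ C * s.im ^ (1 / 2 - s.re + ε))
    (k : ℕ) (a : ℂ) (K δ ε : ℝ) (hδ : 0 < δ) (hε : 0 < ε) :
    ∃ T₀ : ℝ, 1 ≤ T₀ ∧ ∀ s : ℂ, -K ≤ s.re →
      s.re ≤ c - δ → T₀ ≤ s.im → ‖Z k a s‖ ≤ s.im ^ (1 / 2 - s.re + ε) := by
  obtain ⟨C, T₁, hC, hT₁, hh⟩ := h (K + 1) (δ / 2) (ε / 4) (by linarith) (by linarith)
  set ρ : ℝ := min (min (ε / 4) (δ / 2)) 1 with hρ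
  have hρ0 : 0 < ρ := by
    rw [hρ]
    exact lt_min (lt_min (by linarith) (by linarith)) one_pos
  have hρ1 : ρ ≤ 1 := min_le_right _ _
  have hρε : ρ ≤ ε / 4 := (min_le_left _ _).trans (min_le_left _ _)
  have hρδ : ρ ≤ δ / 2 := (min_le_left _ _).trans (min_le_right _ _)
  obtain ⟨T₀, hT₀, hfin⟩ := s5_cauchy k a (fun x => -K ≤ x ∧ x ≤ c - δ)
    (fun x => -(K + 1) ≤ x ∧ x ≤ c - δ / 2) (fun x => 1 / 2 - x + ε / 4) (ρ := ρ)
    (η := ε / 4) (E := 1 / 2 + K + ε / 4) (C := C) (T₁ := T₁) hρ0 hρ1 (by linarith) hC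
    (by
      intro x y hx hxy
      have := abs_le.1 hxy
      exact ⟨by linarith [hx.1, this.1], by linarith [hx.2, this.2]⟩)
    (by
      intro x y hx hxy
      have := abs_le.1 hxy
      show 1 / 2 - y + ε / 4 ≤ 1 / 2 - x + ε / 4 + ε / 4
      linarith [this.1])
    (by
      intro x hx
      show 0 ≤ 1 / 2 - x + ε / 4
      linarith [hx.2])
    (by
      intro x hx
      show 1 / 2 - x + ε / 4 ≤ 1 / 2 + K + ε / 4
      linarith [hx.1])
    (fun s hs hT => hh s hs.1 hs.2 hT)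
  refine ⟨T₀, hT₀, fun s hs1 hs2 hT => ?_⟩
  have h1 := hfin s ⟨hs1, hs2⟩ hT
  have h2 : (1 / 2 - s.re + ε / 4) + 2 * (ε / 4) ≤ 1 / 2 - s.re + ε := by linarith
  exact h1.trans (Real.rpow_le_rpow_of_exponent_le (by linarith) h2)

theorem s5 (h4 : S4) : S5 := by
  have hLH : LH → ∀ ε : ℝ, 0 < ε → BoundOn (1 / 2) ε := by
    intro h ε hε
    obtain ⟨C, hC⟩ := h ε hε
    exact Pool.Agent.LHW.j7_boundOn hε hC
  refine ⟨?_, ?_, ?_, ?_⟩
  · intro k a K
    obtain ⟨C₁, T₁, hC₁, hT₁, h1⟩ := boundOn_crude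
    obtain ⟨C₂, T₂, hC₂, hT₂, h2⟩ := s5_left h4 (K + 1) (1 / 2) (1 / 4) 1 C₁ T₁ le_rfl
      (by norm_num) (by linarith) h1
    set A : ℝ := 5 / 2 + |K| with hA
    have hK := le_abs_self K
    have hK0 := abs_nonneg K
    have hb : ∀ s : ℂ, -(K + 1) ≤ s.re → T₁ + T₂ ≤ s.im →
        ‖riemannZeta s‖ ≤ (C₁ + C₂) * s.im ^ A := by
      intro s hs hT
      have hT1 : 1 ≤ s.im := by linarith
      have hT0 : 0 < s.im := by linarith
      rcases le_total s.re (1 / 2) with hs2 | hs2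
      · have h3 := h2 s hs hs2 (by linarith)
        have h4 : s.im ^ (1 / 2 - s.re + 1) ≤ s.im ^ A :=
          Real.rpow_le_rpow_of_exponent_le hT1 (by rw [hA]; linarith)
        calc ‖riemannZeta s‖ ≤ C₂ * s.im ^ (1 / 2 - s.re + 1) := h3
          _ ≤ C₂ * s.im ^ A := by gcongr
          _ ≤ (C₁ + C₂) * s.im ^ A := by
              have : 0 ≤ s.im ^ A := by positivity
              nlinarith
      · have h3 := h1 s (by linarith) (by linarith)
        have h4 : s.im ^ (1 : ℝ) ≤ s.im ^ A :=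
          Real.rpow_le_rpow_of_exponent_le hT1 (by rw [hA]; linarith)
        calc ‖riemannZeta s‖ ≤ C₁ * s.im ^ (1 : ℝ) := h3
          _ ≤ C₁ * s.im ^ A := by gcongr
          _ ≤ (C₁ + C₂) * s.im ^ A := by
              have : 0 ≤ C₂ * s.im ^ A := by positivity
              rw [add_mul]
              linarith
    obtain ⟨T₀, hT₀, hfin⟩ := s5_cauchy k a (fun x => -K ≤ x) (fun x => -(K + 1) ≤ x)
      (fun _ => A) (ρ := 1) (η := 1) (E := A) (C := C₁ + C₂) (T₁ := T₁ + T₂) one_pos le_rfl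
      one_pos (by linarith)
      (by
        intro x y hx hxy
        have := abs_le.1 hxy
        have hx' : -K ≤ x := hx
        show -(K + 1) ≤ y
        linarith [this.1])
      (by
        intro x y hx hxy
        show A ≤ A + 1
        linarith)
      (by
        intro x hx
        show 0 ≤ A
        rw [hA]
        linarith)
      (by
        intro x hx
        exact le_rfl)
      (fun s hs hT => hb s hs hT)
    exact ⟨A + 2 * 1, T₀, by rw [hA]; linarith, hT₀, fun s hs hT => hfin s hs hT⟩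
  · intro k a K δ ε hδ hε
    have hstep := s5_step 0 (by norm_num) (by
      intro K δ ε hδ hε
      obtain ⟨Cr, hCr, hr⟩ := norm_zeta_le_of_re hδ
      obtain ⟨C, T₁, hC, hT₁, h⟩ := s5_left h4 K (0 - δ) (1 + δ) 0 Cr 0 (by linarith)
        (by linarith) (by linarith) (fun s hs _ => by
          rw [Real.rpow_zero, mul_one]
          exact hr s hs)
      refine ⟨C, T₁, hC, hT₁, fun s hs1 hs2 hT => (h s hs1 hs2 hT).trans ?_⟩
      have h2 : s.im ^ (1 / 2 - s.re + 0) ≤ s.im ^ (1 / 2 - s.re + ε) :=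
        Real.rpow_le_rpow_of_exponent_le (by linarith) (by linarith)
      gcongr) k a K δ ε hδ hε
    rw [zero_sub] at hstep
    exact hstep
  · intro hL k a K δ ε hδ hε
    exact s5_step (1 / 2) le_rfl (by
      intro K δ ε hδ hε
      obtain ⟨Cr, Tr, hCr, hTr, hr⟩ := hLH hL ε hε
      exact s5_left h4 K (1 / 2 - δ) (1 / 2) ε Cr Tr (by linarith) (by linarith)
        (by linarith) hr) k a K δ ε hδ hε
  · intro hL k a δ ε hδ hε
    obtain ⟨Cr, Tr, hCr, hTr, hr⟩ := hLH hL (ε / 2) (by linarith)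
    set ρ : ℝ := min δ 1 with hρ
    have hρ0 : 0 < ρ := lt_min hδ one_pos
    obtain ⟨T₀, hT₀, hfin⟩ := s5_cauchy k a (fun x => 1 / 2 + δ ≤ x) (fun x => 1 / 2 ≤ x)
      (fun _ => ε / 2) (ρ := ρ) (η := ε / 4) (E := ε / 2) (C := Cr) (T₁ := Tr) hρ0
      (min_le_right _ _) (by linarith) (by linarith)
      (by
        intro x y hx hxy
        have := abs_le.1 hxy
        have hx' : 1 / 2 + δ ≤ x := hx
        have h3 : ρ ≤ δ := min_le_left _ _
        show 1 / 2 ≤ y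
        linarith [this.1])
      (by
        intro x y hx hxy
        show ε / 2 ≤ ε / 2 + ε / 4
        linarith)
      (by
        intro x hx
        show 0 ≤ ε / 2
        linarith)
      (by
        intro x hx
        exact le_rfl)
      (fun s hs hT => hr s hs hT)
    refine ⟨T₀, hT₀, fun s hs hT => ?_⟩
    have h1 := hfin s hs hT
    have h2 : ε / 2 + 2 * (ε / 4) = ε := by ring
    have h3 : ‖Z k a s‖ ≤ s.im ^ (ε / 2 + 2 * (ε / 4)) := h1
    rwa [h2] at h3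

end Pool.Agent.SPZ
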