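import Pool.Agent.SPZ.Targets
import Pool.Agent.SPZ.S5

/-!
# The general exponent: an upper bound for a derivative of zeta on the left

`LA A`: `ζ(s) = O((Im s)^ε)` for `Re s ≥ 1/2 + A + δ`, for all `δ, ε > 0`.
-/

set_option autoImplicit false

namespace Pool.Agent.SPZ

open Complex Metric Set Filter Topology
open Pool.Agent.LHW (Up CountLe isOpen_Up ball_Up)
open Pool.Agent.Lib.ZetaLine Pool.Agent.Lib.ZetaConv

/-- `ζ(s) = O((Im s)^ε)` for `Re s ≥ 1/2 + A + δ`, for all `δ, ε > 0`. -/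
def LA (A : ℝ) : Prop := ∀ δ ε : ℝ, 0 < δ → 0 < ε → BoundOn (1 / 2 + A + δ) ε

/-- Phragmén–Lindelöf between the line `Re s = a` and the line `Re s = 2` -/
lemma pl {a B K : ℝ} (ha : a < 2) (hB : 0 ≤ B) (hK : 0 ≤ K)
    (hcr : ∃ C T : ℝ, 0 ≤ C ∧ 1 ≤ T ∧ ∀ s : ℂ, a ≤ s.re → T ≤ s.im →
      ‖riemannZeta s‖ ≤ C * s.im ^ K)
    (hl : ∃ C T : ℝ, 0 ≤ C ∧ 1 ≤ T ∧ ∀ t : ℝ, T ≤ t →
      ‖riemannZeta ((a : ℂ) + t * I)‖ ≤ C * t ^ B) :
    ∃ C T : ℝ, 0 ≤ C ∧ 1 ≤ T ∧ ∀ t : ℝ, T ≤ t → ∀ x : ℝ, a ≤ x → x ≤ 2 →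
      ‖riemannZeta ((x : ℂ) + t * I)‖ ≤ C * t ^ (B * (2 - x) / (2 - a)) := by
  obtain ⟨C₀, T₀, hC₀, hT₀, h⟩ := hl
  obtain ⟨Cc, Tc, hCc, hTc, hc⟩ := hcr
  obtain ⟨Cr, hCr, hr⟩ := Pool.Agent.Lib.ZetaCrude.norm_zeta_le_of_two_le
  set w : ℝ := 2 - a with hw
  have hw0 : 0 < w := by rw [hw]; linarith
  set κ : ℝ := B / w with hκ
  have hκ0 : 0 ≤ κ := by positivity
  have hκw : κ * w = B := by rw [hκ]; field_simp
  -- the exponential decay on the horizontal sides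
  obtain ⟨T₂, hT₂⟩ : ∃ T₂ : ℝ, ∀ T : ℝ, T₂ ≤ T → 2 ^ K * T ^ K * Real.exp (-T) ≤ 1 := by
    have h1 := tendsto_rpow_mul_exp_neg_mul_atTop_nhds_zero K 1 one_pos
    have h2 : ∀ᶠ T : ℝ in atTop, T ^ K * Real.exp (-1 * T) < 1 / 2 ^ K :=
      h1.eventually (gt_mem_nhds (by positivity))
    obtain ⟨T₂, hT₂⟩ := eventually_atTop.mp h2
    refine ⟨T₂, fun T hT => ?_⟩
    have := hT₂ T hT
    rw [neg_one_mul, lt_div_iff₀ (by positivity)] at this
    linarith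
  refine ⟨(2 ^ B * C₀ + Cr + Cc) * Real.exp (w ^ 2), 4 + 2 * T₀ + 2 * Tc + T₂ + |T₂|, ?_, ?_, ?_⟩
  · positivity
  · have := neg_abs_le T₂
    linarith
  intro T hT x hx0 hx1
  have hTabs := neg_abs_le T₂
  have habs2 := abs_nonneg T₂
  have hT4 : 4 ≤ T := by linarith
  have hTT₀ : T₀ ≤ T / 2 := by linarith
  have hTTc : Tc ≤ T / 2 := by linarith
  have hTT₂ : T₂ ≤ T := by
    have : T₂ ≤ |T₂| := le_abs_self _
    linarith
  have hT0 : 0 < T := by linarith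
  set L := Real.log T with hL
  have hL0 : 0 ≤ L := Real.log_nonneg (by linarith)
  set Y := Real.sqrt T with hY
  have hY0 : 0 < Y := Real.sqrt_pos.mpr hT0
  have hYsq : Y ^ 2 = T := Real.sq_sqrt hT0.le
  have hYT : Y ≤ T / 2 := by nlinarith
  have hexpL : ∀ e : ℝ, Real.exp (L * e) = T ^ e := fun e => by
    rw [hL, Real.rpow_def_of_pos hT0]
  have hTB1 : 1 ≤ T ^ B := Real.one_le_rpow (by linarith) hB
  have hTB0 : 0 < T ^ B := by positivity
  have key := gauss_max (a := a) (b := 2) (κ := κ) (T := T) (Y := Y) (L := L)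
    (M := (2 ^ B * C₀ + Cr + Cc) * T ^ B) (by linarith) hY0 (by linarith) (by
      intro s hs1 hs2 hs3 hside
      rw [abs_le] at hs3
      have him1 : T / 2 ≤ s.im := by linarith [hs3.1]
      have him2 : s.im ≤ 2 * T := by linarith [hs3.2]
      have him0 : 0 < s.im := by linarith
      have hexp1 : Real.exp (κ * L * (s.re - a)) ≤ T ^ B := by
        rw [← hexpL, Real.exp_le_exp]
        have : κ * (s.re - a) ≤ κ * w := mul_le_mul_of_nonneg_left (by rw [hw]; linarith) hκ0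
        calc κ * L * (s.re - a) = L * (κ * (s.re - a)) := by ring
          _ ≤ L * (κ * w) := mul_le_mul_of_nonneg_left this hL0
          _ = L * B := by rw [hκw]
      have hexp2 : Real.exp (-(s.im - T) ^ 2) ≤ 1 := by
        rw [Real.exp_le_one_iff]; nlinarith [sq_nonneg (s.im - T)]
      have hz0 := norm_nonneg (riemannZeta s)
      have hC2 : (0 : ℝ) ≤ 2 ^ B * C₀ := by positivity
      rcases hside with hc1 | hc2 | hc3
      · -- left side
        have e1 : s = (a : ℂ) + s.im * I := by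
          apply Complex.ext <;> simp [hc1]
        have e2 : ‖riemannZeta s‖ ≤ C₀ * s.im ^ B := by
          rw [e1]
          have := h s.im (by linarith)
          simpa using this
        have e3 : s.im ^ B ≤ 2 ^ B * T ^ B := by
          rw [← Real.mul_rpow (by norm_num) hT0.le]
          exact Real.rpow_le_rpow (by linarith) him2 hB
        have e4 : Real.exp (κ * L * (s.re - a)) = 1 := by rw [hc1]; simp
        rw [e4, mul_one]
        calc ‖riemannZeta s‖ * Real.exp (-(s.im - T) ^ 2) ≤ ‖riemannZeta s‖ * 1 := by gcongr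
          _ = ‖riemannZeta s‖ := mul_one _
          _ ≤ C₀ * s.im ^ B := e2
          _ ≤ C₀ * (2 ^ B * T ^ B) := by gcongr
          _ = (2 ^ B * C₀) * T ^ B := by ring
          _ ≤ (2 ^ B * C₀ + Cr + Cc) * T ^ B := by gcongr; linarith
      · have e2 : ‖riemannZeta s‖ ≤ Cr := hr s hc2.ge
        calc ‖riemannZeta s‖ * Real.exp (κ * L * (s.re - a)) * Real.exp (-(s.im - T) ^ 2)
            ≤ Cr * T ^ B * 1 := by gcongr
          _ ≤ (2 ^ B * C₀ + Cr + Cc) * T ^ B := by rw [mul_one]; gcongr; linarith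
      · have e2 : ‖riemannZeta s‖ ≤ Cc * s.im ^ K := hc s (by linarith) (by linarith)
        have e3 : -(s.im - T) ^ 2 = -T := by
          rw [← sq_abs, hc3, hYsq]
        have e5 : s.im ^ K ≤ 2 ^ K * T ^ K := by
          rw [← Real.mul_rpow (by norm_num) hT0.le]
          exact Real.rpow_le_rpow (by linarith) him2 hK
        rw [e3]
        have e4 := hT₂ T hTT₂
        calc ‖riemannZeta s‖ * Real.exp (κ * L * (s.re - a)) * Real.exp (-T)
            ≤ (Cc * (2 ^ K * T ^ K)) * T ^ B * Real.exp (-T) := by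
              gcongr
              exact e2.trans (by gcongr)
          _ = Cc * T ^ B * (2 ^ K * T ^ K * Real.exp (-T)) := by ring
          _ ≤ Cc * T ^ B * 1 := by gcongr
          _ ≤ (2 ^ B * C₀ + Cr + Cc) * T ^ B := by rw [mul_one]; gcongr; linarith)
    (σ := x) (by linarith) (by linarith)
  have e5 : κ * L * (x - a) = L * (κ * (x - a)) := by ring
  rw [e5, ← hw, hexpL] at key
  have hpow : T ^ B = T ^ (B * (2 - x) / w) * T ^ (κ * (x - a)) := by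
    rw [← Real.rpow_add hT0]
    congr 1
    rw [hκ]
    field_simp
    rw [hw]
    ring
  have hκx0 : 0 < T ^ (κ * (x - a)) := by positivity
  refine le_of_mul_le_mul_right ?_ hκx0
  refine key.trans (le_of_eq ?_)
  rw [hpow]; ring

/-- from a bound on a line to the half plane to the right of it -/
lemma pl_boundOn {a B K : ℝ} (ha : a < 2) (hB : 0 ≤ B) (hK : 0 ≤ K)
    (hcr : ∃ C T : ℝ, 0 ≤ C ∧ 1 ≤ T ∧ ∀ s : ℂ, a ≤ s.re → T ≤ s.im →
      ‖riemannZeta s‖ ≤ C * s.im ^ K)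
    (hl : ∃ C T : ℝ, 0 ≤ C ∧ 1 ≤ T ∧ ∀ t : ℝ, T ≤ t →
      ‖riemannZeta ((a : ℂ) + t * I)‖ ≤ C * t ^ B) {a' : ℝ} (ha' : a ≤ a') (ha2 : a' ≤ 2) :
    BoundOn a' (B * (2 - a') / (2 - a)) := by
  obtain ⟨C, T, hC, hT, h⟩ := pl ha hB hK hcr hl
  obtain ⟨Cr, hCr, hr⟩ := Pool.Agent.Lib.ZetaCrude.norm_zeta_le_of_two_le
  have hw : 0 < 2 - a := by linarith
  have he : 0 ≤ B * (2 - a') / (2 - a) := by
    have : 0 ≤ 2 - a' := by linarith
    positivity
  refine ⟨C + Cr, T, by linarith, hT, fun s hs ht => ?_⟩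
  have h1 : 1 ≤ s.im := hT.trans ht
  have hp : 1 ≤ s.im ^ (B * (2 - a') / (2 - a)) := Real.one_le_rpow h1 he
  rcases le_total s.re 2 with h2 | h2
  · have h3 := h s.im ht s.re (ha'.trans hs) h2
    rw [Complex.re_add_im] at h3
    have h4 : s.im ^ (B * (2 - s.re) / (2 - a)) ≤ s.im ^ (B * (2 - a') / (2 - a)) := by
      apply Real.rpow_le_rpow_of_exponent_le h1
      gcongr
    calc ‖riemannZeta s‖ ≤ C * s.im ^ (B * (2 - s.re) / (2 - a)) := h3
      _ ≤ C * s.im ^ (B * (2 - a') / (2 - a)) := by gcongr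
      _ ≤ (C + Cr) * s.im ^ (B * (2 - a') / (2 - a)) := by gcongr; linarith
  · have h3 := hr s h2
    have h4 : 0 ≤ C * s.im ^ (B * (2 - a') / (2 - a)) := by positivity
    nlinarith

/-- the crude bound for zeta in a half plane -/
lemma crude_half (h5 : S5) (K : ℝ) : ∃ E C T : ℝ, 0 ≤ E ∧ 0 ≤ C ∧ 1 ≤ T ∧ ∀ s : ℂ, -K ≤ s.re →
    T ≤ s.im → ‖riemannZeta s‖ ≤ C * s.im ^ E := by
  obtain ⟨A, T₀, hA, hT₀, h⟩ := h5.1 0 0 K
  refine ⟨A, 1, T₀, hA.le, zero_le_one, hT₀, fun s hs ht => ?_⟩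
  have := h s hs ht
  unfold Z at this
  rw [iteratedDeriv_zero, sub_zero] at this
  rwa [one_mul]

/-- zeta is close to a polynomial to the left of the line `Re s = c` -/
lemma a8_approx (h1 : P1) {k : ℕ} {c ε : ℝ} (hc : c ≤ 1 / 2) (hε : 0 < ε)
    (h : ∃ T₀ : ℝ, 1 ≤ T₀ ∧ ∀ s : ℂ, -(1 / 4) ≤ s.re → s.re ≤ c → T₀ ≤ s.im →
      ‖iteratedDeriv k riemannZeta s‖ ≤ s.im ^ (1 / 2 - s.re + ε)) :
    ∃ T₁ : ℝ, 4 ≤ T₁ ∧ ∀ T : ℝ, T₁ ≤ T → ∃ P : Polynomial ℂ, P.natDegree ≤ k ∧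
      ∀ z : ℂ, -(1 / 4) ≤ z.re → z.re ≤ c → |z.im - T| ≤ 1 →
        ‖z - ((c : ℂ) + T * I)‖ ≤ 1 →
        ‖riemannZeta z - P.eval z‖ ≤ (2 * T) ^ (1 / 2 - z.re + ε) := by
  obtain ⟨T₀, hT₀, hb⟩ := h
  refine ⟨T₀ + 4, by linarith, fun T hT => ?_⟩
  have hUc : Convex ℝ Up := by
    have := (convex_Ioi (1 : ℝ)).linear_preimage Complex.imLm
    exact this
  set z₀ : ℂ := (c : ℂ) + T * I with hz₀
  have hz₀re : z₀.re = c := by simp [hz₀]
  have hz₀im : z₀.im = T := by simp [hz₀]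
  obtain ⟨P, hP, hPb⟩ := h1 k riemannZeta Up z₀ isOpen_Up hUc Pool.Agent.LHW.diff_Up (by
    change 1 < z₀.im
    rw [hz₀im]; linarith)
  refine ⟨P, hP, fun z hz1 hz2 hz3 hz4 => ?_⟩
  rw [abs_le] at hz3
  have key := hPb z (by change 1 < z.im; linarith [hz3.1]) ((2 * T) ^ (1 / 2 - z.re + ε)) (by
    rintro w ⟨a, b, ha, hb', hab, rfl⟩
    have hre : (a • z₀ + b • z).re = a * c + b * z.re := by
      simp [hz₀re]
    have him : (a • z₀ + b • z).im = a * T + b * z.im := by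
      simp [hz₀im]
    have hre1 : z.re ≤ (a • z₀ + b • z).re := by
      rw [hre]
      have : z.re = a * z.re + b * z.re := by rw [← add_mul, hab, one_mul]
      have h5 : a * z.re ≤ a * c := mul_le_mul_of_nonneg_left hz2 ha
      linarith
    have hre2 : (a • z₀ + b • z).re ≤ c := by
      rw [hre]
      have : c = a * c + b * c := by rw [← add_mul, hab, one_mul]
      have h5 : b * z.re ≤ b * c := mul_le_mul_of_nonneg_left hz2 hb'
      linarith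
    have him1 : T - 1 ≤ (a • z₀ + b • z).im := by
      rw [him]
      have : T - 1 = a * (T - 1) + b * (T - 1) := by rw [← add_mul, hab, one_mul]
      have h5 : b * (T - 1) ≤ b * z.im := mul_le_mul_of_nonneg_left (by linarith [hz3.1]) hb'
      have h6 : a * (T - 1) ≤ a * T := mul_le_mul_of_nonneg_left (by linarith) ha
      linarith
    have him2 : (a • z₀ + b • z).im ≤ T + 1 := by
      rw [him]
      have : T + 1 = a * (T + 1) + b * (T + 1) := by rw [← add_mul, hab, one_mul]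
      have h5 : b * z.im ≤ b * (T + 1) := mul_le_mul_of_nonneg_left (by linarith [hz3.2]) hb'
      have h6 : a * T ≤ a * (T + 1) := mul_le_mul_of_nonneg_left (by linarith) ha
      linarith
    set w := a • z₀ + b • z with hw
    refine (hb w (by linarith) hre2 (by linarith)).trans ?_
    calc w.im ^ (1 / 2 - w.re + ε) ≤ (2 * T) ^ (1 / 2 - w.re + ε) :=
          Real.rpow_le_rpow (by linarith) (by linarith) (by linarith)
      _ ≤ (2 * T) ^ (1 / 2 - z.re + ε) :=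
          Real.rpow_le_rpow_of_exponent_le (by linarith) (by linarith))
  refine key.trans ?_
  have h5 : ‖z - z₀‖ ^ k ≤ 1 := pow_le_one₀ (norm_nonneg _) hz4
  have h6 : 0 ≤ (2 * T) ^ (1 / 2 - z.re + ε) := Real.rpow_nonneg (by linarith) _
  calc (2 * T) ^ (1 / 2 - z.re + ε) * ‖z - z₀‖ ^ k ≤ (2 * T) ^ (1 / 2 - z.re + ε) * 1 :=
        mul_le_mul_of_nonneg_left h5 h6
    _ = _ := mul_one _

/-- a bound near the line `Re s = c` holds far to the left of it -/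
lemma a8_left (h1 : P1) (h2 : P2) {k : ℕ} {c d B y τ : ℝ} (hc : c ≤ 1 / 2) (hd : 0 < d)
    (hc0 : -(1 / 4) ≤ c - d) (hB : 1 / 2 - c + d ≤ B)
    (h : ∀ ε : ℝ, 0 < ε → ∃ T₀ : ℝ, 1 ≤ T₀ ∧ ∀ s : ℂ, -(1 / 4) ≤ s.re → s.re ≤ c → T₀ ≤ s.im →
      ‖iteratedDeriv k riemannZeta s‖ ≤ s.im ^ (1 / 2 - s.re + ε))
    (hbd : BoundOn (c - d) B) (hy0 : 1 / 2 - c + d ≤ y) (hy1 : y ≤ 3 / 4) (hyB : y ≤ B)
    (hτ : 0 < τ) :
    ∃ C T₁ : ℝ, 0 ≤ C ∧ 1 ≤ T₁ ∧ ∀ t : ℝ, T₁ ≤ t →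
      ‖riemannZeta (((1 / 2 - y : ℝ) : ℂ) + t * I)‖ ≤ C * t ^ (B + τ) := by
  have hB0 : 0 ≤ B := by linarith
  obtain ⟨C₁, T₁, hC₁, hT₁, hz⟩ := hbd
  obtain ⟨ε, hε⟩ : ∃ ε : ℝ, ε = min τ (d / 4) := ⟨_, rfl⟩
  have hε0 : 0 < ε := by rw [hε]; positivity
  have hετ : ε ≤ τ := by rw [hε]; exact min_le_left _ _
  have hεd : ε ≤ d / 4 := by rw [hε]; exact min_le_right _ _
  obtain ⟨T₂, hT₂, happ⟩ := a8_approx h1 hc hε0 (h ε hε0)
  obtain ⟨m, hm⟩ : ∃ m : ℝ, m = y - (1 / 2 - c) - d / 2 := ⟨_, rfl⟩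
  have hm0 : d / 2 ≤ m := by rw [hm]; linarith
  obtain ⟨D, hD⟩ : ∃ D : ℝ, D = (m / (d / 4)) ^ k := ⟨_, rfl⟩
  have hD0 : 0 ≤ D := by
    rw [hD]
    apply pow_nonneg
    apply div_nonneg <;> linarith
  have hk0 : (0 : ℝ) ≤ k := Nat.cast_nonneg k
  refine ⟨((k + 1) * (C₁ + 1) * D + 1) * 2 ^ (B + τ), T₁ + T₂ + 21, by positivity, by linarith, ?_⟩
  intro T hT
  have hT0 : 0 < T := by linarith
  obtain ⟨P, hPdeg, hP⟩ := happ T (by linarith)
  obtain ⟨E, hE⟩ : ∃ E : ℝ, E = (2 * T) ^ (B + τ) := ⟨_, rfl⟩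
  have hE0 : 0 < E := by rw [hE]; positivity
  obtain ⟨z₁, hz₁⟩ : ∃ z₁ : ℂ, z₁ = ((c - d / 2 : ℝ) : ℂ) + T * I := ⟨_, rfl⟩
  have hz₁re : z₁.re = c - d / 2 := by simp [hz₁]
  have hz₁im : z₁.im = T := by simp [hz₁]
  have hball : ∀ w ∈ closedBall z₁ (d / 4), ‖P.eval w‖ ≤ (C₁ + 1) * E := by
    intro w hw
    rw [mem_closedBall, dist_eq_norm] at hw
    have hre := (abs_re_le_norm _).trans hw
    have him := (abs_im_le_norm _).trans hw
    rw [sub_re, hz₁re, abs_le] at hre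
    rw [sub_im, hz₁im] at him
    have him' := him
    rw [abs_le] at him
    have hnear : ‖w - ((c : ℂ) + T * I)‖ ≤ 1 := by
      have e1 : w - ((c : ℂ) + T * I) = (w - z₁) + ((-(d / 2) : ℝ) : ℂ) := by
        rw [hz₁]; push_cast; ring
      rw [e1]
      refine (norm_add_le _ _).trans ?_
      rw [Complex.norm_real, Real.norm_eq_abs, abs_neg, abs_of_pos (by linarith)]
      linarith
    have hapx := hP w (by linarith [hre.1]) (by linarith [hre.2]) (by linarith) hnear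
    have him0 : 0 < w.im := by linarith [him.1]
    have hz2 : ‖riemannZeta w‖ ≤ C₁ * E := by
      calc ‖riemannZeta w‖ ≤ C₁ * w.im ^ B := hz w (by linarith [hre.1]) (by linarith [him.1])
        _ ≤ C₁ * w.im ^ (B + τ) := by
            apply mul_le_mul_of_nonneg_left _ (by linarith)
            exact Real.rpow_le_rpow_of_exponent_le (by linarith [him.1]) (by linarith)
        _ ≤ C₁ * E := by
            rw [hE]
            apply mul_le_mul_of_nonneg_left _ (by linarith)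
            apply Real.rpow_le_rpow (by linarith) (by linarith [him.2]) (by linarith)
    have hz3 : (2 * T) ^ (1 / 2 - w.re + ε) ≤ E := by
      rw [hE]
      apply Real.rpow_le_rpow_of_exponent_le (by linarith)
      linarith [hre.1]
    have e2 : P.eval w = riemannZeta w - (riemannZeta w - P.eval w) := by ring
    rw [e2]
    refine (norm_sub_le _ _).trans ?_
    linarith
  obtain ⟨z, hzd⟩ : ∃ z : ℂ, z = ((1 / 2 - y : ℝ) : ℂ) + T * I := ⟨_, rfl⟩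
  have hzre : z.re = 1 / 2 - y := by simp [hzd]
  have hzim : z.im = T := by simp [hzd]
  have hzz₁ : ‖z - z₁‖ = m := by
    have e1 : z - z₁ = ((-m : ℝ) : ℂ) := by
      rw [hzd, hz₁, hm]; push_cast; ring
    rw [e1, Complex.norm_real, Real.norm_eq_abs, abs_neg, abs_of_nonneg (by linarith)]
  have hzz₀ : ‖z - ((c : ℂ) + T * I)‖ = m + d / 2 := by
    have e1 : z - ((c : ℂ) + T * I) = ((-(m + d / 2) : ℝ) : ℂ) := by
      rw [hzd, hm]; push_cast; ring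
    rw [e1, Complex.norm_real, Real.norm_eq_abs, abs_neg, abs_of_nonneg (by linarith)]
  have hPz := h2 P k z₁ z (d / 4) ((C₁ + 1) * E) hPdeg (by positivity) hball
    (by rw [hzz₁]; linarith)
  rw [hzz₁, ← hD] at hPz
  have hapx := hP z (by rw [hzre]; linarith) (by rw [hzre]; linarith) (by rw [hzim]; simp)
    (by rw [hzz₀, hm]; linarith)
  have hz3 : (2 * T) ^ (1 / 2 - z.re + ε) ≤ E := by
    rw [hE]
    apply Real.rpow_le_rpow_of_exponent_le (by linarith)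
    rw [hzre]
    linarith
  rw [← hzd]
  have e2 : riemannZeta z = P.eval z + (riemannZeta z - P.eval z) := by ring
  calc ‖riemannZeta z‖ = ‖P.eval z + (riemannZeta z - P.eval z)‖ := by rw [← e2]
    _ ≤ ‖P.eval z‖ + ‖riemannZeta z - P.eval z‖ := norm_add_le _ _
    _ ≤ (k + 1) * ((C₁ + 1) * E) * D + E := by linarith
    _ = ((k + 1) * (C₁ + 1) * D + 1) * E := by ring
    _ = ((k + 1) * (C₁ + 1) * D + 1) * 2 ^ (B + τ) * T ^ (B + τ) := by
        rw [hE, Real.mul_rpow (by norm_num) hT0.le]; ring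

/-- the hypothesis to the left of `Re s = 1/2 - A` -/
def HypA (k : ℕ) (A : ℝ) : Prop := ∀ δ ε : ℝ, 0 < δ → 0 < ε → ∃ T₀ : ℝ, 1 ≤ T₀ ∧ ∀ s : ℂ,
  -(1 / 4) ≤ s.re → s.re ≤ 1 / 2 - A - δ → T₀ ≤ s.im →
    ‖iteratedDeriv k riemannZeta s‖ ≤ s.im ^ (1 / 2 - s.re + ε)

/-- the exponent on the line `Re s = 1/2 - A₁`, `A₁ > A`, is `A₁` -/
lemma a8_exponent (h1 : P1) (h2 : P2) (h5 : S5) {k : ℕ} {A δ : ℝ} (hA : 0 ≤ A) (hδ : 0 < δ)
    (hAδ : A + δ ≤ 5 / 8) (h : HypA k A) {ε : ℝ} (hε : 0 < ε) :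
    BoundOn (1 / 2 - (A + δ)) (A + δ + ε) := by
  obtain ⟨A₁, hA₁⟩ : ∃ A₁ : ℝ, A₁ = A + δ := ⟨_, rfl⟩
  obtain ⟨K, Cc, Tc, hK, hCc, hTc, hcr⟩ := crude_half h5 1
  obtain ⟨S, hS⟩ : ∃ S : Set ℝ, S = {B | A₁ ≤ B ∧ ∀ ε : ℝ, 0 < ε → BoundOn (1 / 2 - A₁) (B + ε)} :=
    ⟨_, rfl⟩
  have hbelow : BddBelow S := ⟨A₁, fun B hB => by rw [hS] at hB; exact hB.1⟩
  have hne : S.Nonempty := by
    refine ⟨max A₁ K, ?_⟩
    rw [hS]
    refine ⟨le_max_left _ _, fun ε hε => ?_⟩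
    have hb : BoundOn (1 / 2 - A₁) K := by
      refine ⟨Cc + 1, Tc, by linarith, hTc, fun s hs ht => ?_⟩
      have h3 := hcr s (by rw [hA₁] at hs; linarith) ht
      have h4 : 0 < s.im := by linarith
      have h5 : 0 ≤ s.im ^ K := by positivity
      linarith
    exact hb.mono le_rfl (by linarith [le_max_right A₁ K])
  obtain ⟨b, hb⟩ : ∃ b : ℝ, b = sInf S := ⟨_, rfl⟩
  have hbA : A₁ ≤ b := by
    rw [hb]
    exact le_csInf hne (fun B hB => by rw [hS] at hB; exact hB.1)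
  have hbS : ∀ ε : ℝ, 0 < ε → BoundOn (1 / 2 - A₁) (b + ε) := by
    intro ε hε
    obtain ⟨B, hBS, hBb⟩ := exists_lt_of_csInf_lt hne
      (show sInf S < b + ε / 2 by rw [← hb]; linarith)
    rw [hS] at hBS
    exact (hBS.2 (ε / 2) (by linarith)).mono le_rfl (by linarith)
  have hbeq : b = A₁ := by
    by_contra hcon
    have hlt : A₁ < b := lt_of_le_of_ne hbA (Ne.symm hcon)
    obtain ⟨y, hy⟩ : ∃ y : ℝ, y = min ((A₁ + b) / 2) (3 / 4) := ⟨_, rfl⟩
    have hyA : A₁ < y := by rw [hy]; exact lt_min (by linarith) (by linarith)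
    have hy1 : y ≤ 3 / 4 := by rw [hy]; exact min_le_right _ _
    have hyb : y ≤ b := by
      have : y ≤ (A₁ + b) / 2 := by rw [hy]; exact min_le_left _ _
      linarith
    obtain ⟨q, hq⟩ : ∃ q : ℝ, q = (2 - (1 / 2 - A₁)) / (2 - (1 / 2 - y)) := ⟨_, rfl⟩
    have hden : 0 < 2 - (1 / 2 - y) := by linarith
    have hq0 : 0 < q := by rw [hq]; apply div_pos <;> linarith
    have hq1 : q < 1 := by rw [hq, div_lt_one hden]; linarith
    have himp : ∀ τ : ℝ, 0 < τ → BoundOn (1 / 2 - A₁) (q * (b + 2 * τ)) := by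
      intro τ hτ
      have hbd : BoundOn (1 / 2 - A₁) (b + τ) := hbS τ hτ
      obtain ⟨C, T₁, hC, hT₁, hl⟩ := a8_left h1 h2 (c := 1 / 2 - A - δ / 2) (d := δ / 2)
        (B := b + τ) (y := y) (τ := τ) (k := k) (by linarith) (by linarith)
        (by linarith) (by linarith) (fun ε hε => h (δ / 2) ε (by linarith) hε)
        (by
          have e : 1 / 2 - A - δ / 2 - δ / 2 = 1 / 2 - A₁ := by rw [hA₁]; ring
          rw [e]; exact hbd) (by linarith) hy1 (by linarith) hτ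
      have h3 := pl_boundOn (a := 1 / 2 - y) (B := b + τ + τ) (K := K) (by linarith)
        (by linarith) hK ⟨Cc, Tc, hCc, hTc, fun s hs ht => hcr s (by linarith) ht⟩
        ⟨C, T₁, hC, hT₁, hl⟩ (a' := 1 / 2 - A₁) (by linarith) (by linarith)
      have e : (b + τ + τ) * (2 - (1 / 2 - A₁)) / (2 - (1 / 2 - y)) = q * (b + 2 * τ) := by
        rw [hq]; field_simp; ring
      rwa [e] at h3
    have hmem : max A₁ (q * b) ∈ S := by
      rw [hS]
      refine ⟨le_max_left _ _, fun ε hε => ?_⟩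
      refine (himp (ε / 2) (by linarith)).mono le_rfl ?_
      have h3 := le_max_right A₁ (q * b)
      have h4 : q * ε ≤ ε := by nlinarith
      calc q * (b + 2 * (ε / 2)) = q * b + q * ε := by ring
        _ ≤ max A₁ (q * b) + ε := by linarith
    have hle := csInf_le hbelow hmem
    rw [← hb] at hle
    have hlt2 : max A₁ (q * b) < b := by
      apply max_lt hlt
      have : 0 < b := by linarith
      nlinarith
    linarith
  have := hbS ε hε
  rw [hbeq, hA₁] at this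
  exact this

/-- an upper bound for a derivative of zeta to the left of `1/2 - A` implies `LA A` -/
theorem a8 (h1 : P1) (h2 : P2) (h4 : S4) (h5 : S5) {k : ℕ} {A : ℝ} (hA : 0 ≤ A) (hA2 : A < 1 / 2)
    (h : HypA k A) : LA A := by
  intro δ₀ ε hδ₀ hε
  obtain ⟨δ, hδ, hδδ, hδ1⟩ : ∃ δ : ℝ, 0 < δ ∧ δ ≤ δ₀ ∧ δ ≤ 1 / 8 :=
    ⟨min δ₀ (1 / 8), lt_min hδ₀ (by norm_num), min_le_left _ _, min_le_right _ _⟩
  obtain ⟨A₁, hA₁⟩ : ∃ A₁ : ℝ, A₁ = A + δ := ⟨_, rfl⟩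
  have h6 := a8_exponent h1 h2 h5 (k := k) hA hδ (by linarith) h hε
  rw [← hA₁] at h6
  obtain ⟨C₁, T₁, hC₁, hT₁, hb⟩ := h6
  obtain ⟨C₂, T₂, hC₂, hT₂, hf⟩ := h4.1 1
  obtain ⟨K, Cc, Tc, hK, hCc, hTc, hcr⟩ := crude_half h5 1
  have hline : ∃ C T : ℝ, 0 ≤ C ∧ 1 ≤ T ∧ ∀ t : ℝ, T ≤ t →
      ‖riemannZeta (((1 / 2 + A₁ : ℝ) : ℂ) + t * I)‖ ≤ C * t ^ ε := by
    refine ⟨C₂ * C₁, T₁ + T₂, by positivity, by linarith, fun t ht => ?_⟩
    have ht0 : 0 < t := by linarith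
    have g1 := (hf (1 / 2 - A₁) t (by linarith) (by linarith) (by linarith)).2
    have e1 : (1 - (1 / 2 - A₁) : ℝ) = 1 / 2 + A₁ := by ring
    have e2 : (1 / 2 - (1 / 2 - A₁) : ℝ) = A₁ := by ring
    rw [e1, e2] at g1
    have g2 := hb (((1 / 2 - A₁ : ℝ) : ℂ) + t * I) (by simp) (by simp; linarith)
    have e3 : (((1 / 2 - A₁ : ℝ) : ℂ) + t * I).im = t := by simp
    rw [e3, Real.rpow_add ht0] at g2
    have hp : 0 < t ^ A₁ := by positivity
    refine le_of_mul_le_mul_left ?_ hp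
    calc t ^ A₁ * ‖riemannZeta (((1 / 2 + A₁ : ℝ) : ℂ) + t * I)‖
        ≤ C₂ * ‖riemannZeta (((1 / 2 - A₁ : ℝ) : ℂ) + t * I)‖ := g1
      _ ≤ C₂ * (C₁ * (t ^ A₁ * t ^ ε)) := by gcongr
      _ = t ^ A₁ * (C₂ * C₁ * t ^ ε) := by ring
  have h7 := pl_boundOn (a := 1 / 2 + A₁) (B := ε) (K := K) (by linarith) hε.le hK
    ⟨Cc, Tc, hCc, hTc, fun s hs ht => hcr s (by linarith) ht⟩ hline (a' := 1 / 2 + A₁) le_rfl
    (by linarith)
  have e4 : ε * (2 - (1 / 2 + A₁)) / (2 - (1 / 2 + A₁)) = ε := by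
    have : 2 - (1 / 2 + A₁) ≠ 0 := by
      have : 0 < 2 - (1 / 2 + A₁) := by linarith
      exact this.ne'
    rw [mul_div_assoc, div_self this, mul_one]
  rw [e4] at h7
  exact h7.mono (by linarith) le_rfl

end Pool.Agent.SPZ
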