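import Pool.Agent.SPZ.Main
import Pool.Agent.SPZ.A8

/-!
# Speiser's criterion for the Lindelöf abscissa: assembly

For `0 ≤ A < 1/2`: `ζ(s) = O((Im s)^ε)` to the right of `1/2 + A` if and only if `ζ^(k) - a` has
`o(log T)` zeros in translates of discs to the left of `1/2 - A` (to the right of `1/2 + A`).
-/

set_option autoImplicit false

namespace Pool.Agent.SPZ

open Complex Metric Set Filter Topology
open Pool.Agent.LHW (Up CountLe isOpen_Up ball_Up)
open Pool.Agent.Lib.ZetaLine Pool.Agent.Lib.ZetaConv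

lemma a5_left (h4 : S4) {A : ℝ} (hA : 0 ≤ A) (hLA : LA A) (k : ℕ) (a : ℂ) (K δ ε : ℝ)
    (hδ : 0 < δ) (hε : 0 < ε) : ∃ T₀ : ℝ, 1 ≤ T₀ ∧ ∀ s : ℂ, -K ≤ s.re →
      s.re ≤ 1 / 2 - A - δ → T₀ ≤ s.im → ‖Z k a s‖ ≤ s.im ^ (1 / 2 - s.re + ε) := by
  refine s5_step (1 / 2 - A) (by linarith) ?_ k a K δ ε hδ hε
  intro K δ ε hδ hε
  obtain ⟨Cr, Tr, hCr, hTr, hr⟩ := hLA δ ε hδ hε
  exact s5_left h4 K (1 / 2 - A - δ) (1 / 2 + A + δ) ε Cr Tr (by linarith) (by linarith)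
    (by linarith) hr

lemma a5_right {A : ℝ} (hLA : LA A) (k : ℕ) (a : ℂ) (δ ε : ℝ)
    (hδ : 0 < δ) (hε : 0 < ε) : ∃ T₀ : ℝ, 1 ≤ T₀ ∧ ∀ s : ℂ, 1 / 2 + A + δ ≤ s.re →
      T₀ ≤ s.im → ‖Z k a s‖ ≤ s.im ^ ε := by
  obtain ⟨Cr, Tr, hCr, hTr, hr⟩ := hLA (δ / 2) (ε / 2) (by linarith) (by linarith)
  set ρ : ℝ := min (δ / 2) 1 with hρ
  have hρ0 : 0 < ρ := lt_min (by linarith) one_pos
  obtain ⟨T₀, hT₀, hfin⟩ := s5_cauchy k a (fun x => 1 / 2 + A + δ ≤ x)
    (fun x => 1 / 2 + A + δ / 2 ≤ x)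
    (fun _ => ε / 2) (ρ := ρ) (η := ε / 4) (E := ε / 2) (C := Cr) (T₁ := Tr) hρ0
    (min_le_right _ _) (by linarith) (by linarith)
    (by
      intro x y hx hxy
      have := abs_le.1 hxy
      have hx' : 1 / 2 + A + δ ≤ x := hx
      have h3 : ρ ≤ δ / 2 := min_le_left _ _
      show 1 / 2 + A + δ / 2 ≤ y
      linarith [this.1])
    (by
      intro x y hx hxy
      show ε / 2 ≤ ε / 2 + ε / 4
      linarith)
    (by
      intro x hx
      show 0 ≤ ε / 2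
      linarith)
    (by
      intro x hx
      exact le_rfl)
    (fun s hs hT => hr s hs hT)
  refine ⟨T₀, hT₀, fun s hs hT => ?_⟩
  have h1 := hfin s hs hT
  have h2 : ε / 2 + 2 * (ε / 4) = ε := by ring
  have h3 : ‖Z k a s‖ ≤ s.im ^ (ε / 2 + 2 * (ε / 4)) := h1
  rwa [h2] at h3

/-- few zeros on the right imply the Lindelöf hypothesis -/
lemma right_to_LA (h1 : S1) (h2 : S2) (h3 : S3) (h5 : S5) (k : ℕ) (a : ℂ) {A : ℝ}
    (hA : 0 ≤ A) (hA2 : A < 1 / 2)
    (h : ∀ x r : ℝ, 0 < r → 1 / 2 + A < x - r → ∀ η : ℝ, 0 < η → ∃ T₀ : ℝ, ∀ T : ℝ, T₀ ≤ T →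
      (zeros (Z k a) ((x : ℂ) + T * I) r : ℝ) ≤ η * Real.log T) :
    ∀ δ ε : ℝ, 0 < δ → 0 < ε → ∃ T₀ : ℝ, 1 ≤ T₀ ∧ ∀ s : ℂ, 1 / 2 + A + δ ≤ s.re → s.re ≤ 2 →
      T₀ ≤ s.im → ‖iteratedDeriv k riemannZeta s‖ ≤ s.im ^ ε := by
  intro δ₀ ε hδ₀ hε
  -- a smaller `δ`
  obtain ⟨δ, hδ, hδδ, hδ1⟩ : ∃ δ : ℝ, 0 < δ ∧ δ ≤ δ₀ ∧ δ ≤ 1 :=
    ⟨min δ₀ 1, lt_min hδ₀ one_pos, min_le_left _ _, min_le_right _ _⟩
  obtain ⟨E, hE, -, c, hc, hlow⟩ := h3.1 k a 0
  obtain ⟨Cb, hCb, hbd⟩ := h3.2 k a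
  obtain ⟨W, TW, hW, hTW, hcr⟩ := h5.1 k a 0
  obtain ⟨η, hη, α, hα, T₁, hS1⟩ := h1 E (1 / 2 + A + δ) δ (W + 1) (ε / 2) hδ (by linarith)
    (by linarith)
  have hlen : |(1 / 2 + A + δ) - E| = E - (1 / 2 + A + δ) := by
    rw [abs_of_nonpos (by linarith)]; ring
  obtain ⟨T₂, hT₂⟩ := h ((E + (1 / 2 + A + δ)) / 2) (|(1 / 2 + A + δ) - E| / 2 + δ / 2)
    (by rw [hlen]; linarith) (by rw [hlen]; linarith) η hη
  obtain ⟨T₃, hT₃⟩ := ev_const (max Cb (1 / c)) hα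
  obtain ⟨T₄, hT₄⟩ := ev_const (1 + ‖a‖) (ε := ε / 2) (by linarith)
  obtain ⟨T₅, hT₅⟩ := ev_const (2 ^ W) (ε := (1 : ℝ)) one_pos
  refine ⟨max (max (max T₁ T₂) (max T₃ T₄)) (max T₅ (TW + E + 10)), ?_, ?_⟩
  · refine le_max_of_le_right (le_max_of_le_right (by linarith))
  intro s hs1 hs2 hs
  have q1 : T₁ ≤ s.im := le_trans (le_trans (le_trans (le_max_left _ _) (le_max_left _ _))
    (le_max_left _ _)) hs
  have q2 : T₂ ≤ s.im := le_trans (le_trans (le_trans (le_max_right _ _) (le_max_left _ _))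
    (le_max_left _ _)) hs
  have q3 : T₃ ≤ s.im := le_trans (le_trans (le_trans (le_max_left _ _) (le_max_right _ _))
    (le_max_left _ _)) hs
  have q4 : T₄ ≤ s.im := le_trans (le_trans (le_trans (le_max_right _ _) (le_max_right _ _))
    (le_max_left _ _)) hs
  have q5 : T₅ ≤ s.im := le_trans (le_trans (le_max_left _ _) (le_max_right _ _)) hs
  have q6 : TW + E + 10 ≤ s.im := le_trans (le_trans (le_max_right _ _) (le_max_right _ _)) hs
  set T := s.im with hTdef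
  have hT0 : 0 < T := by linarith
  have hT1 : 1 ≤ T := by linarith
  have key := hS1 T q1 (fun s => Z k a s * cexp ((0 : ℝ) * (s - 0))) ?_ ?_ ?_ ?_ ?_ s.re ?_
  · have e : ((s.re : ℂ) + T * I) = s := by rw [hTdef]; exact Complex.re_add_im s
    simp only [e, ofReal_zero, zero_mul, Complex.exp_zero, mul_one] at key
    have e2 : iteratedDeriv k riemannZeta s = Z k a s + a := by unfold Z; ring
    rw [e2]
    have e3 : T ^ (ε / 2) * T ^ (ε / 2) = T ^ ε := by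
      rw [← Real.rpow_add hT0]; congr 1; ring
    have e4 : 1 ≤ T ^ (ε / 2) := Real.one_le_rpow hT1 (by linarith)
    have e5 := hT₄ T q4
    have e6 := norm_nonneg a
    calc ‖Z k a s + a‖ ≤ ‖Z k a s‖ + ‖a‖ := norm_add_le _ _
      _ ≤ T ^ (ε / 2) + ‖a‖ := by linarith
      _ ≤ T ^ (ε / 2) * (1 + ‖a‖) := by nlinarith
      _ ≤ T ^ (ε / 2) * T ^ (ε / 2) := by gcongr
      _ = T ^ ε := e3
  · exact (diff_Z k a).mul (by fun_prop)
  · intro x hx z hz
    obtain ⟨g1, g2, g3⟩ := ball_box hz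
    rw [uIcc_of_ge (by linarith)] at hx
    have hx1 := hx.1
    have hx2 := hx.2
    rw [abs_le] at g3
    simp only [ofReal_zero, zero_mul, Complex.exp_zero, mul_one]
    have hz1 := hcr z (by linarith) (by linarith [g3.1])
    refine hz1.trans ?_
    have h6 : z.im ^ W ≤ 2 ^ W * T ^ W :=
      pow_compare (H := δ) hT1 (by linarith) (by rw [abs_le]; exact g3)
        (by linarith [g3.1]) hW.le
    have h7 := hT₅ T q5
    rw [Real.rpow_one] at h7
    rw [Real.rpow_add hT0, Real.rpow_one]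
    calc z.im ^ W ≤ 2 ^ W * T ^ W := h6
      _ ≤ T * T ^ W := by gcongr
      _ = T ^ W * T := by ring
  · exact count_seg h2 h3 k a hδ.le (by rw [hlen]; linarith) (hT₂ T q2) hη.le
  · intro z hz
    obtain ⟨g1, g2, g3⟩ := ball_box hz
    simp only [ofReal_zero, zero_mul, Complex.exp_zero, mul_one]
    exact (hbd z (by linarith)).trans ((le_max_left _ _).trans (hT₃ T q3))
  · refine ⟨(E : ℂ) + T * I, mem_closedBall_self (by positivity), ?_⟩
    simp only [ofReal_zero, zero_mul, Complex.exp_zero, mul_one]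
    refine le_trans ?_ (hlow T)
    have h6 := (le_max_right _ _).trans (hT₃ T q3)
    rw [Real.rpow_neg hT0.le]
    rw [div_le_iff₀ hc] at h6
    rw [inv_le_iff_one_le_mul₀ (by positivity)]
    linarith
  · rw [uIcc_of_ge (by linarith)]
    exact ⟨by linarith, by linarith⟩

/-- few zeros on the left imply the Lindelöf hypothesis -/
lemma left_to_LA (h1 : S1) (h2 : S2) (h3 : S3) (h5 : S5) (h6 : S6) (k : ℕ) (a : ℂ) {A : ℝ}
    (hA : 0 ≤ A) (hA2 : A < 1 / 2)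
    (h : ∀ x r : ℝ, 0 < r → x + r < 1 / 2 - A → ∀ η : ℝ, 0 < η → ∃ T₀ : ℝ, ∀ T : ℝ, T₀ ≤ T →
      (zeros (Z k a) ((x : ℂ) + T * I) r : ℝ) ≤ η * Real.log T) : HypA k A := by
  intro δ₀ ε hδ₀ hε
  obtain ⟨δ, hδ, hδδ, hδ1⟩ : ∃ δ : ℝ, 0 < δ ∧ δ ≤ δ₀ ∧ δ ≤ 1 / 8 :=
    ⟨min δ₀ (1 / 8), lt_min hδ₀ (by norm_num), min_le_left _ _, min_le_right _ _⟩
  obtain ⟨W, TW, hW, hTW, hcr⟩ := h5.1 k a 1
  obtain ⟨η, hη, α, hα, T₁, hS1⟩ := h1 (-(1 / 4)) (1 / 2 - A - δ) δ (W + 1) (ε / 2) hδ (by linarith)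
    (by linarith)
  have hlen : |(1 / 2 - A - δ) - (-(1 / 4))| = 3 / 4 - A - δ := by
    rw [abs_of_nonneg (by linarith)]; ring
  obtain ⟨T₂, hT₂⟩ := h ((-(1 / 4) + (1 / 2 - A - δ)) / 2)
    (|(1 / 2 - A - δ) - (-(1 / 4))| / 2 + δ / 2)
    (by rw [hlen]; linarith) (by rw [hlen]; linarith) η hη
  obtain ⟨T₃, hT₃, hup⟩ := h5.2.1 k a 1 (1 / 8) (α / 4) (by norm_num) (by linarith)
  obtain ⟨T₄, hT₄⟩ := ev_const (1 + ‖a‖) (ε := ε / 2) (by linarith)
  obtain ⟨T₅, hT₅, hnear⟩ := near_height (B := W + 3 + α) (H := 1) (ε := min 1 (α / 4))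
    (lt_min one_pos (by linarith))
  obtain ⟨T₆, hT₆⟩ := h6 k a (-(1 / 4)) (δ / 64) (α / 4) (by norm_num) (by linarith) (by linarith)
  refine ⟨max (max (max T₁ T₂) (max T₃ T₄)) (max (max T₅ T₆) (TW + T₃ + 10)), ?_, ?_⟩
  · refine le_max_of_le_right (le_max_of_le_right (by linarith))
  intro s hs1 hs2 hs
  have q1 : T₁ ≤ s.im := le_trans (le_trans (le_trans (le_max_left _ _) (le_max_left _ _))
    (le_max_left _ _)) hs
  have q2 : T₂ ≤ s.im := le_trans (le_trans (le_trans (le_max_right _ _) (le_max_left _ _))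
    (le_max_left _ _)) hs
  have q4 : T₄ ≤ s.im := le_trans (le_trans (le_trans (le_max_right _ _) (le_max_right _ _))
    (le_max_left _ _)) hs
  have q5 : T₅ ≤ s.im := le_trans (le_trans (le_trans (le_max_left _ _) (le_max_left _ _))
    (le_max_right _ _)) hs
  have q6 : T₆ ≤ s.im := le_trans (le_trans (le_trans (le_max_right _ _) (le_max_left _ _))
    (le_max_right _ _)) hs
  have q7 : TW + T₃ + 10 ≤ s.im := le_trans (le_trans (le_max_right _ _) (le_max_right _ _)) hs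
  set T := s.im with hTdef
  have hT0 : 0 < T := by linarith
  have hT1 : 1 ≤ T := by linarith
  have hmin1 : min 1 (α / 4) ≤ 1 := min_le_left _ _
  have hmin2 : min 1 (α / 4) ≤ α / 4 := min_le_right _ _
  have key := hS1 T q1 (fun s => Z k a s * cexp ((Real.log T : ℝ) * (s - (1 / 2 : ℂ)))) ?_ ?_ ?_ ?_
    ?_ s.re ?_
  · have e : ((s.re : ℂ) + T * I) = s := by rw [hTdef]; exact Complex.re_add_im s
    rw [e] at key
    have hn := norm_ZL k a hT0 s
    unfold ZL at hn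
    rw [hn] at key
    have e2 : iteratedDeriv k riemannZeta s = Z k a s + a := by unfold Z; ring
    rw [e2]
    have e3 : T ^ (1 / 2 - s.re + ε) = T ^ (1 / 2 - s.re) * (T ^ (ε / 2) * T ^ (ε / 2)) := by
      rw [← Real.rpow_add hT0, ← Real.rpow_add hT0]; congr 1; ring
    have e4 : 1 ≤ T ^ (ε / 2) := Real.one_le_rpow hT1 (by linarith)
    have e5 := hT₄ T q4
    have e6 := norm_nonneg a
    have e7 : 1 ≤ T ^ (1 / 2 - s.re) := Real.one_le_rpow hT1 (by linarith)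
    have e8 : ‖Z k a s‖ ≤ T ^ (1 / 2 - s.re) * T ^ (ε / 2) := by
      have e9 : T ^ (s.re - 1 / 2) * T ^ (1 / 2 - s.re) = 1 := by
        rw [← Real.rpow_add hT0]; simp
      calc ‖Z k a s‖ = ‖Z k a s‖ * T ^ (s.re - 1 / 2) * T ^ (1 / 2 - s.re) := by
            rw [mul_assoc, e9, mul_one]
        _ ≤ T ^ (ε / 2) * T ^ (1 / 2 - s.re) := by gcongr
        _ = _ := mul_comm _ _
    have e10 : 1 ≤ T ^ (1 / 2 - s.re) * T ^ (ε / 2) := by nlinarith
    calc ‖Z k a s + a‖ ≤ ‖Z k a s‖ + ‖a‖ := norm_add_le _ _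
      _ ≤ T ^ (1 / 2 - s.re) * T ^ (ε / 2) + ‖a‖ := by linarith
      _ ≤ (T ^ (1 / 2 - s.re) * T ^ (ε / 2)) * (1 + ‖a‖) := by nlinarith
      _ ≤ (T ^ (1 / 2 - s.re) * T ^ (ε / 2)) * T ^ (ε / 2) := by gcongr
      _ = T ^ (1 / 2 - s.re + ε) := by rw [e3]; ring
  · exact (diff_Z k a).mul (by fun_prop)
  · intro x hx z hz
    obtain ⟨g1, g2, g3⟩ := ball_box hz
    rw [uIcc_of_le (by linarith)] at hx
    have hx1 := hx.1
    have hx2 := hx.2
    have g3' := abs_le.mp g3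
    have hz1 := hcr z (by linarith) (by linarith [g3'.1])
    have hn := norm_ZL k a hT0 z
    unfold ZL at hn
    rw [hn]
    obtain ⟨n1, n2⟩ := hnear T q5 z.im (by linarith)
    have n3 := (n2 W hW.le (by linarith)).1
    have e7 : T ^ (z.re - 1 / 2) ≤ 1 := by
      calc T ^ (z.re - 1 / 2) ≤ T ^ (0 : ℝ) := Real.rpow_le_rpow_of_exponent_le hT1 (by linarith)
        _ = 1 := Real.rpow_zero _
    have e8 : T ^ (W + min 1 (α / 4)) ≤ T ^ (W + 1) :=
      Real.rpow_le_rpow_of_exponent_le hT1 (by linarith)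
    calc ‖Z k a z‖ * T ^ (z.re - 1 / 2) ≤ ‖Z k a z‖ * 1 := by gcongr
      _ = ‖Z k a z‖ := mul_one _
      _ ≤ z.im ^ W := hz1
      _ ≤ T ^ (W + 1) := n3.trans e8
  · exact count_seg h2 h3 k a hδ.le (by rw [hlen]; linarith) (hT₂ T q2) hη.le
  · intro z hz
    obtain ⟨g1, g2, g3⟩ := ball_box hz
    have g3' := abs_le.mp g3
    have hn := norm_ZL k a hT0 z
    unfold ZL at hn
    rw [hn]
    have hz1 := hup z (by linarith) (by linarith) (by linarith [g3'.1])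
    obtain ⟨n1, n2⟩ := hnear T q5 z.im (by linarith)
    have n3 := (n2 (1 / 2 - z.re + α / 4) (by linarith) (by linarith)).1
    calc ‖Z k a z‖ * T ^ (z.re - 1 / 2)
        ≤ T ^ (1 / 2 - z.re + α / 4 + min 1 (α / 4)) * T ^ (z.re - 1 / 2) := by
          gcongr
          exact hz1.trans n3
      _ = T ^ (α / 4 + min 1 (α / 4)) := by rw [← Real.rpow_add hT0]; congr 1; ring
      _ ≤ T ^ α := Real.rpow_le_rpow_of_exponent_le hT1 (by linarith)
  · obtain ⟨w, hw, hw2⟩ := hT₆ T q6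
    refine ⟨w, hw, ?_⟩
    have hn := norm_ZL k a hT0 w
    unfold ZL at hn
    rw [hn]
    calc T ^ (-α) ≤ T ^ (-(α / 4)) := Real.rpow_le_rpow_of_exponent_le hT1 (by linarith)
      _ = T ^ (1 / 2 - w.re - α / 4) * T ^ (w.re - 1 / 2) := by
          rw [← Real.rpow_add hT0]; congr 1; ring
      _ ≤ ‖Z k a w‖ * T ^ (w.re - 1 / 2) := by gcongr
  · rw [uIcc_of_le (by linarith)]
    exact ⟨by linarith, by linarith⟩

/-- the Lindelöf hypothesis implies few zeros on the right -/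
lemma LA_to_right (h3 : S3) (h2 : S2) (h7 : S7) (k : ℕ) (a : ℂ) {A : ℝ} (hLA : LA A) :
    ∀ x r : ℝ, 0 < r → 1 / 2 + A < x - r → ∀ η : ℝ, 0 < η → ∃ T₀ : ℝ, ∀ T : ℝ, T₀ ≤ T →
      (zeros (Z k a) ((x : ℂ) + T * I) r : ℝ) ≤ η * Real.log T := by
  intro x r hr hxr η hη
  obtain ⟨δ, hδ⟩ : ∃ δ : ℝ, δ = x - r - 1 / 2 - A := ⟨_, rfl⟩
  have hδ0 : 0 < δ := by linarith
  obtain ⟨E, hE, hEK, c, hc, hlow⟩ := h3.1 k a (x + r + 2)
  obtain ⟨M, hM⟩ := h7.2.1 r (δ / 4) hr (by linarith)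
  obtain ⟨ρ, hρ⟩ : ∃ ρ : ℝ, ρ = E - 1 / 2 - A - δ + δ / 4 := ⟨_, rfl⟩
  obtain ⟨R, hR⟩ : ∃ R : ℝ, R = E - 1 / 2 - A - δ / 2 := ⟨_, rfl⟩
  have hρ0 : 0 < ρ := by rw [hρ]; linarith
  have hρR : ρ < R := by rw [hρ, hR]; linarith
  obtain ⟨ℓ, hℓ⟩ : ∃ ℓ : ℝ, ℓ = Real.log (R / ρ) := ⟨_, rfl⟩
  have hℓ0 : 0 < ℓ := by rw [hℓ]; exact Real.log_pos (by rw [lt_div_iff₀ hρ0]; linarith)
  obtain ⟨ε, hε⟩ : ∃ ε : ℝ, ε = η * ℓ / (4 * (M + 1)) := ⟨_, rfl⟩
  have hM0 : (0 : ℝ) ≤ M := Nat.cast_nonneg M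
  have hε0 : 0 < ε := by rw [hε]; positivity
  obtain ⟨T₁, hT₁, hup⟩ := a5_right hLA k a (δ / 2) ε (by linarith) hε0
  obtain ⟨T₂, hT₂, hnear⟩ := near_height (B := ε) (H := r + R) (ε := ε) hε0
  obtain ⟨T₃, hT₃⟩ := ev_const (1 / c) (ε := 2 * ε) (by linarith)
  refine ⟨T₁ + T₂ + |T₃| + r + R + δ + 10, ?_⟩
  intro T hT
  have p3 := abs_nonneg T₃
  have p3' := le_abs_self T₃
  have hT1 : 1 ≤ T := by linarith
  have hT0 : 0 < T := by linarith
  have hL0 : 0 ≤ Real.log T := Real.log_nonneg hT1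
  have him : ((x : ℂ) + T * I).im = T := by simp
  have key := hM (Z k a) ((x : ℂ) + T * I) (2 * (2 * ε * Real.log T) / ℓ) (diff_Z k a)
    (exists_ne_Z h3 k a) (by rw [him]; linarith) ?_
  · refine key.trans ?_
    have e : (M : ℝ) * (2 * (2 * ε * Real.log T) / ℓ) = (M / (M + 1)) * (η * Real.log T) := by
      rw [hε]; field_simp; ring
    rw [e]
    have : (M : ℝ) / (M + 1) ≤ 1 := by rw [div_le_one (by positivity)]; linarith
    have h0 : 0 ≤ η * Real.log T := by positivity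
    nlinarith
  · intro p hp
    obtain ⟨g1, g2, g3⟩ := ball_box hp
    have g3' := abs_le.mp g3
    set w : ℂ := (E : ℂ) + p.im * I with hw
    have hwim : w.im = p.im := by simp [hw]
    have hwre : w.re = E := by simp [hw]
    have hsub : closedBall p (δ / 4) ⊆ closedBall w ρ := by
      apply closedBall_subset_closedBall'
      have e : p - w = ((p.re - E : ℝ) : ℂ) := by
        apply Complex.ext <;> simp [hw]
      rw [dist_eq_norm, e, Complex.norm_real, Real.norm_eq_abs, abs_of_nonpos (by linarith), hρ]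
      linarith
    have m1 := (h2 (Z k a) (diff_Z k a) (exists_ne_Z h3 k a)).2 w p (δ / 4) ρ
      (by rw [hwim]; linarith) hsub
    have m2 := h7.1 (Z k a) w ρ R (2 * ε * Real.log T) hρ0 hρR (by positivity)
      (by rw [hwim]; linarith) (diff_Z k a) ?_ ?_
    · rw [hℓ]
      refine le_trans ?_ m2
      exact_mod_cast m1
    · intro z hz
      have hz' : z ∈ closedBall ((E : ℂ) + p.im * I) R := hz
      obtain ⟨f1, f2, f3⟩ := ball_box hz'
      have f3' := abs_le.mp f3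
      have hz1 := hup z (by rw [hR] at f1; linarith) (by linarith)
      obtain ⟨n1, n2⟩ := hnear T (by linarith) z.im (by rw [abs_le]; constructor <;> linarith)
      have n3 := (n2 ε hε0.le le_rfl).1
      rw [show 2 * ε * Real.log T = Real.log T * (ε + ε) by ring, ← Real.rpow_def_of_pos hT0]
      exact hz1.trans n3
    · refine le_trans ?_ (hlow p.im)
      have h6 := hT₃ T (by linarith)
      rw [Real.exp_neg, show 2 * ε * Real.log T = Real.log T * (2 * ε) by ring,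
        ← Real.rpow_def_of_pos hT0, inv_le_iff_one_le_mul₀ (by positivity)]
      rw [div_le_iff₀ hc] at h6
      linarith

/-- the Lindelöf hypothesis implies few zeros on the left -/
lemma LA_to_left (h3 : S3) (h4 : S4) (h2 : S2) (h6 : S6) (h7 : S7) (k : ℕ) (a : ℂ) {A : ℝ}
    (hA : 0 ≤ A) (hA2 : A < 1 / 2) (hLA : LA A) :
    ∀ x r : ℝ, 0 < r → x + r < 1 / 2 - A → ∀ η : ℝ, 0 < η → ∃ T₀ : ℝ, ∀ T : ℝ, T₀ ≤ T →
      (zeros (Z k a) ((x : ℂ) + T * I) r : ℝ) ≤ η * Real.log T := by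
  intro x r hr hxr η hη
  obtain ⟨δ, hδ⟩ : ∃ δ : ℝ, δ = min (1 / 2 - A - x - r) 1 := ⟨_, rfl⟩
  have hδ0 : 0 < δ := by rw [hδ]; exact lt_min (by linarith) one_pos
  have hδ1 : δ ≤ 1 := by rw [hδ]; exact min_le_right _ _
  have hδx : δ ≤ 1 / 2 - A - x - r := by rw [hδ]; exact min_le_left _ _
  obtain ⟨d, hd⟩ : ∃ d : ℝ, d = δ / 8 := ⟨_, rfl⟩
  have hd0 : 0 < d := by rw [hd]; linarith
  obtain ⟨K, hK⟩ : ∃ K : ℝ, K = |x| + r + 2 := ⟨_, rfl⟩
  have hxa := abs_nonneg x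
  have hxa' := neg_abs_le x
  have hK0 : 2 ≤ K := by rw [hK]; linarith
  obtain ⟨M, hM⟩ := h7.2.1 r d hr hd0
  obtain ⟨ρ, hρ⟩ : ∃ ρ : ℝ, ρ = K + 1 / 2 - A - δ + 2 * d := ⟨_, rfl⟩
  obtain ⟨R, hR⟩ : ∃ R : ℝ, R = K + 1 / 2 - A - δ + 3 * d := ⟨_, rfl⟩
  have hρ0 : 0 < ρ := by rw [hρ]; linarith
  have hρR : ρ < R := by rw [hρ, hR]; linarith
  obtain ⟨ℓ, hℓ⟩ : ∃ ℓ : ℝ, ℓ = Real.log (R / ρ) := ⟨_, rfl⟩
  have hℓ0 : 0 < ℓ := by rw [hℓ]; exact Real.log_pos (by rw [lt_div_iff₀ hρ0]; linarith)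
  obtain ⟨ε, hε⟩ : ∃ ε : ℝ, ε = η * ℓ / (4 * (M + 1)) := ⟨_, rfl⟩
  have hM0 : (0 : ℝ) ≤ M := Nat.cast_nonneg M
  have hε0 : 0 < ε := by rw [hε]; positivity
  obtain ⟨T₁, hT₁, hup⟩ := a5_left h4 hA hLA k a (K + 1 + R) (δ / 2) ε (by linarith) hε0
  obtain ⟨T₂, hT₂, hnear⟩ := near_height (B := K + R + 3 + ε) (H := r + R + 1) (ε := ε) hε0
  obtain ⟨T₃, hT₃⟩ := h6 k a (-K) d ε (by linarith) hd0 hε0
  refine ⟨T₁ + T₂ + |T₃| + r + R + δ + 10, ?_⟩
  intro T hT
  have p3 := abs_nonneg T₃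
  have p3' := le_abs_self T₃
  have hT1 : 1 ≤ T := by linarith
  have hT0 : 0 < T := by linarith
  have hL0 : 0 ≤ Real.log T := Real.log_nonneg hT1
  have him : ((x : ℂ) + T * I).im = T := by simp
  have key := hM (Z k a) ((x : ℂ) + T * I) (2 * (2 * ε * Real.log T) / ℓ) (diff_Z k a)
    (exists_ne_Z h3 k a) (by rw [him]; linarith) ?_
  · refine key.trans ?_
    have e : (M : ℝ) * (2 * (2 * ε * Real.log T) / ℓ) = (M / (M + 1)) * (η * Real.log T) := by
      rw [hε]; field_simp; ring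
    rw [e]
    have : (M : ℝ) / (M + 1) ≤ 1 := by rw [div_le_one (by positivity)]; linarith
    have h0 : 0 ≤ η * Real.log T := by positivity
    nlinarith
  · intro p hp
    obtain ⟨g1, g2, g3⟩ := ball_box hp
    have g3' := abs_le.mp g3
    obtain ⟨w, hw, hwlow⟩ := hT₃ p.im (by linarith)
    obtain ⟨e1, e2, e3⟩ := ball_box hw
    have e3' := abs_le.mp e3
    have hwp : ‖p - w‖ ≤ K + 1 / 2 - A - δ + d := by
      have q1 : p - w = ((p.re + K : ℝ) : ℂ) + ((((-K : ℝ) : ℂ) + p.im * I) - w) := by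
        conv_lhs => rw [← Complex.re_add_im p]
        push_cast
        ring
      have q2 : ‖((((-K : ℝ) : ℂ) + p.im * I) - w)‖ ≤ d := by
        rw [← dist_eq_norm, dist_comm]; exact hw
      rw [q1]
      refine (norm_add_le _ _).trans ?_
      rw [Complex.norm_real, Real.norm_eq_abs, abs_of_nonneg (by linarith)]
      linarith
    have hsub : closedBall p d ⊆ closedBall w ρ := by
      apply closedBall_subset_closedBall'
      rw [dist_eq_norm, hρ]
      linarith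
    have m1 := (h2 (Z k a) (diff_Z k a) (exists_ne_Z h3 k a)).2 w p d ρ (by linarith) hsub
    have m3 := h7.2.2 (Z k a) w (1 / 2) ρ (Real.log T) (diff_Z k a) (by linarith)
    have m2 := h7.1 (ZL k a T) w ρ R (2 * ε * Real.log T) hρ0 hρR (by positivity)
      (by linarith) (diff_ZL k a T) ?_ ?_
    · rw [hℓ]
      have m4 : zeros (ZL k a T) w ρ = zeros (Z k a) w ρ := m3
      rw [m4] at m2
      refine le_trans ?_ m2
      exact_mod_cast m1
    · intro z hz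
      have hz' : z ∈ closedBall ((w.re : ℂ) + w.im * I) R := by
        rw [Complex.re_add_im]; exact hz
      obtain ⟨f1, f2, f3⟩ := ball_box hz'
      have f3' := abs_le.mp f3
      have hz2 : z.re ≤ 1 / 2 - A - δ / 2 := by rw [hR] at f2; linarith
      have hz1 := hup z (by linarith) hz2 (by linarith)
      obtain ⟨n1, n2⟩ := hnear T (by linarith) z.im (by rw [abs_le]; constructor <;> linarith)
      have n3 := (n2 (1 / 2 - z.re + ε) (by linarith) (by linarith)).1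
      rw [show 2 * ε * Real.log T = Real.log T * (ε + ε) by ring, ← Real.rpow_def_of_pos hT0,
        norm_ZL k a hT0]
      calc ‖Z k a z‖ * T ^ (z.re - 1 / 2) ≤ T ^ (1 / 2 - z.re + ε + ε) * T ^ (z.re - 1 / 2) := by
            gcongr
            exact hz1.trans n3
        _ = T ^ (ε + ε) := by rw [← Real.rpow_add hT0]; congr 1; ring
    · rw [norm_ZL k a hT0, Real.exp_neg, show 2 * ε * Real.log T = Real.log T * (ε + ε) by ring,
        ← Real.rpow_def_of_pos hT0, ← Real.rpow_neg hT0.le]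
      obtain ⟨n1, n2⟩ := hnear T (by linarith) p.im (by rw [abs_le]; constructor <;> linarith)
      have n3 : T ^ (1 / 2 - w.re - ε - ε) ≤ p.im ^ (1 / 2 - w.re - ε) := by
        by_cases hcase : 0 ≤ 1 / 2 - w.re - ε - ε
        · have := (n2 (1 / 2 - w.re - ε - ε) hcase (by linarith)).2
          refine this.trans (le_of_eq ?_)
          congr 1; ring
        · push Not at hcase
          have hp1 : 1 ≤ p.im := by linarith
          by_cases hc2 : 0 ≤ 1 / 2 - w.re - ε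
          · calc T ^ (1 / 2 - w.re - ε - ε) ≤ T ^ (0 : ℝ) :=
                  Real.rpow_le_rpow_of_exponent_le hT1 hcase.le
              _ = 1 := Real.rpow_zero _
              _ ≤ _ := Real.one_le_rpow hp1 hc2
          · push Not at hc2
            have n4 := (n2 (-(1 / 2 - w.re - ε)) (by linarith) (by linarith)).1
            have n5 : 0 < p.im ^ (-(1 / 2 - w.re - ε)) := by positivity
            have n6 : 0 < T ^ (-(1 / 2 - w.re - ε) + ε) := by positivity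
            have n7 := inv_anti₀ n5 n4
            rw [← Real.rpow_neg hT0.le, ← Real.rpow_neg n1.le] at n7
            refine le_trans (le_of_eq ?_) (n7.trans (le_of_eq ?_)) <;> congr 1 <;> ring
      calc T ^ (-(ε + ε)) = T ^ (1 / 2 - w.re - ε - ε) * T ^ (w.re - 1 / 2) := by
            rw [← Real.rpow_add hT0]; congr 1; ring
        _ ≤ p.im ^ (1 / 2 - w.re - ε) * T ^ (w.re - 1 / 2) := by gcongr
        _ ≤ ‖Z k a w‖ * T ^ (w.re - 1 / 2) := by gcongr

/-- a bound for a derivative of zeta to the right of a line gives the bound for zeta -/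
lemma a9_key (h1 : P1) (h2 : P2) (h3 : S3) (k : ℕ) {x₀ ε T₀ : ℝ} (hx₀ : 0 ≤ x₀) (hε : 0 < ε)
    (hT₀ : 1 ≤ T₀) (hder : ∀ s : ℂ, x₀ ≤ s.re → s.re ≤ 2 → T₀ ≤ s.im →
      ‖iteratedDeriv k riemannZeta s‖ ≤ s.im ^ ε) : BoundOn x₀ ε := by
  obtain ⟨C₀, hC₀, hz⟩ := h3.2 0 0
  obtain ⟨C₁, hC₁, hd⟩ := h3.2 k 0
  have hz' : ∀ s : ℂ, 3 / 2 ≤ s.re → ‖riemannZeta s‖ ≤ C₀ := by
    intro s hs
    simpa [Z] using hz s hs
  have hd' : ∀ s : ℂ, 3 / 2 ≤ s.re → ‖iteratedDeriv k riemannZeta s‖ ≤ C₁ := by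
    intro s hs
    simpa [Z] using hd s hs
  set m : ℝ := C₀ + C₁ with hm
  set D : ℝ := 2 ^ k + (k + 1) * m * 8 ^ k + C₀ with hD
  have hm0 : 0 ≤ (k + 1) * m * 8 ^ k := by
    rw [hm]
    have : (0 : ℝ) ≤ C₀ + C₁ := by linarith
    positivity
  have h2k : (0 : ℝ) < 2 ^ k := by positivity
  refine ⟨D, T₀ + 2, by rw [hD]; linarith, by linarith, ?_⟩
  intro s hs hT
  have hT1 : 1 ≤ s.im := by linarith
  have hTB : 1 ≤ s.im ^ (ε) := Real.one_le_rpow hT1 (by positivity)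
  by_cases hs2 : 3 / 2 ≤ s.re
  · calc ‖riemannZeta s‖ ≤ C₀ := hz' s hs2
      _ ≤ D * 1 := by rw [hD]; linarith
      _ ≤ D * s.im ^ (ε) := by
        apply mul_le_mul_of_nonneg_left hTB
        rw [hD]; linarith
  push Not at hs2
  set z₀ : ℂ := (2 : ℝ) + s.im * I with hz₀
  have hz₀re : z₀.re = 2 := by simp [hz₀]
  have hz₀im : z₀.im = s.im := by simp [hz₀]
  have hnorm : ‖s - z₀‖ = 2 - s.re := by
    have e : s - z₀ = ((s.re - 2 : ℝ) : ℂ) := by
      apply Complex.ext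
      · simp [hz₀re]
      · simp [hz₀im]
    rw [e, Complex.norm_real, Real.norm_eq_abs, abs_of_nonpos (by linarith)]
    ring
  obtain ⟨P, hP, hPb⟩ := h1 k riemannZeta Up z₀ Pool.Agent.LHW.isOpen_Up
    (convex_halfSpace_im_gt 1) Pool.Agent.LHW.diff_Up (by
      show 1 < z₀.im
      rw [hz₀im]; linarith)
  have hdisc : ∀ w ∈ closedBall z₀ (1 / 4), ‖P.eval w‖ ≤ m := by
    intro w hw
    rw [mem_closedBall, dist_eq_norm] at hw
    have hre : |(w - z₀).re| ≤ 1 / 4 := (abs_re_le_norm _).trans hw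
    have him : |(w - z₀).im| ≤ 1 / 4 := (abs_im_le_norm _).trans hw
    rw [sub_re, hz₀re, abs_le] at hre
    rw [sub_im, hz₀im, abs_le] at him
    have hb := hPb w (show 1 < w.im by linarith [him.1]) C₁ (by
      intro v hv
      apply hd'
      obtain ⟨p, q, hp, hq, hpq, rfl⟩ := hv
      have : (p • z₀ + q • w).re = p * 2 + q * w.re := by
        simp [hz₀re]
      rw [this]
      have : q = 1 - p := by linarith
      subst this
      nlinarith [hre.1])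
    have hpow : ‖w - z₀‖ ^ k ≤ 1 := pow_le_one₀ (norm_nonneg _) (by linarith)
    have h3 : ‖P.eval w‖ ≤ ‖riemannZeta w‖ + ‖riemannZeta w - P.eval w‖ := by
      have := norm_sub_norm_le (P.eval w) (riemannZeta w)
      rw [norm_sub_rev] at this
      linarith
    have h4 := hz' w (by linarith [hre.1])
    have h5 : C₁ * ‖w - z₀‖ ^ k ≤ C₁ * 1 :=
      mul_le_mul_of_nonneg_left hpow (by linarith)
    rw [hm]
    linarith
  have hpoly := h2 P k z₀ s (1 / 4) m hP (by norm_num) hdisc (by rw [hnorm]; linarith)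
  have hseg := hPb s (show 1 < s.im by linarith) (s.im ^ (ε)) (by
    intro v hv
    obtain ⟨p, q, hp, hq, hpq, rfl⟩ := hv
    have e1 : (p • z₀ + q • s).re = p * 2 + q * s.re := by
      simp [hz₀re]
    have e2 : (p • z₀ + q • s).im = s.im := by
      have : (p • z₀ + q • s).im = (p + q) * s.im := by
        simp [hz₀im]; ring
      rw [this, hpq, one_mul]
    have hq' : q = 1 - p := by linarith
    have := hder (p • z₀ + q • s) (by rw [e1]; subst hq'; nlinarith)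
      (by rw [e1]; subst hq'; nlinarith) (by rw [e2]; linarith)
    rwa [e2] at this)
  rw [hnorm] at hpoly hseg
  have hle2 : 2 - s.re ≤ 2 := by linarith
  have hge : 0 ≤ 2 - s.re := by linarith
  have e3 : ((2 - s.re) / (1 / 4)) ^ k ≤ 8 ^ k := by
    apply pow_le_pow_left₀ (by positivity)
    rw [div_le_iff₀ (by norm_num)]
    linarith
  have e4 : (2 - s.re) ^ k ≤ 2 ^ k := pow_le_pow_left₀ hge hle2 k
  have e5 : ‖riemannZeta s‖ ≤ ‖riemannZeta s - P.eval s‖ + ‖P.eval s‖ := by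
    have := norm_add_le (riemannZeta s - P.eval s) (P.eval s)
    rwa [sub_add_cancel] at this
  have hm1 : 0 ≤ ((k : ℝ) + 1) * m := by
    rw [hm]
    have : (0 : ℝ) ≤ C₀ + C₁ := by linarith
    positivity
  have hTp : 0 ≤ s.im ^ (ε) := by linarith
  calc ‖riemannZeta s‖ ≤ s.im ^ (ε) * (2 - s.re) ^ k +
        (k + 1) * m * ((2 - s.re) / (1 / 4)) ^ k := by linarith
    _ ≤ s.im ^ (ε) * 2 ^ k + (k + 1) * m * 8 ^ k := by
      gcongr
    _ ≤ D * s.im ^ (ε) := by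
      rw [hD]
      nlinarith

/-- interpolation between two vertical lines -/
lemma pl_two {a b B β K : ℝ} (hab : a < b) (hβ : 0 ≤ β) (hβB : β ≤ B) (hK : 0 ≤ K)
    (hcr : ∃ C T : ℝ, 0 ≤ C ∧ 1 ≤ T ∧ ∀ s : ℂ, a ≤ s.re → T ≤ s.im →
      ‖riemannZeta s‖ ≤ C * s.im ^ K)
    (hl : ∃ C T : ℝ, 0 ≤ C ∧ 1 ≤ T ∧ ∀ t : ℝ, T ≤ t →
      ‖riemannZeta ((a : ℂ) + t * I)‖ ≤ C * t ^ B)
    (hr : ∃ C T : ℝ, 0 ≤ C ∧ 1 ≤ T ∧ ∀ t : ℝ, T ≤ t →
      ‖riemannZeta ((b : ℂ) + t * I)‖ ≤ C * t ^ β) :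
    ∃ C T : ℝ, 0 ≤ C ∧ 1 ≤ T ∧ ∀ t : ℝ, T ≤ t → ∀ x : ℝ, a ≤ x → x ≤ b →
      ‖riemannZeta ((x : ℂ) + t * I)‖ ≤ C * t ^ (β + (B - β) * (b - x) / (b - a)) := by
  obtain ⟨C₀, T₀, hC₀, hT₀, h⟩ := hl
  obtain ⟨Cc, Tc, hCc, hTc, hc⟩ := hcr
  obtain ⟨Cr, Tr, hCr, hTr, hr⟩ := hr
  have hB : 0 ≤ B := by linarith
  set w : ℝ := b - a with hw
  have hw0 : 0 < w := by rw [hw]; linarith
  set κ : ℝ := (B - β) / w with hκ
  have hκ0 : 0 ≤ κ := by
    rw [hκ]
    apply div_nonneg <;> linarith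
  have hκw : κ * w = B - β := by rw [hκ]; field_simp
  obtain ⟨T₂, hT₂⟩ : ∃ T₂ : ℝ, ∀ T : ℝ, T₂ ≤ T → 2 ^ K * T ^ K * Real.exp (-T) ≤ 1 := by
    have h1 := tendsto_rpow_mul_exp_neg_mul_atTop_nhds_zero K 1 one_pos
    have h2 : ∀ᶠ T : ℝ in atTop, T ^ K * Real.exp (-1 * T) < 1 / 2 ^ K :=
      h1.eventually (gt_mem_nhds (by positivity))
    obtain ⟨T₂, hT₂⟩ := eventually_atTop.mp h2
    refine ⟨T₂, fun T hT => ?_⟩
    have := hT₂ T hT
    rw [neg_one_mul, lt_div_iff₀ (by positivity)] at this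
    linarith
  obtain ⟨N, hN⟩ : ∃ N : ℝ, N = 2 ^ B * (C₀ + Cr) + Cc := ⟨_, rfl⟩
  have hN0 : 0 ≤ N := by rw [hN]; positivity
  refine ⟨N * Real.exp (w ^ 2), 4 + 2 * T₀ + 2 * Tc + 2 * Tr + |T₂|, by positivity, ?_, ?_⟩
  · have := abs_nonneg T₂
    linarith
  intro T hT x hx0 hx1
  have hTabs := le_abs_self T₂
  have habs2 := abs_nonneg T₂
  have hT4 : 4 ≤ T := by linarith
  have hT0 : 0 < T := by linarith
  set L := Real.log T with hL
  have hL0 : 0 ≤ L := Real.log_nonneg (by linarith)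
  set Y := Real.sqrt T with hY
  have hY0 : 0 < Y := Real.sqrt_pos.mpr hT0
  have hYsq : Y ^ 2 = T := Real.sq_sqrt hT0.le
  have hYT : Y ≤ T / 2 := by nlinarith
  have hexpL : ∀ e : ℝ, Real.exp (L * e) = T ^ e := fun e => by
    rw [hL, Real.rpow_def_of_pos hT0]
  have hTB1 : 1 ≤ T ^ B := Real.one_le_rpow (by linarith) hB
  have hTB0 : 0 < T ^ B := by positivity
  have h2B : (0 : ℝ) < 2 ^ B := by positivity
  have key := gauss_max (a := a) (b := b) (κ := κ) (T := T) (Y := Y) (L := L)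
    (M := N * T ^ B) hab hY0 (by linarith) (by
      intro s hs1 hs2 hs3 hside
      rw [abs_le] at hs3
      have him1 : T / 2 ≤ s.im := by linarith [hs3.1]
      have him2 : s.im ≤ 2 * T := by linarith [hs3.2]
      have him0 : 0 < s.im := by linarith
      have hexp1 : Real.exp (κ * L * (s.re - a)) ≤ T ^ B := by
        rw [← hexpL, Real.exp_le_exp]
        have : κ * (s.re - a) ≤ κ * w := mul_le_mul_of_nonneg_left (by rw [hw]; linarith) hκ0
        calc κ * L * (s.re - a) = L * (κ * (s.re - a)) := by ring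
          _ ≤ L * (κ * w) := mul_le_mul_of_nonneg_left this hL0
          _ ≤ L * B := mul_le_mul_of_nonneg_left (by rw [hκw]; linarith) hL0
      have hexp2 : Real.exp (-(s.im - T) ^ 2) ≤ 1 := by
        rw [Real.exp_le_one_iff]; nlinarith [sq_nonneg (s.im - T)]
      have hz0 := norm_nonneg (riemannZeta s)
      rcases hside with hc1 | hc2 | hc3
      · -- left side
        have e1 : s = (a : ℂ) + s.im * I := by
          apply Complex.ext <;> simp [hc1]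
        have e2 : ‖riemannZeta s‖ ≤ C₀ * s.im ^ B := by
          rw [e1]
          have := h s.im (by linarith)
          simpa using this
        have e3 : s.im ^ B ≤ 2 ^ B * T ^ B := by
          rw [← Real.mul_rpow (by norm_num) hT0.le]
          exact Real.rpow_le_rpow (by linarith) him2 hB
        have e4 : Real.exp (κ * L * (s.re - a)) = 1 := by rw [hc1]; simp
        rw [e4, mul_one]
        calc ‖riemannZeta s‖ * Real.exp (-(s.im - T) ^ 2) ≤ ‖riemannZeta s‖ * 1 := by gcongr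
          _ = ‖riemannZeta s‖ := mul_one _
          _ ≤ C₀ * s.im ^ B := e2
          _ ≤ C₀ * (2 ^ B * T ^ B) := by gcongr
          _ = (2 ^ B * C₀) * T ^ B := by ring
          _ ≤ N * T ^ B := by
              apply mul_le_mul_of_nonneg_right _ hTB0.le
              rw [hN]
              have : 0 ≤ 2 ^ B * Cr := by positivity
              linarith
      · -- right side
        have e1 : s = (b : ℂ) + s.im * I := by
          apply Complex.ext <;> simp [hc2]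
        have e2 : ‖riemannZeta s‖ ≤ Cr * s.im ^ β := by
          have := hr s.im (by linarith)
          rwa [← e1] at this
        have e3 : s.im ^ β ≤ 2 ^ B * T ^ β := by
          calc s.im ^ β ≤ (2 * T) ^ β := Real.rpow_le_rpow him0.le him2 hβ
            _ = 2 ^ β * T ^ β := Real.mul_rpow (by norm_num) hT0.le
            _ ≤ 2 ^ B * T ^ β := by
                apply mul_le_mul_of_nonneg_right _ (by positivity)
                exact Real.rpow_le_rpow_of_exponent_le (by norm_num) hβB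
        have e4 : Real.exp (κ * L * (s.re - a)) = T ^ (B - β) := by
          rw [← hexpL, hc2, ← hw, ← hκw]; congr 1; ring
        rw [e4]
        have e5 : T ^ β * T ^ (B - β) = T ^ B := by
          rw [← Real.rpow_add hT0]; congr 1; ring
        calc ‖riemannZeta s‖ * T ^ (B - β) * Real.exp (-(s.im - T) ^ 2)
            ≤ (Cr * (2 ^ B * T ^ β)) * T ^ (B - β) * 1 := by
              gcongr
              exact e2.trans (by gcongr)
          _ = (2 ^ B * Cr) * (T ^ β * T ^ (B - β)) := by ring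
          _ = (2 ^ B * Cr) * T ^ B := by rw [e5]
          _ ≤ N * T ^ B := by
              apply mul_le_mul_of_nonneg_right _ hTB0.le
              rw [hN]
              have : 0 ≤ 2 ^ B * C₀ := by positivity
              linarith
      · have e2 : ‖riemannZeta s‖ ≤ Cc * s.im ^ K := hc s (by linarith) (by linarith)
        have e3 : -(s.im - T) ^ 2 = -T := by
          rw [← sq_abs, hc3, hYsq]
        have e5 : s.im ^ K ≤ 2 ^ K * T ^ K := by
          rw [← Real.mul_rpow (by norm_num) hT0.le]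
          exact Real.rpow_le_rpow (by linarith) him2 hK
        rw [e3]
        have e4 := hT₂ T (by linarith)
        calc ‖riemannZeta s‖ * Real.exp (κ * L * (s.re - a)) * Real.exp (-T)
            ≤ (Cc * (2 ^ K * T ^ K)) * T ^ B * Real.exp (-T) := by
              gcongr
              exact e2.trans (by gcongr)
          _ = Cc * T ^ B * (2 ^ K * T ^ K * Real.exp (-T)) := by ring
          _ ≤ Cc * T ^ B * 1 := by gcongr
          _ ≤ N * T ^ B := by
              rw [mul_one]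
              apply mul_le_mul_of_nonneg_right _ hTB0.le
              rw [hN]
              have : 0 ≤ 2 ^ B * (C₀ + Cr) := by positivity
              linarith)
    (σ := x) (by linarith) (by linarith)
  have e5 : κ * L * (x - a) = L * (κ * (x - a)) := by ring
  rw [e5, ← hw, hexpL] at key
  have hpow : T ^ B = T ^ (β + (B - β) * (b - x) / w) * T ^ (κ * (x - a)) := by
    rw [← Real.rpow_add hT0]
    congr 1
    rw [hκ]
    have hw' : w ≠ 0 := hw0.ne'
    have : B - β = ((B - β) * (b - x) + (B - β) * (x - a)) / w := by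
      rw [eq_div_iff hw', hw]; ring
    calc B = β + (B - β) := by ring
      _ = β + ((B - β) * (b - x) + (B - β) * (x - a)) / w := by rw [← this]
      _ = _ := by ring
  have hκx0 : 0 < T ^ (κ * (x - a)) := by positivity
  refine le_of_mul_le_mul_right ?_ hκx0
  refine key.trans (le_of_eq ?_)
  rw [hpow]; ring

/-- from large positive heights to the whole line `Re s = x₀`, `x₀ ≠ 1` -/
lemma to_line {x₀ B : ℝ} (hx₀ : x₀ ≠ 1) (hB : 0 ≤ B)
    (h : ∃ C T₁ : ℝ, 0 ≤ C ∧ 1 ≤ T₁ ∧ ∀ t : ℝ, T₁ ≤ t →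
      ‖riemannZeta ((x₀ : ℂ) + t * I)‖ ≤ C * t ^ B) :
    ∃ C : ℝ, ∀ t : ℝ, ‖riemannZeta ((x₀ : ℂ) + t * I)‖ ≤ C * (1 + |t|) ^ B := by
  obtain ⟨C, T₁, hC, hT, h⟩ := h
  have hcont : Continuous fun t : ℝ => riemannZeta ((x₀ : ℂ) + t * I) := by
    rw [continuous_iff_continuousAt]
    intro t
    have h1 : ContinuousAt riemannZeta ((x₀ : ℂ) + t * I) := by
      apply (differentiableAt_riemannZeta _).continuousAt
      intro h
      have := congrArg Complex.re h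
      simp at this
      exact hx₀ this
    exact ContinuousAt.comp (f := fun t : ℝ => ((x₀ : ℂ) + t * I : ℂ)) h1 (by fun_prop)
  obtain ⟨D, hD⟩ := (isCompact_Icc (a := -T₁) (b := T₁)).exists_bound_of_continuousOn
    hcont.continuousOn
  refine ⟨|D| + C, ?_⟩
  have hpos : ∀ t : ℝ, 0 ≤ t → ‖riemannZeta ((x₀ : ℂ) + t * I)‖ ≤ (|D| + C) * (1 + |t|) ^ B := by
    intro t ht
    have h1 : (1 : ℝ) ≤ (1 + |t|) ^ B := Real.one_le_rpow (by linarith [abs_nonneg t]) hB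
    by_cases htT : t ≤ T₁
    · have := hD t ⟨by linarith, htT⟩
      have h2 := le_abs_self D
      have : ‖riemannZeta ((x₀ : ℂ) + t * I)‖ ≤ |D| := by linarith
      have h3 := abs_nonneg D
      nlinarith
    · push Not at htT
      have h2 := h t htT.le
      have h4 : t ^ B ≤ (1 + |t|) ^ B :=
        Real.rpow_le_rpow ht (by rw [abs_of_nonneg ht]; linarith) hB
      have h3 := abs_nonneg D
      have h5 : 0 ≤ t ^ B := by positivity
      calc ‖riemannZeta ((x₀ : ℂ) + t * I)‖ ≤ C * t ^ B := h2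
        _ ≤ (|D| + C) * (1 + |t|) ^ B := by
          apply mul_le_mul (by linarith) h4 h5 (by linarith)
  intro t
  rcases le_total 0 t with ht | ht
  · exact hpos t ht
  · have h1 := hpos (-t) (by linarith)
    have h2 : riemannZeta ((x₀ : ℂ) + t * I) =
        (starRingEnd ℂ) (riemannZeta ((x₀ : ℂ) + (-t : ℝ) * I)) := by
      rw [← riemannZeta_conj]
      congr 1
      apply Complex.ext <;> simp
    rw [h2, Complex.norm_conj]
    simpa using h1

/-- `LA A` is the Lindelöf bound on the line `Re s = 1/2 + A` -/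
lemma LA_iff (h5 : S5) {A : ℝ} (hA : 0 ≤ A) (hA2 : A < 1 / 2) : LA A ↔
    ∀ ε : ℝ, 0 < ε → ∃ C : ℝ, ∀ t : ℝ,
      ‖riemannZeta (((1 / 2 + A : ℝ) : ℂ) + t * I)‖ ≤ C * (1 + |t|) ^ ε := by
  obtain ⟨K, Cc, Tc, hK, hCc, hTc, hcr⟩ := crude_half h5 0
  constructor
  · intro h ε hε
    obtain ⟨δ, hδ⟩ : ∃ δ : ℝ, δ = min (1 / 4) (ε / (4 * (K + 1))) := ⟨_, rfl⟩
    have hδ0 : 0 < δ := by rw [hδ]; positivity
    have hδ1 : δ ≤ ε / (4 * (K + 1)) := by rw [hδ]; exact min_le_right _ _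
    have hδK : (K + 1) * δ ≤ ε / 4 := by
      calc (K + 1) * δ ≤ (K + 1) * (ε / (4 * (K + 1))) := by gcongr
        _ = ε / 4 := by field_simp
    obtain ⟨β, hβ⟩ : ∃ β : ℝ, β = min (ε / 4) (K + 1) := ⟨_, rfl⟩
    have hβ0 : 0 < β := by rw [hβ]; exact lt_min (by linarith) (by linarith)
    have hβε : β ≤ ε / 4 := by rw [hβ]; exact min_le_left _ _
    have hβK : β ≤ K + 1 := by rw [hβ]; exact min_le_right _ _
    obtain ⟨C₁, T₁, hC₁, hT₁, hr⟩ := h δ β hδ0 hβ0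
    have h2 := pl_two (a := 0) (b := 1 / 2 + A + δ) (B := K + 1) (β := β) (K := K)
      (by linarith) hβ0.le hβK hK ⟨Cc, Tc, hCc, hTc, fun s hs ht => hcr s (by linarith) ht⟩
      ⟨Cc, Tc, hCc, hTc, fun t ht => by
        have g1 := hcr (((0 : ℝ) : ℂ) + t * I) (by simp) (by simpa using ht)
        have g2 : (((0 : ℝ) : ℂ) + t * I).im = t := by simp
        rw [g2] at g1
        refine g1.trans ?_
        have g3 : t ^ K ≤ t ^ (K + 1) :=
          Real.rpow_le_rpow_of_exponent_le (by linarith) (by linarith)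
        gcongr⟩
      ⟨C₁, T₁, by linarith, hT₁, fun t ht => by
        have g1 := hr (((1 / 2 + A + δ : ℝ) : ℂ) + t * I) (by simp) (by simpa using ht)
        have g2 : (((1 / 2 + A + δ : ℝ) : ℂ) + t * I).im = t := by simp
        rwa [g2] at g1⟩
    obtain ⟨C₂, T₂, hC₂, hT₂, h3⟩ := h2
    apply to_line (by linarith) hε.le
    refine ⟨C₂, T₂, hC₂, hT₂, fun t ht =>
      (h3 t ht (1 / 2 + A) (by linarith) (by linarith)).trans ?_⟩
    have e1 : β + (K + 1 - β) * (1 / 2 + A + δ - (1 / 2 + A)) / (1 / 2 + A + δ - 0) ≤ ε := by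
      have e2 : 1 / 2 ≤ 1 / 2 + A + δ - 0 := by linarith
      have e3 : (K + 1 - β) * (1 / 2 + A + δ - (1 / 2 + A)) / (1 / 2 + A + δ - 0) ≤ ε / 2 := by
        rw [div_le_iff₀ (by linarith)]
        have e4 : (K + 1 - β) * (1 / 2 + A + δ - (1 / 2 + A)) = (K + 1) * δ - β * δ := by ring
        rw [e4]
        have e5 : 0 ≤ β * δ := by positivity
        nlinarith
      linarith
    have e2 := Real.rpow_le_rpow_of_exponent_le (hT₂.trans ht) e1
    gcongr
  · intro h δ ε hδ hε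
    obtain ⟨C, hC⟩ := h ε hε
    have hline : ∃ C T : ℝ, 0 ≤ C ∧ 1 ≤ T ∧ ∀ t : ℝ, T ≤ t →
        ‖riemannZeta (((1 / 2 + A : ℝ) : ℂ) + t * I)‖ ≤ C * t ^ ε := by
      refine ⟨|C| * 2 ^ ε, 1, by positivity, le_rfl, fun t ht => (hC t).trans ?_⟩
      have ht0 : 0 < t := by linarith
      rw [abs_of_pos ht0]
      have g1 : (1 + t) ^ ε ≤ 2 ^ ε * t ^ ε := by
        rw [← Real.mul_rpow (by norm_num) ht0.le]
        exact Real.rpow_le_rpow (by linarith) (by linarith) hε.le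
      calc C * (1 + t) ^ ε ≤ |C| * (1 + t) ^ ε :=
            mul_le_mul_of_nonneg_right (le_abs_self C) (by positivity)
        _ ≤ |C| * (2 ^ ε * t ^ ε) := by gcongr
        _ = |C| * 2 ^ ε * t ^ ε := by ring
    have h7 := pl_boundOn (a := 1 / 2 + A) (B := ε) (K := K) (by linarith) hε.le hK
      ⟨Cc, Tc, hCc, hTc, fun s hs ht => hcr s (by linarith) ht⟩ hline (a' := 1 / 2 + A) le_rfl
      (by linarith)
    have e4 : ε * (2 - (1 / 2 + A)) / (2 - (1 / 2 + A)) = ε := by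
      have : 2 - (1 / 2 + A) ≠ 0 := by
        have : 0 < 2 - (1 / 2 + A) := by linarith
        exact this.ne'
      rw [mul_div_assoc, div_self this, mul_one]
    rw [e4] at h7
    exact h7.mono (by linarith) le_rfl

theorem a_main (h1 : S1) (h2 : S2) (h3 : S3) (h4 : S4) (h5 : S5) (h6 : S6) (h7 : S7) (p1 : P1)
    (p2 : P2) (k : ℕ) (a : ℂ) (A : ℝ) (hA : 0 ≤ A) (hA2 : A < 1 / 2) : List.TFAE
    [∀ ε : ℝ, 0 < ε → ∃ C : ℝ, ∀ t : ℝ,
        ‖riemannZeta (((1 / 2 + A : ℝ) : ℂ) + t * I)‖ ≤ C * (1 + |t|) ^ ε,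
      ∀ x r : ℝ, 0 < r → x + r < 1 / 2 - A → ∀ η : ℝ, 0 < η → ∃ T₀ : ℝ, ∀ T : ℝ, T₀ ≤ T →
        (zeros (Z k a) ((x : ℂ) + T * I) r : ℝ) ≤ η * Real.log T,
      ∀ x r : ℝ, 0 < r → 1 / 2 + A < x - r → ∀ η : ℝ, 0 < η → ∃ T₀ : ℝ, ∀ T : ℝ, T₀ ≤ T →
        (zeros (Z k a) ((x : ℂ) + T * I) r : ℝ) ≤ η * Real.log T] := by
  rw [← LA_iff h5 hA hA2]
  tfae_have 1 → 2 := LA_to_left h3 h4 h2 h6 h7 k a hA hA2
  tfae_have 1 → 3 := LA_to_right h3 h2 h7 k a
  tfae_have 2 → 1 := fun h => a8 p1 p2 h4 h5 hA hA2 (left_to_LA h1 h2 h3 h5 h6 k a hA hA2 h)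
  tfae_have 3 → 1 := by
    intro h δ ε hδ hε
    obtain ⟨T₀, hT₀, hb⟩ := right_to_LA h1 h2 h3 h5 k a hA hA2 h δ ε hδ hε
    exact a9_key p1 p2 h3 k (by linarith) hε hT₀ hb
  tfae_finish

end Pool.Agent.SPZ
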