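import Pool.Agent.SPZ.Targets

/-!
# Speiser's criterion for the Lindelöf hypothesis: assembly
-/

set_option autoImplicit false

namespace Pool.Agent.SPZ

open Complex Metric Set Filter Topology
open Pool.Agent.LHW (Up CountLe isOpen_Up ball_Up)

lemma diff_iter (k : ℕ) : DifferentiableOn ℂ (iteratedDeriv k riemannZeta) Up := by
  have h : AnalyticOnNhd ℂ riemannZeta Up := Pool.Agent.LHW.diff_Up.analyticOnNhd isOpen_Up
  intro s hs
  have h1 : AnalyticAt ℂ (iteratedDeriv k riemannZeta) s := by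
    rw [iteratedDeriv_eq_iterate]
    induction k with
    | zero => exact h s hs
    | succ k ih => rw [Function.iterate_succ_apply']; exact ih.deriv
  exact h1.differentiableAt.differentiableWithinAt

lemma diff_Z (k : ℕ) (a : ℂ) : DifferentiableOn ℂ (Z k a) Up :=
  (diff_iter k).sub_const a

lemma diff_ZL (k : ℕ) (a : ℂ) (T : ℝ) : DifferentiableOn ℂ (ZL k a T) Up := by
  unfold ZL
  exact (diff_Z k a).mul (by fun_prop)

lemma norm_ZL (k : ℕ) (a : ℂ) {T : ℝ} (hT : 0 < T) (s : ℂ) :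
    ‖ZL k a T s‖ = ‖Z k a s‖ * T ^ (s.re - 1 / 2) := by
  unfold ZL
  rw [norm_mul, Complex.norm_exp, Real.rpow_def_of_pos hT]
  congr 2
  have : (1 / 2 : ℂ) = ((1 / 2 : ℝ) : ℂ) := by norm_num
  rw [this, Complex.re_ofReal_mul, Complex.sub_re, Complex.ofReal_re]

/-- the crude comparison of powers of nearby heights -/
lemma pow_compare {T t b : ℝ} {H : ℝ} (hT : 1 ≤ T) (hT2 : H ≤ T)
    (ht : |t - T| ≤ H) (ht0 : 0 < t) (hb : 0 ≤ b) : t ^ b ≤ 2 ^ b * T ^ b := by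
  rw [← Real.mul_rpow (by norm_num) (by linarith)]
  apply Real.rpow_le_rpow ht0.le _ hb
  rw [abs_le] at ht
  linarith [ht.2]

/-- constants are absorbed by a power of the height -/
lemma ev_const (C : ℝ) {ε : ℝ} (hε : 0 < ε) : ∃ T₀ : ℝ, ∀ T : ℝ, T₀ ≤ T → C ≤ T ^ ε :=
  eventually_atTop.mp ((tendsto_rpow_atTop hε).eventually_ge_atTop C)

lemma exists_ne_Z (h3 : S3) (k : ℕ) (a : ℂ) : ∃ z ∈ Up, Z k a z ≠ 0 := by
  obtain ⟨E, hE, -, c, hc, h⟩ := h3.1 k a 0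
  refine ⟨(E : ℂ) + (2 : ℝ) * I, ?_, ?_⟩
  · show 1 < ((E : ℂ) + (2 : ℝ) * I).im
    simp
  · intro h0
    have := h 2
    rw [h0, norm_zero] at this
    linarith

/-- a small ball around a point of a horizontal segment lies in a ball around the midpoint -/
lemma ball_seg {x₀ x₁ x R T : ℝ} (hx : x ∈ uIcc x₀ x₁) :
    closedBall ((x : ℂ) + T * I) (R / 2) ⊆
      closedBall ((((x₀ + x₁) / 2 : ℝ) : ℂ) + T * I) (|x₁ - x₀| / 2 + R / 2) := by
  apply closedBall_subset_closedBall'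
  have e : ((x : ℂ) + T * I) - ((((x₀ + x₁) / 2 : ℝ) : ℂ) + T * I) =
      ((x - (x₀ + x₁) / 2 : ℝ) : ℂ) := by push_cast; ring
  rw [dist_eq_norm, e, Complex.norm_real, Real.norm_eq_abs]
  have : |x - (x₀ + x₁) / 2| ≤ |x₁ - x₀| / 2 := by
    rcases le_total x₀ x₁ with h | h
    · rw [uIcc_of_le h] at hx
      rw [abs_of_nonneg (by linarith : 0 ≤ x₁ - x₀), abs_le]
      constructor <;> linarith [hx.1, hx.2]
    · rw [uIcc_of_ge h] at hx
      rw [abs_of_nonpos (by linarith : x₁ - x₀ ≤ 0), abs_le]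
      constructor <;> linarith [hx.1, hx.2]
  linarith

/-- geometry of a ball around a point at height `T` -/
lemma ball_box {x T r : ℝ} {z : ℂ} (hz : z ∈ closedBall ((x : ℂ) + T * I) r) :
    x - r ≤ z.re ∧ z.re ≤ x + r ∧ |z.im - T| ≤ r := by
  rw [mem_closedBall, dist_eq_norm] at hz
  have h1 := (abs_re_le_norm _).trans hz
  have h2 := (abs_im_le_norm _).trans hz
  have e1 : (z - ((x : ℂ) + T * I)).re = z.re - x := by simp
  have e2 : (z - ((x : ℂ) + T * I)).im = z.im - T := by simp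
  rw [e1, abs_le] at h1
  rw [e2] at h2
  exact ⟨by linarith [h1.1], by linarith [h1.2], h2⟩

/-- few zeros in the large disc give the counting hypothesis of `S1` along the segment -/
lemma count_seg (h2 : S2) (h3 : S3) (k : ℕ) (a : ℂ) {x₀ x₁ R η T l : ℝ} {b : ℂ} (hR : 0 ≤ R)
    (hT : |x₁ - x₀| / 2 + R / 2 + 1 < T)
    (h : (zeros (Z k a) ((((x₀ + x₁) / 2 : ℝ) : ℂ) + T * I) (|x₁ - x₀| / 2 + R / 2) : ℝ) ≤
      η * Real.log T) (hη : 0 ≤ η) :
    ∀ x ∈ uIcc x₀ x₁, CountLe (fun s => Z k a s * cexp (l * (s - b))) Up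
      (closedBall ((x : ℂ) + T * I) (R / 2)) ⌊η * Real.log T⌋₊ := by
  intro x hx
  have hab : 0 ≤ |x₁ - x₀| := abs_nonneg _
  have hT0 : 0 ≤ Real.log T := Real.log_nonneg (by linarith)
  obtain ⟨g1, g2⟩ := h2 (Z k a) (diff_Z k a) (exists_ne_Z h3 k a)
  have him : ∀ y : ℝ, ((y : ℂ) + T * I).im = T := fun y => by simp
  apply g1 _ _ _ _ _ (by rw [him]; linarith)
  have h4 := g2 ((((x₀ + x₁) / 2 : ℝ) : ℂ) + T * I) ((x : ℂ) + T * I) (R / 2)
    (|x₁ - x₀| / 2 + R / 2) (by rw [him]; linarith) (ball_seg hx)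
  have h5 : zeros (Z k a) ((x : ℂ) + T * I) (R / 2) ≤ ⌊η * Real.log T⌋ := by
    rw [Int.le_floor]
    refine le_trans ?_ h
    exact_mod_cast h4
  have h6 : (⌊η * Real.log T⌋ : ℤ) = ((⌊η * Real.log T⌋₊ : ℕ) : ℤ) :=
    (Int.natCast_floor_eq_floor (by positivity)).symm
  rw [← h6]
  exact h5

/-- few zeros on the right imply the Lindelöf hypothesis -/
lemma right_to_LH (h1 : S1) (h2 : S2) (h3 : S3) (h5 : S5) (h9 : S9) (k : ℕ) (a : ℂ)
    (h : ∀ x r : ℝ, 0 < r → 1 / 2 < x - r → ∀ η : ℝ, 0 < η → ∃ T₀ : ℝ, ∀ T : ℝ, T₀ ≤ T →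
      (zeros (Z k a) ((x : ℂ) + T * I) r : ℝ) ≤ η * Real.log T) : LH := by
  apply h9 k
  intro δ₀ ε hδ₀ hε
  -- a smaller `δ`
  obtain ⟨δ, hδ, hδδ, hδ1⟩ : ∃ δ : ℝ, 0 < δ ∧ δ ≤ δ₀ ∧ δ ≤ 1 :=
    ⟨min δ₀ 1, lt_min hδ₀ one_pos, min_le_left _ _, min_le_right _ _⟩
  obtain ⟨E, hE, -, c, hc, hlow⟩ := h3.1 k a 0
  obtain ⟨Cb, hCb, hbd⟩ := h3.2 k a
  obtain ⟨A, TA, hA, hTA, hcr⟩ := h5.1 k a 0
  obtain ⟨η, hη, α, hα, T₁, hS1⟩ := h1 E (1 / 2 + δ) δ (A + 1) (ε / 2) hδ (by linarith)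
    (by linarith)
  have hlen : |(1 / 2 + δ) - E| = E - (1 / 2 + δ) := by
    rw [abs_of_nonpos (by linarith)]; ring
  obtain ⟨T₂, hT₂⟩ := h ((E + (1 / 2 + δ)) / 2) (|(1 / 2 + δ) - E| / 2 + δ / 2)
    (by rw [hlen]; linarith) (by rw [hlen]; linarith) η hη
  obtain ⟨T₃, hT₃⟩ := ev_const (max Cb (1 / c)) hα
  obtain ⟨T₄, hT₄⟩ := ev_const (1 + ‖a‖) (ε := ε / 2) (by linarith)
  obtain ⟨T₅, hT₅⟩ := ev_const (2 ^ A) (ε := (1 : ℝ)) one_pos
  refine ⟨max (max (max T₁ T₂) (max T₃ T₄)) (max T₅ (TA + E + 10)), ?_, ?_⟩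
  · refine le_max_of_le_right (le_max_of_le_right (by linarith))
  intro s hs1 hs2 hs
  have q1 : T₁ ≤ s.im := le_trans (le_trans (le_trans (le_max_left _ _) (le_max_left _ _))
    (le_max_left _ _)) hs
  have q2 : T₂ ≤ s.im := le_trans (le_trans (le_trans (le_max_right _ _) (le_max_left _ _))
    (le_max_left _ _)) hs
  have q3 : T₃ ≤ s.im := le_trans (le_trans (le_trans (le_max_left _ _) (le_max_right _ _))
    (le_max_left _ _)) hs
  have q4 : T₄ ≤ s.im := le_trans (le_trans (le_trans (le_max_right _ _) (le_max_right _ _))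
    (le_max_left _ _)) hs
  have q5 : T₅ ≤ s.im := le_trans (le_trans (le_max_left _ _) (le_max_right _ _)) hs
  have q6 : TA + E + 10 ≤ s.im := le_trans (le_trans (le_max_right _ _) (le_max_right _ _)) hs
  set T := s.im with hTdef
  have hT0 : 0 < T := by linarith
  have hT1 : 1 ≤ T := by linarith
  have key := hS1 T q1 (fun s => Z k a s * cexp ((0 : ℝ) * (s - 0))) ?_ ?_ ?_ ?_ ?_ s.re ?_
  · have e : ((s.re : ℂ) + T * I) = s := by rw [hTdef]; exact Complex.re_add_im s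
    simp only [e, ofReal_zero, zero_mul, Complex.exp_zero, mul_one] at key
    have e2 : iteratedDeriv k riemannZeta s = Z k a s + a := by unfold Z; ring
    rw [e2]
    have e3 : T ^ (ε / 2) * T ^ (ε / 2) = T ^ ε := by
      rw [← Real.rpow_add hT0]; congr 1; ring
    have e4 : 1 ≤ T ^ (ε / 2) := Real.one_le_rpow hT1 (by linarith)
    have e5 := hT₄ T q4
    have e6 := norm_nonneg a
    calc ‖Z k a s + a‖ ≤ ‖Z k a s‖ + ‖a‖ := norm_add_le _ _
      _ ≤ T ^ (ε / 2) + ‖a‖ := by linarith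
      _ ≤ T ^ (ε / 2) * (1 + ‖a‖) := by nlinarith
      _ ≤ T ^ (ε / 2) * T ^ (ε / 2) := by gcongr
      _ = T ^ ε := e3
  · exact (diff_Z k a).mul (by fun_prop)
  · intro x hx z hz
    obtain ⟨g1, g2, g3⟩ := ball_box hz
    rw [uIcc_of_ge (by linarith)] at hx
    have hx1 := hx.1
    have hx2 := hx.2
    rw [abs_le] at g3
    simp only [ofReal_zero, zero_mul, Complex.exp_zero, mul_one]
    have hz1 := hcr z (by linarith) (by linarith [g3.1])
    refine hz1.trans ?_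
    have h6 : z.im ^ A ≤ 2 ^ A * T ^ A :=
      pow_compare (H := δ) hT1 (by linarith) (by rw [abs_le]; exact g3)
        (by linarith [g3.1]) hA.le
    have h7 := hT₅ T q5
    rw [Real.rpow_one] at h7
    rw [Real.rpow_add hT0, Real.rpow_one]
    calc z.im ^ A ≤ 2 ^ A * T ^ A := h6
      _ ≤ T * T ^ A := by gcongr
      _ = T ^ A * T := by ring
  · exact count_seg h2 h3 k a hδ.le (by rw [hlen]; linarith) (hT₂ T q2) hη.le
  · intro z hz
    obtain ⟨g1, g2, g3⟩ := ball_box hz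
    simp only [ofReal_zero, zero_mul, Complex.exp_zero, mul_one]
    exact (hbd z (by linarith)).trans ((le_max_left _ _).trans (hT₃ T q3))
  · refine ⟨(E : ℂ) + T * I, mem_closedBall_self (by positivity), ?_⟩
    simp only [ofReal_zero, zero_mul, Complex.exp_zero, mul_one]
    refine le_trans ?_ (hlow T)
    have h6 := (le_max_right _ _).trans (hT₃ T q3)
    rw [Real.rpow_neg hT0.le]
    rw [div_le_iff₀ hc] at h6
    rw [inv_le_iff_one_le_mul₀ (by positivity)]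
    linarith
  · rw [uIcc_of_ge (by linarith)]
    exact ⟨by linarith, by linarith⟩

/-- two heights within a bounded distance have comparable powers, up to `T^ε` -/
lemma near_height {B H ε : ℝ} (hε : 0 < ε) : ∃ T₀ : ℝ, 1 ≤ T₀ ∧ ∀ T : ℝ,
    T₀ ≤ T → ∀ t : ℝ, |t - T| ≤ H → 0 < t ∧ ∀ b : ℝ, 0 ≤ b → b ≤ B → t ^ b ≤ T ^ (b + ε) ∧
      T ^ b ≤ t ^ (b + ε) := by
  obtain ⟨T₁, hT₁⟩ := ev_const ((2 : ℝ) ^ B) hε
  refine ⟨max T₁ 1 + 2 * |H| + 1, by linarith [le_max_right T₁ 1, abs_nonneg H], ?_⟩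
  intro T hT t ht
  have h1 := le_max_left T₁ 1
  have h2 := le_max_right T₁ 1
  have h3 := abs_nonneg H
  have h4 := le_abs_self H
  have ht' := abs_le.mp ht
  have hT1 : 1 ≤ T := by linarith
  have ht1 : max T₁ 1 ≤ t := by linarith [ht'.1]
  have ht0 : 0 < t := by linarith
  refine ⟨ht0, fun b hb hbB => ?_⟩
  have k1 := pow_compare (H := H) hT1 (by linarith) ht ht0 hb
  have k2 := pow_compare (T := t) (t := T) (b := b) (H := H) (by linarith) (by linarith [ht'.1])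
    (by rw [abs_sub_comm]; exact ht) (by linarith) hb
  have e1 := hT₁ T (by linarith)
  have e2 := hT₁ t (by linarith)
  have e3 : (2 : ℝ) ^ b ≤ 2 ^ B := Real.rpow_le_rpow_of_exponent_le (by norm_num) hbB
  constructor
  · rw [Real.rpow_add (by linarith), mul_comm]
    refine k1.trans ?_
    gcongr
    exact e3.trans e1
  · rw [Real.rpow_add ht0, mul_comm]
    refine k2.trans ?_
    gcongr
    exact e3.trans e2

/-- few zeros on the left imply the Lindelöf hypothesis -/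
lemma left_to_LH (h1 : S1) (h2 : S2) (h3 : S3) (h5 : S5) (h6 : S6) (h8 : S8) (k : ℕ) (a : ℂ)
    (h : ∀ x r : ℝ, 0 < r → x + r < 1 / 2 → ∀ η : ℝ, 0 < η → ∃ T₀ : ℝ, ∀ T : ℝ, T₀ ≤ T →
      (zeros (Z k a) ((x : ℂ) + T * I) r : ℝ) ≤ η * Real.log T) : LH := by
  apply h8 k
  intro δ₀ ε hδ₀ hε
  obtain ⟨δ, hδ, hδδ, hδ1⟩ : ∃ δ : ℝ, 0 < δ ∧ δ ≤ δ₀ ∧ δ ≤ 1 / 8 :=
    ⟨min δ₀ (1 / 8), lt_min hδ₀ (by norm_num), min_le_left _ _, min_le_right _ _⟩
  obtain ⟨A, TA, hA, hTA, hcr⟩ := h5.1 k a 1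
  obtain ⟨η, hη, α, hα, T₁, hS1⟩ := h1 (-(1 / 4)) (1 / 2 - δ) δ (A + 1) (ε / 2) hδ (by linarith)
    (by linarith)
  have hlen : |(1 / 2 - δ) - (-(1 / 4))| = 3 / 4 - δ := by
    rw [abs_of_nonneg (by linarith)]; ring
  obtain ⟨T₂, hT₂⟩ := h ((-(1 / 4) + (1 / 2 - δ)) / 2) (|(1 / 2 - δ) - (-(1 / 4))| / 2 + δ / 2)
    (by rw [hlen]; linarith) (by rw [hlen]; linarith) η hη
  obtain ⟨T₃, hT₃, hup⟩ := h5.2.1 k a 1 (1 / 8) (α / 4) (by norm_num) (by linarith)
  obtain ⟨T₄, hT₄⟩ := ev_const (1 + ‖a‖) (ε := ε / 2) (by linarith)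
  obtain ⟨T₅, hT₅, hnear⟩ := near_height (B := A + 3 + α) (H := 1) (ε := min 1 (α / 4))
    (lt_min one_pos (by linarith))
  obtain ⟨T₆, hT₆⟩ := h6 k a (-(1 / 4)) (δ / 64) (α / 4) (by norm_num) (by linarith) (by linarith)
  refine ⟨max (max (max T₁ T₂) (max T₃ T₄)) (max (max T₅ T₆) (TA + T₃ + 10)), ?_, ?_⟩
  · refine le_max_of_le_right (le_max_of_le_right (by linarith))
  intro s hs1 hs2 hs
  have q1 : T₁ ≤ s.im := le_trans (le_trans (le_trans (le_max_left _ _) (le_max_left _ _))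
    (le_max_left _ _)) hs
  have q2 : T₂ ≤ s.im := le_trans (le_trans (le_trans (le_max_right _ _) (le_max_left _ _))
    (le_max_left _ _)) hs
  have q4 : T₄ ≤ s.im := le_trans (le_trans (le_trans (le_max_right _ _) (le_max_right _ _))
    (le_max_left _ _)) hs
  have q5 : T₅ ≤ s.im := le_trans (le_trans (le_trans (le_max_left _ _) (le_max_left _ _))
    (le_max_right _ _)) hs
  have q6 : T₆ ≤ s.im := le_trans (le_trans (le_trans (le_max_right _ _) (le_max_left _ _))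
    (le_max_right _ _)) hs
  have q7 : TA + T₃ + 10 ≤ s.im := le_trans (le_trans (le_max_right _ _) (le_max_right _ _)) hs
  set T := s.im with hTdef
  have hT0 : 0 < T := by linarith
  have hT1 : 1 ≤ T := by linarith
  have hmin1 : min 1 (α / 4) ≤ 1 := min_le_left _ _
  have hmin2 : min 1 (α / 4) ≤ α / 4 := min_le_right _ _
  have key := hS1 T q1 (fun s => Z k a s * cexp ((Real.log T : ℝ) * (s - (1 / 2 : ℂ)))) ?_ ?_ ?_ ?_
    ?_ s.re ?_
  · have e : ((s.re : ℂ) + T * I) = s := by rw [hTdef]; exact Complex.re_add_im s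
    rw [e] at key
    have hn := norm_ZL k a hT0 s
    unfold ZL at hn
    rw [hn] at key
    have e2 : iteratedDeriv k riemannZeta s = Z k a s + a := by unfold Z; ring
    rw [e2]
    have e3 : T ^ (1 / 2 - s.re + ε) = T ^ (1 / 2 - s.re) * (T ^ (ε / 2) * T ^ (ε / 2)) := by
      rw [← Real.rpow_add hT0, ← Real.rpow_add hT0]; congr 1; ring
    have e4 : 1 ≤ T ^ (ε / 2) := Real.one_le_rpow hT1 (by linarith)
    have e5 := hT₄ T q4
    have e6 := norm_nonneg a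
    have e7 : 1 ≤ T ^ (1 / 2 - s.re) := Real.one_le_rpow hT1 (by linarith)
    have e8 : ‖Z k a s‖ ≤ T ^ (1 / 2 - s.re) * T ^ (ε / 2) := by
      have e9 : T ^ (s.re - 1 / 2) * T ^ (1 / 2 - s.re) = 1 := by
        rw [← Real.rpow_add hT0]; simp
      calc ‖Z k a s‖ = ‖Z k a s‖ * T ^ (s.re - 1 / 2) * T ^ (1 / 2 - s.re) := by
            rw [mul_assoc, e9, mul_one]
        _ ≤ T ^ (ε / 2) * T ^ (1 / 2 - s.re) := by gcongr
        _ = _ := mul_comm _ _
    have e10 : 1 ≤ T ^ (1 / 2 - s.re) * T ^ (ε / 2) := by nlinarith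
    calc ‖Z k a s + a‖ ≤ ‖Z k a s‖ + ‖a‖ := norm_add_le _ _
      _ ≤ T ^ (1 / 2 - s.re) * T ^ (ε / 2) + ‖a‖ := by linarith
      _ ≤ (T ^ (1 / 2 - s.re) * T ^ (ε / 2)) * (1 + ‖a‖) := by nlinarith
      _ ≤ (T ^ (1 / 2 - s.re) * T ^ (ε / 2)) * T ^ (ε / 2) := by gcongr
      _ = T ^ (1 / 2 - s.re + ε) := by rw [e3]; ring
  · exact (diff_Z k a).mul (by fun_prop)
  · intro x hx z hz
    obtain ⟨g1, g2, g3⟩ := ball_box hz
    rw [uIcc_of_le (by linarith)] at hx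
    have hx1 := hx.1
    have hx2 := hx.2
    have g3' := abs_le.mp g3
    have hz1 := hcr z (by linarith) (by linarith [g3'.1])
    have hn := norm_ZL k a hT0 z
    unfold ZL at hn
    rw [hn]
    obtain ⟨n1, n2⟩ := hnear T q5 z.im (by linarith)
    have n3 := (n2 A hA.le (by linarith)).1
    have e7 : T ^ (z.re - 1 / 2) ≤ 1 := by
      calc T ^ (z.re - 1 / 2) ≤ T ^ (0 : ℝ) := Real.rpow_le_rpow_of_exponent_le hT1 (by linarith)
        _ = 1 := Real.rpow_zero _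
    have e8 : T ^ (A + min 1 (α / 4)) ≤ T ^ (A + 1) :=
      Real.rpow_le_rpow_of_exponent_le hT1 (by linarith)
    calc ‖Z k a z‖ * T ^ (z.re - 1 / 2) ≤ ‖Z k a z‖ * 1 := by gcongr
      _ = ‖Z k a z‖ := mul_one _
      _ ≤ z.im ^ A := hz1
      _ ≤ T ^ (A + 1) := n3.trans e8
  · exact count_seg h2 h3 k a hδ.le (by rw [hlen]; linarith) (hT₂ T q2) hη.le
  · intro z hz
    obtain ⟨g1, g2, g3⟩ := ball_box hz
    have g3' := abs_le.mp g3
    have hn := norm_ZL k a hT0 z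
    unfold ZL at hn
    rw [hn]
    have hz1 := hup z (by linarith) (by linarith) (by linarith [g3'.1])
    obtain ⟨n1, n2⟩ := hnear T q5 z.im (by linarith)
    have n3 := (n2 (1 / 2 - z.re + α / 4) (by linarith) (by linarith)).1
    calc ‖Z k a z‖ * T ^ (z.re - 1 / 2)
        ≤ T ^ (1 / 2 - z.re + α / 4 + min 1 (α / 4)) * T ^ (z.re - 1 / 2) := by
          gcongr
          exact hz1.trans n3
      _ = T ^ (α / 4 + min 1 (α / 4)) := by rw [← Real.rpow_add hT0]; congr 1; ring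
      _ ≤ T ^ α := Real.rpow_le_rpow_of_exponent_le hT1 (by linarith)
  · obtain ⟨w, hw, hw2⟩ := hT₆ T q6
    refine ⟨w, hw, ?_⟩
    have hn := norm_ZL k a hT0 w
    unfold ZL at hn
    rw [hn]
    calc T ^ (-α) ≤ T ^ (-(α / 4)) := Real.rpow_le_rpow_of_exponent_le hT1 (by linarith)
      _ = T ^ (1 / 2 - w.re - α / 4) * T ^ (w.re - 1 / 2) := by
          rw [← Real.rpow_add hT0]; congr 1; ring
      _ ≤ ‖Z k a w‖ * T ^ (w.re - 1 / 2) := by gcongr
  · rw [uIcc_of_le (by linarith)]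
    exact ⟨by linarith, by linarith⟩

/-- the Lindelöf hypothesis implies few zeros on the right -/
lemma LH_to_right (h3 : S3) (h5 : S5) (h2 : S2) (h7 : S7) (k : ℕ) (a : ℂ) (hLH : LH) :
    ∀ x r : ℝ, 0 < r → 1 / 2 < x - r → ∀ η : ℝ, 0 < η → ∃ T₀ : ℝ, ∀ T : ℝ, T₀ ≤ T →
      (zeros (Z k a) ((x : ℂ) + T * I) r : ℝ) ≤ η * Real.log T := by
  intro x r hr hxr η hη
  obtain ⟨δ, hδ⟩ : ∃ δ : ℝ, δ = x - r - 1 / 2 := ⟨_, rfl⟩
  have hδ0 : 0 < δ := by linarith
  obtain ⟨E, hE, hEK, c, hc, hlow⟩ := h3.1 k a (x + r + 2)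
  obtain ⟨M, hM⟩ := h7.2.1 r (δ / 4) hr (by linarith)
  obtain ⟨ρ, hρ⟩ : ∃ ρ : ℝ, ρ = E - 1 / 2 - δ + δ / 4 := ⟨_, rfl⟩
  obtain ⟨R, hR⟩ : ∃ R : ℝ, R = E - 1 / 2 - δ / 2 := ⟨_, rfl⟩
  have hρ0 : 0 < ρ := by rw [hρ]; linarith
  have hρR : ρ < R := by rw [hρ, hR]; linarith
  obtain ⟨ℓ, hℓ⟩ : ∃ ℓ : ℝ, ℓ = Real.log (R / ρ) := ⟨_, rfl⟩
  have hℓ0 : 0 < ℓ := by rw [hℓ]; exact Real.log_pos (by rw [lt_div_iff₀ hρ0]; linarith)
  obtain ⟨ε, hε⟩ : ∃ ε : ℝ, ε = η * ℓ / (4 * (M + 1)) := ⟨_, rfl⟩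
  have hM0 : (0 : ℝ) ≤ M := Nat.cast_nonneg M
  have hε0 : 0 < ε := by rw [hε]; positivity
  obtain ⟨T₁, hT₁, hup⟩ := h5.2.2.2 hLH k a (δ / 2) ε (by linarith) hε0
  obtain ⟨T₂, hT₂, hnear⟩ := near_height (B := ε) (H := r + R) (ε := ε) hε0
  obtain ⟨T₃, hT₃⟩ := ev_const (1 / c) (ε := 2 * ε) (by linarith)
  refine ⟨T₁ + T₂ + |T₃| + r + R + δ + 10, ?_⟩
  intro T hT
  have p3 := abs_nonneg T₃
  have p3' := le_abs_self T₃
  have hT1 : 1 ≤ T := by linarith
  have hT0 : 0 < T := by linarith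
  have hL0 : 0 ≤ Real.log T := Real.log_nonneg hT1
  have him : ((x : ℂ) + T * I).im = T := by simp
  have key := hM (Z k a) ((x : ℂ) + T * I) (2 * (2 * ε * Real.log T) / ℓ) (diff_Z k a)
    (exists_ne_Z h3 k a) (by rw [him]; linarith) ?_
  · refine key.trans ?_
    have e : (M : ℝ) * (2 * (2 * ε * Real.log T) / ℓ) = (M / (M + 1)) * (η * Real.log T) := by
      rw [hε]; field_simp; ring
    rw [e]
    have : (M : ℝ) / (M + 1) ≤ 1 := by rw [div_le_one (by positivity)]; linarith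
    have h0 : 0 ≤ η * Real.log T := by positivity
    nlinarith
  · intro p hp
    obtain ⟨g1, g2, g3⟩ := ball_box hp
    have g3' := abs_le.mp g3
    set w : ℂ := (E : ℂ) + p.im * I with hw
    have hwim : w.im = p.im := by simp [hw]
    have hwre : w.re = E := by simp [hw]
    have hsub : closedBall p (δ / 4) ⊆ closedBall w ρ := by
      apply closedBall_subset_closedBall'
      have e : p - w = ((p.re - E : ℝ) : ℂ) := by
        apply Complex.ext <;> simp [hw]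
      rw [dist_eq_norm, e, Complex.norm_real, Real.norm_eq_abs, abs_of_nonpos (by linarith), hρ]
      linarith
    have m1 := (h2 (Z k a) (diff_Z k a) (exists_ne_Z h3 k a)).2 w p (δ / 4) ρ
      (by rw [hwim]; linarith) hsub
    have m2 := h7.1 (Z k a) w ρ R (2 * ε * Real.log T) hρ0 hρR (by positivity)
      (by rw [hwim]; linarith) (diff_Z k a) ?_ ?_
    · rw [hℓ]
      refine le_trans ?_ m2
      exact_mod_cast m1
    · intro z hz
      have hz' : z ∈ closedBall ((E : ℂ) + p.im * I) R := hz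
      obtain ⟨f1, f2, f3⟩ := ball_box hz'
      have f3' := abs_le.mp f3
      have hz1 := hup z (by rw [hR] at f1; linarith) (by linarith)
      obtain ⟨n1, n2⟩ := hnear T (by linarith) z.im (by rw [abs_le]; constructor <;> linarith)
      have n3 := (n2 ε hε0.le le_rfl).1
      rw [show 2 * ε * Real.log T = Real.log T * (ε + ε) by ring, ← Real.rpow_def_of_pos hT0]
      exact hz1.trans n3
    · refine le_trans ?_ (hlow p.im)
      have h6 := hT₃ T (by linarith)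
      rw [Real.exp_neg, show 2 * ε * Real.log T = Real.log T * (2 * ε) by ring,
        ← Real.rpow_def_of_pos hT0, inv_le_iff_one_le_mul₀ (by positivity)]
      rw [div_le_iff₀ hc] at h6
      linarith

/-- the Lindelöf hypothesis implies few zeros on the left -/
lemma LH_to_left (h3 : S3) (h5 : S5) (h2 : S2) (h6 : S6) (h7 : S7) (k : ℕ) (a : ℂ) (hLH : LH) :
    ∀ x r : ℝ, 0 < r → x + r < 1 / 2 → ∀ η : ℝ, 0 < η → ∃ T₀ : ℝ, ∀ T : ℝ, T₀ ≤ T →
      (zeros (Z k a) ((x : ℂ) + T * I) r : ℝ) ≤ η * Real.log T := by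
  intro x r hr hxr η hη
  obtain ⟨δ, hδ⟩ : ∃ δ : ℝ, δ = min (1 / 2 - x - r) 1 := ⟨_, rfl⟩
  have hδ0 : 0 < δ := by rw [hδ]; exact lt_min (by linarith) one_pos
  have hδ1 : δ ≤ 1 := by rw [hδ]; exact min_le_right _ _
  have hδx : δ ≤ 1 / 2 - x - r := by rw [hδ]; exact min_le_left _ _
  obtain ⟨d, hd⟩ : ∃ d : ℝ, d = δ / 8 := ⟨_, rfl⟩
  have hd0 : 0 < d := by rw [hd]; linarith
  obtain ⟨K, hK⟩ : ∃ K : ℝ, K = |x| + r + 2 := ⟨_, rfl⟩
  have hxa := abs_nonneg x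
  have hxa' := neg_abs_le x
  have hK0 : 2 ≤ K := by rw [hK]; linarith
  obtain ⟨M, hM⟩ := h7.2.1 r d hr hd0
  obtain ⟨ρ, hρ⟩ : ∃ ρ : ℝ, ρ = K + 1 / 2 - δ + 2 * d := ⟨_, rfl⟩
  obtain ⟨R, hR⟩ : ∃ R : ℝ, R = K + 1 / 2 - δ + 3 * d := ⟨_, rfl⟩
  have hρ0 : 0 < ρ := by rw [hρ]; linarith
  have hρR : ρ < R := by rw [hρ, hR]; linarith
  obtain ⟨ℓ, hℓ⟩ : ∃ ℓ : ℝ, ℓ = Real.log (R / ρ) := ⟨_, rfl⟩
  have hℓ0 : 0 < ℓ := by rw [hℓ]; exact Real.log_pos (by rw [lt_div_iff₀ hρ0]; linarith)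
  obtain ⟨ε, hε⟩ : ∃ ε : ℝ, ε = η * ℓ / (4 * (M + 1)) := ⟨_, rfl⟩
  have hM0 : (0 : ℝ) ≤ M := Nat.cast_nonneg M
  have hε0 : 0 < ε := by rw [hε]; positivity
  obtain ⟨T₁, hT₁, hup⟩ := h5.2.2.1 hLH k a (K + 1 + R) (δ / 2) ε (by linarith) hε0
  obtain ⟨T₂, hT₂, hnear⟩ := near_height (B := K + R + 3 + ε) (H := r + R + 1) (ε := ε) hε0
  obtain ⟨T₃, hT₃⟩ := h6 k a (-K) d ε (by linarith) hd0 hε0
  refine ⟨T₁ + T₂ + |T₃| + r + R + δ + 10, ?_⟩
  intro T hT
  have p3 := abs_nonneg T₃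
  have p3' := le_abs_self T₃
  have hT1 : 1 ≤ T := by linarith
  have hT0 : 0 < T := by linarith
  have hL0 : 0 ≤ Real.log T := Real.log_nonneg hT1
  have him : ((x : ℂ) + T * I).im = T := by simp
  have key := hM (Z k a) ((x : ℂ) + T * I) (2 * (2 * ε * Real.log T) / ℓ) (diff_Z k a)
    (exists_ne_Z h3 k a) (by rw [him]; linarith) ?_
  · refine key.trans ?_
    have e : (M : ℝ) * (2 * (2 * ε * Real.log T) / ℓ) = (M / (M + 1)) * (η * Real.log T) := by
      rw [hε]; field_simp; ring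
    rw [e]
    have : (M : ℝ) / (M + 1) ≤ 1 := by rw [div_le_one (by positivity)]; linarith
    have h0 : 0 ≤ η * Real.log T := by positivity
    nlinarith
  · intro p hp
    obtain ⟨g1, g2, g3⟩ := ball_box hp
    have g3' := abs_le.mp g3
    obtain ⟨w, hw, hwlow⟩ := hT₃ p.im (by linarith)
    obtain ⟨e1, e2, e3⟩ := ball_box hw
    have e3' := abs_le.mp e3
    have hwp : ‖p - w‖ ≤ K + 1 / 2 - δ + d := by
      have q1 : p - w = ((p.re + K : ℝ) : ℂ) + ((((-K : ℝ) : ℂ) + p.im * I) - w) := by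
        conv_lhs => rw [← Complex.re_add_im p]
        push_cast
        ring
      have q2 : ‖((((-K : ℝ) : ℂ) + p.im * I) - w)‖ ≤ d := by
        rw [← dist_eq_norm, dist_comm]; exact hw
      rw [q1]
      refine (norm_add_le _ _).trans ?_
      rw [Complex.norm_real, Real.norm_eq_abs, abs_of_nonneg (by linarith)]
      linarith
    have hsub : closedBall p d ⊆ closedBall w ρ := by
      apply closedBall_subset_closedBall'
      rw [dist_eq_norm, hρ]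
      linarith
    have m1 := (h2 (Z k a) (diff_Z k a) (exists_ne_Z h3 k a)).2 w p d ρ (by linarith) hsub
    have m3 := h7.2.2 (Z k a) w (1 / 2) ρ (Real.log T) (diff_Z k a) (by linarith)
    have m2 := h7.1 (ZL k a T) w ρ R (2 * ε * Real.log T) hρ0 hρR (by positivity)
      (by linarith) (diff_ZL k a T) ?_ ?_
    · rw [hℓ]
      have m4 : zeros (ZL k a T) w ρ = zeros (Z k a) w ρ := m3
      rw [m4] at m2
      refine le_trans ?_ m2
      exact_mod_cast m1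
    · intro z hz
      have hz' : z ∈ closedBall ((w.re : ℂ) + w.im * I) R := by
        rw [Complex.re_add_im]; exact hz
      obtain ⟨f1, f2, f3⟩ := ball_box hz'
      have f3' := abs_le.mp f3
      have hz2 : z.re ≤ 1 / 2 - δ / 2 := by rw [hR] at f2; linarith
      have hz1 := hup z (by linarith) hz2 (by linarith)
      obtain ⟨n1, n2⟩ := hnear T (by linarith) z.im (by rw [abs_le]; constructor <;> linarith)
      have n3 := (n2 (1 / 2 - z.re + ε) (by linarith) (by linarith)).1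
      rw [show 2 * ε * Real.log T = Real.log T * (ε + ε) by ring, ← Real.rpow_def_of_pos hT0,
        norm_ZL k a hT0]
      calc ‖Z k a z‖ * T ^ (z.re - 1 / 2) ≤ T ^ (1 / 2 - z.re + ε + ε) * T ^ (z.re - 1 / 2) := by
            gcongr
            exact hz1.trans n3
        _ = T ^ (ε + ε) := by rw [← Real.rpow_add hT0]; congr 1; ring
    · rw [norm_ZL k a hT0, Real.exp_neg, show 2 * ε * Real.log T = Real.log T * (ε + ε) by ring,
        ← Real.rpow_def_of_pos hT0, ← Real.rpow_neg hT0.le]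
      obtain ⟨n1, n2⟩ := hnear T (by linarith) p.im (by rw [abs_le]; constructor <;> linarith)
      have n3 : T ^ (1 / 2 - w.re - ε - ε) ≤ p.im ^ (1 / 2 - w.re - ε) := by
        by_cases hcase : 0 ≤ 1 / 2 - w.re - ε - ε
        · have := (n2 (1 / 2 - w.re - ε - ε) hcase (by linarith)).2
          refine this.trans (le_of_eq ?_)
          congr 1; ring
        · push Not at hcase
          have hp1 : 1 ≤ p.im := by linarith
          by_cases hc2 : 0 ≤ 1 / 2 - w.re - ε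
          · calc T ^ (1 / 2 - w.re - ε - ε) ≤ T ^ (0 : ℝ) :=
                  Real.rpow_le_rpow_of_exponent_le hT1 hcase.le
              _ = 1 := Real.rpow_zero _
              _ ≤ _ := Real.one_le_rpow hp1 hc2
          · push Not at hc2
            have n4 := (n2 (-(1 / 2 - w.re - ε)) (by linarith) (by linarith)).1
            have n5 : 0 < p.im ^ (-(1 / 2 - w.re - ε)) := by positivity
            have n6 : 0 < T ^ (-(1 / 2 - w.re - ε) + ε) := by positivity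
            have n7 := inv_anti₀ n5 n4
            rw [← Real.rpow_neg hT0.le, ← Real.rpow_neg n1.le] at n7
            refine le_trans (le_of_eq ?_) (n7.trans (le_of_eq ?_)) <;> congr 1 <;> ring
      calc T ^ (-(ε + ε)) = T ^ (1 / 2 - w.re - ε - ε) * T ^ (w.re - 1 / 2) := by
            rw [← Real.rpow_add hT0]; congr 1; ring
        _ ≤ p.im ^ (1 / 2 - w.re - ε) * T ^ (w.re - 1 / 2) := by gcongr
        _ ≤ ‖Z k a w‖ * T ^ (w.re - 1 / 2) := by gcongr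

theorem main_of (h1 : S1) (h2 : S2) (h3 : S3) (h5 : S5) (h6 : S6) (h7 : S7) (h8 : S8) (h9 : S9) :
    Main := by
  intro k a
  tfae_have 1 → 2 := LH_to_left h3 h5 h2 h6 h7 k a
  tfae_have 1 → 3 := LH_to_right h3 h5 h2 h7 k a
  tfae_have 2 → 1 := left_to_LH h1 h2 h3 h5 h6 h8 k a
  tfae_have 3 → 1 := right_to_LH h1 h2 h3 h5 h9 k a
  tfae_finish

end Pool.Agent.SPZ
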