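import Pool.Agent.SPZ.Targets

/-!
# Taylor polynomial of a holomorphic function and growth of polynomials
-/

set_option autoImplicit false

namespace Pool.Agent.SPZ

open Complex Metric Set Filter Topology

/-- a polynomial has a primitive of degree one more -/
lemma exists_primitive (Q : Polynomial ℂ) (k : ℕ) (hQ : Q.natDegree ≤ k) :
    ∃ P : Polynomial ℂ, P.natDegree ≤ k + 1 ∧ Polynomial.derivative P = Q := by
  refine ⟨∑ i ∈ Finset.range (k + 1), Polynomial.monomial (i + 1) (Q.coeff i / (i + 1)), ?_, ?_⟩
  · apply Polynomial.natDegree_sum_le_of_forall_le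
    intro i hi
    refine (Polynomial.natDegree_monomial_le _).trans ?_
    have := Finset.mem_range.1 hi
    omega
  · rw [Polynomial.derivative_sum]
    conv_rhs => rw [Polynomial.as_sum_range' Q (k + 1) (by omega)]
    refine Finset.sum_congr rfl fun i _ => ?_
    rw [Polynomial.derivative_monomial]
    congr 1
    have : (i : ℂ) + 1 ≠ 0 := Nat.cast_add_one_ne_zero i
    push_cast
    field_simp

theorem p1 : P1 := by
  intro k
  induction k with
  | zero =>
    intro f U z₀ _ _ _ _
    refine ⟨0, by simp, fun z _ M hM => ?_⟩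
    have := hM z (right_mem_segment ℝ z₀ z)
    simpa using this
  | succ k ih =>
    intro f U z₀ hU hc hf hz₀
    obtain ⟨Q, hQ, hQb⟩ := ih (deriv f) U z₀ hU hc (hf.deriv hU) hz₀
    obtain ⟨P, hP, hPQ⟩ := exists_primitive Q k hQ
    refine ⟨P + Polynomial.C (f z₀ - P.eval z₀), ?_, fun z hz M hM => ?_⟩
    · refine (Polynomial.natDegree_add_le _ _).trans ?_
      rw [Polynomial.natDegree_C]
      omega
    have hseg : segment ℝ z₀ z ⊆ U := hc.segment_subset hz₀ hz
    have hM0 : 0 ≤ M := (norm_nonneg _).trans (hM z (right_mem_segment ℝ z₀ z))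
    have hder : ∀ w ∈ segment ℝ z₀ z, HasDerivWithinAt (fun w => f w - P.eval w)
        (deriv f w - Q.eval w) (segment ℝ z₀ z) w := by
      intro w hw
      have h1 : HasDerivAt f (deriv f w) w :=
        ((hf w (hseg hw)).differentiableAt (hU.mem_nhds (hseg hw))).hasDerivAt
      have h2 : HasDerivAt (fun w => P.eval w) (Q.eval w) w := by
        have := P.hasDerivAt w
        rwa [hPQ] at this
      exact (h1.sub h2).hasDerivWithinAt
    have hbd : ∀ w ∈ segment ℝ z₀ z, ‖deriv f w - Q.eval w‖ ≤ M * ‖z - z₀‖ ^ k := by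
      intro w hw
      have hsub : segment ℝ z₀ w ⊆ segment ℝ z₀ z :=
        (convex_segment z₀ z).segment_subset (left_mem_segment ℝ z₀ z) hw
      have h1 := hQb w (hseg hw) M (fun v hv => by
        have := hM v (hsub hv)
        rwa [iteratedDeriv_succ'] at this)
      refine h1.trans ?_
      have h2 : ‖w - z₀‖ ≤ ‖z - z₀‖ := by
        rw [segment_eq_image'] at hw
        obtain ⟨θ, hθ, rfl⟩ := hw
        simp only [add_sub_cancel_left, norm_smul, Real.norm_of_nonneg hθ.1]
        nlinarith [hθ.2, norm_nonneg (z - z₀)]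
      gcongr
    have h3 := (convex_segment z₀ z).norm_image_sub_le_of_norm_hasDerivWithin_le hder hbd
      (left_mem_segment ℝ z₀ z) (right_mem_segment ℝ z₀ z)
    have h4 : f z - (P + Polynomial.C (f z₀ - P.eval z₀)).eval z =
        (f z - P.eval z) - (f z₀ - P.eval z₀) := by
      rw [Polynomial.eval_add, Polynomial.eval_C]
      ring
    rw [h4]
    refine h3.trans_eq ?_
    ring

/-- derivatives of polynomials as functions -/
lemma iteratedDeriv_poly (P : Polynomial ℂ) (j : ℕ) :
    iteratedDeriv j (fun x => P.eval x) = fun x => (Polynomial.derivative^[j] P).eval x := by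
  induction j with
  | zero => simp
  | succ j ih =>
    rw [iteratedDeriv_succ, ih, Function.iterate_succ_apply']
    funext x
    exact (Polynomial.hasDerivAt _ x).deriv

theorem p2 : P2 := by
  intro P k c z r m hP hr hm hz
  have hm0 : 0 ≤ m := (norm_nonneg _).trans (hm c (mem_closedBall_self hr.le))
  have hcoef : ∀ j, ‖(Polynomial.taylor c P).coeff j‖ ≤ m / r ^ j := by
    intro j
    have h1 := norm_iteratedDeriv_le_of_forall_mem_sphere_norm_le (f := fun x => P.eval x) (c := c)
      j hr (P.differentiable.diffContOnCl) (fun w hw => hm w (sphere_subset_closedBall hw))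
    rw [iteratedDeriv_poly, ← Polynomial.factorial_smul_hasseDeriv] at h1
    have h0 : ‖(((j.factorial • Polynomial.hasseDeriv j) : Polynomial ℂ →ₗ[ℂ] Polynomial ℂ)
        P).eval c‖ = j.factorial * ‖(Polynomial.hasseDeriv j P).eval c‖ := by
      rw [LinearMap.smul_apply, Polynomial.eval_smul, nsmul_eq_mul, norm_mul,
        Complex.norm_natCast]
    rw [h0] at h1
    rw [Polynomial.taylor_coeff]
    have hf : (0 : ℝ) < j.factorial := by exact_mod_cast Nat.factorial_pos j
    have h2 : (j.factorial : ℝ) * m / r ^ j = j.factorial * (m / r ^ j) := by ring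
    rw [h2] at h1
    exact le_of_mul_le_mul_left h1 hf
  have hq : 1 ≤ ‖z - c‖ / r := (one_le_div hr).2 hz
  rw [← Polynomial.taylor_eval_sub c P z, Polynomial.eval_eq_sum_range' (n := k + 1)
    (by rw [Polynomial.natDegree_taylor]; omega)]
  refine (norm_sum_le _ _).trans ?_
  have h3 : ∀ j ∈ Finset.range (k + 1), ‖(Polynomial.taylor c P).coeff j * (z - c) ^ j‖ ≤
      m * (‖z - c‖ / r) ^ k := by
    intro j hj
    rw [norm_mul, norm_pow]
    calc ‖(Polynomial.taylor c P).coeff j‖ * ‖z - c‖ ^ j ≤ m / r ^ j * ‖z - c‖ ^ j :=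
          mul_le_mul_of_nonneg_right (hcoef j) (by positivity)
      _ = m * (‖z - c‖ / r) ^ j := by rw [div_pow]; ring
      _ ≤ m * (‖z - c‖ / r) ^ k := by
          apply mul_le_mul_of_nonneg_left _ hm0
          exact pow_le_pow_right₀ hq (by have := Finset.mem_range.1 hj; omega)
  refine (Finset.sum_le_sum h3).trans_eq ?_
  rw [Finset.sum_const, Finset.card_range, nsmul_eq_mul]
  push_cast
  ring

end Pool.Agent.SPZ
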