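import Pool.Agent.SPZ.Targets

/-!
# S3: lower bound for `ζ^(k) - a` far to the right
-/

set_option autoImplicit false

namespace Pool.Agent.SPZ

open Complex Metric Set Filter Topology LSeries

lemma logMul_val (k n : ℕ) : (logMul^[k] (1 : ℕ → ℂ)) n = (Complex.log n) ^ k := by
  induction k with
  | zero => simp
  | succ k ih =>
    rw [Function.iterate_succ_apply', LSeries.logMul, ih, pow_succ]
    ring

lemma abscissa_logMul (k : ℕ) {s : ℂ} (hs : 1 < s.re) :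
    abscissaOfAbsConv (logMul^[k] (1 : ℕ → ℂ)) < s.re := by
  rw [LSeries.absicssaOfAbsConv_logPowMul, LSeries.abscissaOfAbsConv_one]
  exact_mod_cast hs

lemma summable_logMul (k : ℕ) {s : ℂ} (hs : 1 < s.re) :
    LSeriesSummable (logMul^[k] (1 : ℕ → ℂ)) s :=
  LSeriesSummable_of_abscissaOfAbsConv_lt_re (abscissa_logMul k hs)

lemma zeta_deriv_eq (k : ℕ) {s : ℂ} (hs : 1 < s.re) :
    iteratedDeriv k riemannZeta s = (-1) ^ k * LSeries (logMul^[k] (1 : ℕ → ℂ)) s := by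
  have h1 : Set.EqOn riemannZeta (LSeries 1) {z : ℂ | 1 < z.re} := by
    intro z hz
    exact (LSeries_one_eq_riemannZeta hz).symm
  have h2 := Set.EqOn.iteratedDeriv_of_isOpen h1 (isOpen_lt continuous_const continuous_re) k
  rw [h2 hs]
  apply LSeries_iteratedDeriv
  rw [LSeries.abscissaOfAbsConv_one]
  exact_mod_cast hs

lemma term_le {g : ℕ → ℂ} {m n : ℕ} (hm : 1 ≤ m) (hn : m ≤ n) {s : ℂ} (hs : 2 ≤ s.re) :
    ‖term g s n‖ ≤ (m : ℝ) ^ (-(s.re - 2)) * ‖term g 2 n‖ := by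
  have hn0 : n ≠ 0 := by omega
  rw [norm_term_eq, norm_term_eq, if_neg hn0, if_neg hn0]
  have hnr : (0 : ℝ) < n := by
    have : 0 < n := by omega
    exact_mod_cast this
  have hmr : (0 : ℝ) < m := by
    have : 0 < m := by omega
    exact_mod_cast this
  have h2 : ((2 : ℂ).re) = 2 := by simp
  rw [h2]
  have e1 : (n : ℝ) ^ s.re = (n : ℝ) ^ (2 : ℝ) * (n : ℝ) ^ (s.re - 2) := by
    rw [← Real.rpow_add hnr]
    congr 1
    ring
  have e2 : (m : ℝ) ^ (s.re - 2) ≤ (n : ℝ) ^ (s.re - 2) := by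
    apply Real.rpow_le_rpow hmr.le _ (by linarith)
    exact_mod_cast hn
  have hp : 0 < (m : ℝ) ^ (s.re - 2) := Real.rpow_pos_of_pos hmr _
  have hq : 0 < (n : ℝ) ^ (2 : ℝ) := Real.rpow_pos_of_pos hnr _
  rw [e1, Real.rpow_neg hmr.le, ← div_eq_inv_mul, div_div]
  apply div_le_div_of_nonneg_left (norm_nonneg _) (by positivity)
  exact mul_le_mul_of_nonneg_left e2 hq.le

/-- bound for the tails -/
lemma tail_le (k : ℕ) : ∃ C : ℝ, 0 < C ∧ ∀ m : ℕ, 1 ≤ m → ∀ s : ℂ, 2 ≤ s.re →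
    ‖∑' n : ℕ, term (logMul^[k] (1 : ℕ → ℂ)) s (n + m)‖ ≤ (m : ℝ) ^ (-(s.re - 2)) * C := by
  set g := logMul^[k] (1 : ℕ → ℂ) with hg
  have hsum : Summable fun n => ‖term g 2 n‖ := (summable_logMul k (by simp)).norm
  refine ⟨∑' n, ‖term g 2 n‖ + 1, ?_, ?_⟩
  · have : 0 ≤ ∑' n, ‖term g 2 n‖ := tsum_nonneg fun n => norm_nonneg _
    linarith
  intro m hm s hs
  have hsm : Summable fun n => ‖term g 2 (n + m)‖ := (summable_nat_add_iff m).2 hsum
  have hb : ∀ n, ‖term g s (n + m)‖ ≤ (m : ℝ) ^ (-(s.re - 2)) * ‖term g 2 (n + m)‖ :=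
    fun n => term_le hm (by omega) hs
  have h1 := tsum_of_norm_bounded (hsm.mul_left ((m : ℝ) ^ (-(s.re - 2)))).hasSum hb
  refine h1.trans ?_
  rw [tsum_mul_left]
  have hp : 0 ≤ (m : ℝ) ^ (-(s.re - 2)) := Real.rpow_nonneg (Nat.cast_nonneg _) _
  apply mul_le_mul_of_nonneg_left _ hp
  have h2 := hsum.sum_add_tsum_nat_add m
  have h3 : 0 ≤ ∑ i ∈ Finset.range m, ‖term g 2 i‖ :=
    Finset.sum_nonneg fun n _ => norm_nonneg _
  linarith

lemma lseries_two (k : ℕ) {s : ℂ} (hs : 1 < s.re) :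
    LSeries (logMul^[k] (1 : ℕ → ℂ)) s = (0 : ℂ) ^ k +
      ∑' n : ℕ, term (logMul^[k] (1 : ℕ → ℂ)) s (n + 2) := by
  have h := (summable_logMul k hs).sum_add_tsum_nat_add 2
  rw [LSeries, ← h]
  congr 1
  rw [Finset.sum_range_succ, Finset.sum_range_one, term_zero, zero_add,
    term_of_ne_zero one_ne_zero, logMul_val]
  simp

lemma lseries_three (k : ℕ) {s : ℂ} (hs : 1 < s.re) :
    LSeries (logMul^[k] (1 : ℕ → ℂ)) s = (0 : ℂ) ^ k + (Complex.log 2) ^ k / 2 ^ s +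
      ∑' n : ℕ, term (logMul^[k] (1 : ℕ → ℂ)) s (n + 3) := by
  have h := (summable_logMul k hs).sum_add_tsum_nat_add 3
  rw [LSeries, ← h]
  congr 1
  rw [Finset.sum_range_succ, Finset.sum_range_succ, Finset.sum_range_one, term_zero, zero_add,
    term_of_ne_zero one_ne_zero, term_of_ne_zero two_ne_zero, logMul_val, logMul_val]
  simp

lemma neg_one_zero (k : ℕ) : (-1 : ℂ) ^ k * (0 : ℂ) ^ k = (0 : ℂ) ^ k := by
  rw [← mul_pow]
  simp

lemma norm_neg_one_pow (k : ℕ) (z : ℂ) : ‖(-1 : ℂ) ^ k * z‖ = ‖z‖ := by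
  rw [norm_mul, norm_pow, norm_neg, norm_one, one_pow, one_mul]

lemma two_rpow (E : ℝ) : ((2 : ℕ) : ℝ) ^ (-(E - 2)) = 4 * (1 / 2 : ℝ) ^ E := by
  rw [show -(E - 2) = 2 + -E by ring, Real.rpow_add (by norm_num),
    Real.rpow_neg (by norm_num), one_div, Real.inv_rpow (by norm_num)]
  norm_num

lemma three_rpow (E : ℝ) :
    ((3 : ℕ) : ℝ) ^ (-(E - 2)) = 9 * ((2 / 3 : ℝ) ^ E * (1 / 2 : ℝ) ^ E) := by
  rw [← Real.mul_rpow (by norm_num) (by norm_num), show (2 / 3 : ℝ) * (1 / 2) = 3⁻¹ by norm_num,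
    show -(E - 2) = 2 + -E by ring, Real.rpow_add (by norm_num),
    Real.rpow_neg (by norm_num), Real.inv_rpow (by norm_num)]
  norm_num

lemma s3_a (k : ℕ) (a : ℂ) (K : ℝ) : ∃ E : ℝ, 2 ≤ E ∧ K ≤ E ∧ ∃ c : ℝ, 0 < c ∧
    ∀ t : ℝ, c ≤ ‖Z k a ((E : ℂ) + t * I)‖ := by
  obtain ⟨C, hC, hCb⟩ := tail_le k
  have hre : ∀ E t : ℝ, ((E : ℂ) + t * I).re = E := by
    intro E t
    simp
  by_cases hb : (0 : ℂ) ^ k - a = 0
  · -- the second term dominates
    have hl : 0 < (Real.log 2) ^ k := pow_pos (Real.log_pos (by norm_num)) k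
    have h1 : Tendsto (fun E : ℝ => 9 * ((2 / 3 : ℝ) ^ E * C)) atTop (𝓝 (9 * (0 * C))) :=
      ((tendsto_rpow_atTop_of_base_lt_one (2 / 3) (by norm_num) (by norm_num)).mul_const
        C).const_mul 9
    rw [zero_mul, mul_zero] at h1
    have h2 := (h1.eventually (gt_mem_nhds (half_pos hl))).and (eventually_ge_atTop (max 2 K))
    obtain ⟨E, hE1, hE2⟩ := h2.exists
    have hE : 2 ≤ E := (le_max_left _ _).trans hE2
    have hp : 0 < (1 / 2 : ℝ) ^ E := Real.rpow_pos_of_pos (by norm_num) _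
    refine ⟨E, hE, (le_max_right _ _).trans hE2, (Real.log 2) ^ k / 2 * (1 / 2 : ℝ) ^ E,
      by positivity, ?_⟩
    intro t
    have hs : 1 < ((E : ℂ) + t * I).re := by rw [hre]; linarith
    have htl := hCb 3 (by norm_num) ((E : ℂ) + t * I) (by rw [hre]; exact hE)
    rw [hre, three_rpow] at htl
    rw [Z, zeta_deriv_eq k hs, lseries_three k hs]
    set w := ∑' n : ℕ, term (logMul^[k] (1 : ℕ → ℂ)) ((E : ℂ) + t * I) (n + 3) with hw
    have e1 : (-1 : ℂ) ^ k * ((0 : ℂ) ^ k + (Complex.log 2) ^ k / 2 ^ ((E : ℂ) + t * I) + w) - a =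
        (-1 : ℂ) ^ k * ((Complex.log 2) ^ k / 2 ^ ((E : ℂ) + t * I) + w) := by
      have h0 : a = (0 : ℂ) ^ k := (sub_eq_zero.1 hb).symm
      rw [h0]
      linear_combination neg_one_zero k
    rw [e1, norm_neg_one_pow]
    have e2 : ‖(Complex.log 2) ^ k / 2 ^ ((E : ℂ) + t * I)‖ =
        (Real.log 2) ^ k * (1 / 2 : ℝ) ^ E := by
      rw [norm_div, norm_pow]
      have h3 : Complex.log 2 = ((Real.log 2 : ℝ) : ℂ) := by
        rw [Complex.ofReal_log (by norm_num)]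
        norm_num
      have h4 : ‖(2 : ℂ) ^ ((E : ℂ) + t * I)‖ = (2 : ℝ) ^ E := by
        have := norm_cpow_eq_rpow_re_of_pos (x := 2) (by norm_num) ((E : ℂ) + t * I)
        rw [hre] at this
        simpa using this
      rw [h3, h4, Complex.norm_real, Real.norm_of_nonneg (Real.log_pos (by norm_num)).le,
        one_div, Real.inv_rpow (by norm_num), div_eq_mul_inv]
    have h5 := norm_sub_norm_le ((Complex.log 2) ^ k / 2 ^ ((E : ℂ) + t * I)) (-w)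
    rw [sub_neg_eq_add, norm_neg, e2] at h5
    refine le_trans ?_ h5
    have h6 : 9 * ((2 / 3 : ℝ) ^ E * (1 / 2 : ℝ) ^ E) * C =
        9 * ((2 / 3 : ℝ) ^ E * C) * (1 / 2 : ℝ) ^ E := by ring
    rw [h6] at htl
    have h7 := mul_le_mul_of_nonneg_right hE1.le hp.le
    nlinarith
  · -- the constant dominates
    have hbn : 0 < ‖(0 : ℂ) ^ k - a‖ := norm_pos_iff.2 hb
    have h1 : Tendsto (fun E : ℝ => 4 * (1 / 2 : ℝ) ^ E * C) atTop (𝓝 (4 * 0 * C)) :=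
      ((tendsto_rpow_atTop_of_base_lt_one (1 / 2) (by norm_num) (by norm_num)).const_mul
        4).mul_const C
    rw [mul_zero, zero_mul] at h1
    have h2 := (h1.eventually (gt_mem_nhds (half_pos hbn))).and (eventually_ge_atTop (max 2 K))
    obtain ⟨E, hE1, hE2⟩ := h2.exists
    have hE : 2 ≤ E := (le_max_left _ _).trans hE2
    refine ⟨E, hE, (le_max_right _ _).trans hE2, ‖(0 : ℂ) ^ k - a‖ / 2, half_pos hbn, ?_⟩
    intro t
    have hs : 1 < ((E : ℂ) + t * I).re := by rw [hre]; linarith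
    have htl := hCb 2 (by norm_num) ((E : ℂ) + t * I) (by rw [hre]; exact hE)
    rw [hre, two_rpow] at htl
    rw [Z, zeta_deriv_eq k hs, lseries_two k hs]
    set w := ∑' n : ℕ, term (logMul^[k] (1 : ℕ → ℂ)) ((E : ℂ) + t * I) (n + 2) with hw
    have e1 : (-1 : ℂ) ^ k * ((0 : ℂ) ^ k + w) - a =
        ((0 : ℂ) ^ k - a) - (-((-1 : ℂ) ^ k * w)) := by
      linear_combination neg_one_zero k
    rw [e1]
    have h5 := norm_sub_norm_le ((0 : ℂ) ^ k - a) (-((-1 : ℂ) ^ k * w))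
    rw [norm_neg, norm_neg_one_pow] at h5
    linarith

lemma s3_b (k : ℕ) (a : ℂ) : ∃ C : ℝ, 1 ≤ C ∧ ∀ s : ℂ, 3 / 2 ≤ s.re → ‖Z k a s‖ ≤ C := by
  set g := logMul^[k] (1 : ℕ → ℂ) with hg
  have hre : ((3 / 2 : ℝ) : ℂ).re = 3 / 2 := Complex.ofReal_re _
  have hsum : Summable fun n => ‖term g ((3 / 2 : ℝ) : ℂ) n‖ :=
    (summable_logMul k (by rw [hre]; norm_num)).norm
  have h0 : 0 ≤ ∑' n, ‖term g ((3 / 2 : ℝ) : ℂ) n‖ := tsum_nonneg fun n => norm_nonneg _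
  refine ⟨1 + ∑' n, ‖term g ((3 / 2 : ℝ) : ℂ) n‖ + ‖a‖, by linarith [norm_nonneg a], ?_⟩
  intro s hs
  rw [Z, zeta_deriv_eq k (by linarith)]
  refine (norm_sub_le _ _).trans ?_
  rw [norm_neg_one_pow]
  have h1 : ‖LSeries g s‖ ≤ ∑' n, ‖term g ((3 / 2 : ℝ) : ℂ) n‖ :=
    tsum_of_norm_bounded hsum.hasSum fun n => norm_term_le_of_re_le_re g (by rw [hre]; exact hs) n
  linarith

theorem s3 : S3 := ⟨s3_a, s3_b⟩

end Pool.Agent.SPZ
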