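import Pool.Agent.SPZ.Targets

/-!
# S6: the derivatives of zeta are large somewhere to the left of the line `Re s = 0`
-/

set_option autoImplicit false

namespace Pool.Agent.SPZ

open Complex Metric Set Filter Topology
open Pool.Agent.LHW (Up CountLe T4 T5)

namespace S6_

lemma convex_Up : Convex ℝ Up := convex_halfSpace_im_gt 1

/-- the case of small parameters -/
lemma core (h1 : P1) (h2 : P2) (h4 : S4) (k : ℕ) (a : ℂ) (x ρ ε : ℝ) (hx : x < 0)
    (hρ0 : 0 < ρ) (hρx : ρ ≤ -x / 2) (hρε : ρ ≤ ε / 4) (hρ1 : ρ ≤ 1) (hε : 0 < ε)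
    (hε1 : ε ≤ 1 / 2) : ∃ T₀ : ℝ, 1 ≤ T₀ ∧ ∀ T : ℝ, T₀ ≤ T →
      ∃ w ∈ closedBall ((x : ℂ) + T * I) ρ, T ^ (1 / 2 - w.re - ε) ≤ ‖Z k a w‖ := by
  obtain ⟨h41, h42⟩ := h4
  obtain ⟨C, T₁, hC, hT₁, hup⟩ := h41 (-x)
  obtain ⟨c, hc, hlow⟩ := h42 (-x) (by linarith)
  obtain ⟨D, hD, hbd⟩ := Pool.Agent.Lib.ZetaConv.norm_zeta_le_of_re (δ := -x / 2) (by linarith)
  set A : ℝ := 1 + ‖a‖ with hA
  have hA1 : 1 ≤ A := by
    rw [hA]
    linarith [norm_nonneg a]
  set m₁ : ℝ := C * 2 ^ (1 / 2 - x) * D + A with hm₁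
  have hm₁0 : 0 < m₁ := by positivity
  set E : ℝ := ((k + 1) * 4 ^ k * m₁ + A) * C / c with hE
  have hE0 : 0 < E := by positivity
  obtain ⟨T₂, hT₂⟩ := eventually_atTop.1
    ((tendsto_rpow_atTop (show (0 : ℝ) < 3 * ρ / 8 by positivity)).eventually_gt_atTop E)
  refine ⟨max (T₁ + 3) T₂, le_max_of_le_left (by linarith), fun T hT => ?_⟩
  have hT1 : T₁ + 3 ≤ T := (le_max_left _ _).trans hT
  have hTE : E < T ^ (3 * ρ / 8) := hT₂ T ((le_max_right _ _).trans hT)
  have hTone : 1 ≤ T := by linarith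
  have hT0 : 0 < T := by linarith
  by_contra hcon
  push Not at hcon
  set z₀ : ℂ := (x : ℂ) + T * I with hz₀
  have hz₀re : z₀.re = x := by simp [hz₀]
  have hz₀im : z₀.im = T := by simp [hz₀]
  -- the bound for the derivative
  set M : ℝ := A * T ^ (1 / 2 - x - 3 * ε / 4) with hM
  have hM0 : 0 ≤ M := by positivity
  have hder : ∀ w ∈ closedBall z₀ ρ, ‖iteratedDeriv k riemannZeta w‖ ≤ M := by
    intro w hw
    have hre : |w.re - x| ≤ ρ := by
      rw [mem_closedBall, dist_eq_norm] at hw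
      have := (abs_re_le_norm (w - z₀)).trans hw
      rwa [sub_re, hz₀re] at this
    have h5 := hcon w hw
    have h6 : T ^ (1 / 2 - w.re - ε) ≤ T ^ (1 / 2 - x - 3 * ε / 4) := by
      apply Real.rpow_le_rpow_of_exponent_le hTone
      have := (abs_le.1 hre).1
      linarith
    have h7 : (1 : ℝ) ≤ T ^ (1 / 2 - x - 3 * ε / 4) := by
      apply Real.one_le_rpow hTone
      linarith
    have h8 : iteratedDeriv k riemannZeta w = Z k a w + a := by
      unfold Z
      ring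
    rw [h8]
    refine (norm_add_le _ _).trans ?_
    rw [hM, hA]
    have h9 : ‖a‖ ≤ ‖a‖ * T ^ (1 / 2 - x - 3 * ε / 4) := le_mul_of_one_le_right (norm_nonneg a) h7
    have h10 : (1 + ‖a‖) * T ^ (1 / 2 - x - 3 * ε / 4) =
        T ^ (1 / 2 - x - 3 * ε / 4) + ‖a‖ * T ^ (1 / 2 - x - 3 * ε / 4) := by ring
    rw [h10]
    linarith
  obtain ⟨P, hPdeg, hP⟩ := h1 k riemannZeta Up z₀ LHW.isOpen_Up convex_Up LHW.diff_Up
    (show 1 < z₀.im by rw [hz₀im]; linarith)
  have hballUp : closedBall z₀ ρ ⊆ Up := LHW.ball_Up (by rw [hz₀im]; linarith)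
  have hPz : ∀ z ∈ closedBall z₀ ρ, ‖riemannZeta z - P.eval z‖ ≤ M := by
    intro z hz
    have h5 := hP z (hballUp hz) M (fun w hw =>
      hder w ((convex_closedBall z₀ ρ).segment_subset (mem_closedBall_self hρ0.le) hz hw))
    refine h5.trans ?_
    have h6 : ‖z - z₀‖ ≤ 1 := by
      rw [mem_closedBall, dist_eq_norm] at hz
      linarith
    exact mul_le_of_le_one_right hM0 (pow_le_one₀ (norm_nonneg _) h6)
  -- the exponents
  have hMle : M ≤ A * T ^ (1 / 2 - x - 3 * ρ / 8) := by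
    rw [hM]
    apply mul_le_mul_of_nonneg_left _ (by linarith)
    apply Real.rpow_le_rpow_of_exponent_le hTone
    linarith
  -- the polynomial is small on a small disc to the right
  set z₁ : ℂ := ((x + ρ / 2 : ℝ) : ℂ) + T * I with hz₁
  have hz₁re : z₁.re = x + ρ / 2 := by simp [hz₁]
  have hz₁im : z₁.im = T := by simp [hz₁]
  have hz₀₁ : ‖z₀ - z₁‖ = ρ / 2 := by
    have : z₀ - z₁ = ((-(ρ / 2) : ℝ) : ℂ) := by
      rw [hz₀, hz₁]
      push_cast
      ring
    rw [this, norm_real, Real.norm_eq_abs, abs_neg, abs_of_pos (by positivity)]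
  have hsmall : ∀ z ∈ closedBall z₁ (ρ / 8), ‖P.eval z‖ ≤ m₁ * T ^ (1 / 2 - x - 3 * ρ / 8) := by
    intro z hz
    have hz' : ‖z - z₁‖ ≤ ρ / 8 := by rwa [mem_closedBall, dist_eq_norm] at hz
    have hre : |z.re - (x + ρ / 2)| ≤ ρ / 8 := by
      have := (abs_re_le_norm (z - z₁)).trans hz'
      rwa [sub_re, hz₁re] at this
    have him : |z.im - T| ≤ ρ / 8 := by
      have := (abs_im_le_norm (z - z₁)).trans hz'
      rwa [sub_im, hz₁im] at this
    have hzb : z ∈ closedBall z₀ ρ := by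
      rw [mem_closedBall, dist_eq_norm]
      have h5 : z - z₀ = (z - z₁) - (z₀ - z₁) := by ring
      rw [h5]
      refine (norm_sub_le _ _).trans ?_
      rw [hz₀₁]
      linarith
    have hre1 := (abs_le.1 hre).1
    have hre2 := (abs_le.1 hre).2
    have him1 := (abs_le.1 him).1
    have him2 := (abs_le.1 him).2
    have h5 := (hup z.re z.im (by linarith) (by linarith) (by linarith)).1
    rw [re_add_im] at h5
    have h6 : ‖riemannZeta (((1 - z.re : ℝ) : ℂ) + z.im * I)‖ ≤ D := by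
      apply hbd
      simp only [add_re, ofReal_re, mul_re, I_re, mul_zero, ofReal_im, I_im, mul_one, sub_self,
        add_zero]
      linarith
    have hzim0 : 0 < z.im := by linarith
    have h7 : z.im ^ (1 / 2 - z.re) ≤ 2 ^ (1 / 2 - x) * T ^ (1 / 2 - x - 3 * ρ / 8) := by
      calc z.im ^ (1 / 2 - z.re) ≤ (2 * T) ^ (1 / 2 - z.re) := by
            apply Real.rpow_le_rpow hzim0.le (by linarith) (by linarith)
        _ = 2 ^ (1 / 2 - z.re) * T ^ (1 / 2 - z.re) := by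
            rw [Real.mul_rpow (by norm_num) hT0.le]
        _ ≤ 2 ^ (1 / 2 - x) * T ^ (1 / 2 - x - 3 * ρ / 8) := by
            apply mul_le_mul
            · exact Real.rpow_le_rpow_of_exponent_le (by norm_num) (by linarith)
            · exact Real.rpow_le_rpow_of_exponent_le hTone (by linarith)
            · positivity
            · positivity
    have h8 : ‖riemannZeta z‖ ≤ C * 2 ^ (1 / 2 - x) * D * T ^ (1 / 2 - x - 3 * ρ / 8) := by
      calc ‖riemannZeta z‖ ≤ C * z.im ^ (1 / 2 - z.re) *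
            ‖riemannZeta (((1 - z.re : ℝ) : ℂ) + z.im * I)‖ := h5
        _ ≤ C * (2 ^ (1 / 2 - x) * T ^ (1 / 2 - x - 3 * ρ / 8)) * D := by
            apply mul_le_mul _ h6 (norm_nonneg _) (by positivity)
            exact mul_le_mul_of_nonneg_left h7 (by linarith)
        _ = _ := by ring
    have h9 : P.eval z = riemannZeta z - (riemannZeta z - P.eval z) := by ring
    rw [h9]
    refine (norm_sub_le _ _).trans ((add_le_add h8 ((hPz z hzb).trans hMle)).trans ?_)
    rw [hm₁]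
    apply le_of_eq
    ring
  have hPz₀ := h2 P k z₁ z₀ (ρ / 8) (m₁ * T ^ (1 / 2 - x - 3 * ρ / 8)) hPdeg (by positivity)
    hsmall (by rw [hz₀₁]; linarith)
  have hratio : ‖z₀ - z₁‖ / (ρ / 8) = 4 := by
    rw [hz₀₁]
    field_simp
    norm_num
  rw [hratio] at hPz₀
  -- the lower bound for zeta
  have hz₀low : c * T ^ (1 / 2 - x) ≤ C * ‖riemannZeta z₀‖ := by
    have h5 := (hup x T (by linarith) (by linarith) (by linarith)).2
    have h6 : c ≤ ‖riemannZeta (((1 - x : ℝ) : ℂ) + T * I)‖ := by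
      apply hlow
      simp only [add_re, ofReal_re, mul_re, I_re, mul_zero, ofReal_im, I_im, mul_one, sub_self,
        add_zero]
      linarith
    rw [mul_comm c]
    exact (mul_le_mul_of_nonneg_left h6 (by positivity)).trans h5
  have hz₀up : ‖riemannZeta z₀‖ ≤
      ((k + 1) * 4 ^ k * m₁ + A) * T ^ (1 / 2 - x - 3 * ρ / 8) := by
    have h5 : riemannZeta z₀ = P.eval z₀ + (riemannZeta z₀ - P.eval z₀) := by ring
    rw [h5]
    refine (norm_add_le _ _).trans ((add_le_add hPz₀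
      ((hPz z₀ (mem_closedBall_self hρ0.le)).trans hMle)).trans ?_)
    apply le_of_eq
    ring
  have hsplit : T ^ (1 / 2 - x) = T ^ (1 / 2 - x - 3 * ρ / 8) * T ^ (3 * ρ / 8) := by
    rw [← Real.rpow_add hT0]
    congr 1
    ring
  have hpos : 0 < T ^ (1 / 2 - x - 3 * ρ / 8) := by positivity
  have h5 : c * (T ^ (1 / 2 - x - 3 * ρ / 8) * T ^ (3 * ρ / 8)) ≤
      C * (((k + 1) * 4 ^ k * m₁ + A) * T ^ (1 / 2 - x - 3 * ρ / 8)) := by
    rw [← hsplit]
    exact hz₀low.trans (mul_le_mul_of_nonneg_left hz₀up (by linarith))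
  have h6 : c * T ^ (3 * ρ / 8) ≤ C * ((k + 1) * 4 ^ k * m₁ + A) := by
    have h7 : T ^ (1 / 2 - x - 3 * ρ / 8) * (c * T ^ (3 * ρ / 8)) ≤
        T ^ (1 / 2 - x - 3 * ρ / 8) * (C * ((k + 1) * 4 ^ k * m₁ + A)) := by
      linarith
    exact le_of_mul_le_mul_left h7 hpos
  have h7 : c * E < c * T ^ (3 * ρ / 8) := mul_lt_mul_of_pos_left hTE hc
  have h8 : c * E = C * ((k + 1) * 4 ^ k * m₁ + A) := by
    rw [hE]
    field_simp
  linarith

end S6_

theorem s6 (h1 : P1) (h2 : P2) (h4 : S4) : S6 := by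
  intro k a x ρ ε hx hρ hε
  set ε' : ℝ := min ε (1 / 2) with hε'
  have hε'0 : 0 < ε' := lt_min hε (by norm_num)
  set ρ' : ℝ := min (min ρ (-x / 2)) (min (ε' / 4) 1) with hρ'
  have hρ'0 : 0 < ρ' := lt_min (lt_min hρ (by linarith)) (lt_min (by linarith) one_pos)
  obtain ⟨T₀, hT₀, h⟩ := S6_.core h1 h2 h4 k a x ρ' ε' hx hρ'0
    ((min_le_left _ _).trans (min_le_right _ _)) ((min_le_right _ _).trans (min_le_left _ _))
    ((min_le_right _ _).trans (min_le_right _ _)) hε'0 (min_le_right _ _)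
  refine ⟨T₀, fun T hT => ?_⟩
  obtain ⟨w, hw, hw2⟩ := h T hT
  refine ⟨w, closedBall_subset_closedBall ((min_le_left _ _).trans (min_le_left _ _)) hw,
    le_trans ?_ hw2⟩
  apply Real.rpow_le_rpow_of_exponent_le (hT₀.trans hT)
  have : ε' ≤ ε := min_le_left _ _
  linarith

end Pool.Agent.SPZ
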