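import Pool.Agent.SPZ.AMain
import Pool.Agent.SPZ.P
import Pool.Agent.SPZ.S1
import Pool.Agent.SPZ.S2
import Pool.Agent.SPZ.S3
import Pool.Agent.SPZ.S4
import Pool.Agent.SPZ.S6
import Pool.Agent.SPZ.S7

/-!
# Speiser's criterion for the Lindelöf hypothesis

For every `k ≥ 0`, every complex number `a` and every `0 ≤ A < 1/2` the following are equivalent:
the Lindelöf bound `ζ(1/2 + A + it) = O(|t|^ε)` (for `A = 0` the Lindelöf hypothesis); every
closed disc `D` in `Re s < 1/2 - A` has `o(log T)` solutions of `ζ^(k)(s) = a` in `D + iT`; the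
same for the closed discs in `Re s > 1/2 + A`.
-/

set_option autoImplicit false

namespace Pool.Agent.SPZ.Result

open Complex Metric Set

/-- The number of solutions of `ζ^(k)(s) = a` in the closed disc with centre `c` and radius `r`,
with multiplicity (for discs not containing the pole `1`). -/
noncomputable def count (k : ℕ) (a c : ℂ) (r : ℝ) : ℤ :=
  ∑ᶠ u, MeromorphicOn.divisor (fun s : ℂ => iteratedDeriv k riemannZeta s - a) (closedBall c r) u

/-- **Speiser's criterion for the Lindelöf hypothesis** -/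
theorem result (k : ℕ) (a : ℂ) (A : ℝ) (hA : 0 ≤ A) (hA2 : A < 1 / 2) : List.TFAE
    [∀ ε : ℝ, 0 < ε → ∃ C : ℝ, ∀ t : ℝ,
        ‖riemannZeta (((1 / 2 + A : ℝ) : ℂ) + t * I)‖ ≤ C * (1 + |t|) ^ ε,
      ∀ x r : ℝ, 0 < r → x + r < 1 / 2 - A → ∀ η : ℝ, 0 < η → ∃ T₀ : ℝ, ∀ T : ℝ, T₀ ≤ T →
        (count k a (x + T * I) r : ℝ) ≤ η * Real.log T,
      ∀ x r : ℝ, 0 < r → 1 / 2 + A < x - r → ∀ η : ℝ, 0 < η → ∃ T₀ : ℝ, ∀ T : ℝ, T₀ ≤ T →
        (count k a (x + T * I) r : ℝ) ≤ η * Real.log T] :=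
  a_main s1 s2 s3 s4 (s5 s4) (s6 p1 p2 s4) s7 p1 p2 k a A hA hA2

end Pool.Agent.SPZ.Result
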