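import Pool.Agent.SPZ.Targets
import Pool.Agent.Lib.SampleZeta

/-!
# An upper bound for a derivative of zeta on the left implies the Lindelöf hypothesis

`S8`: if `ζ^(k)(s) = O(t^(1/2 - Re s + ε))` to the left of the critical line then zeta is close to
a polynomial of degree at most `k` there; a bound `O(T^B)` on the critical line then improves.
-/

set_option autoImplicit false

namespace Pool.Agent.SPZ

open Complex Metric Set Filter Topology
open Pool.Agent.Lib.ZetaConv Pool.Agent.Lib.ZetaLine Pool.Agent.Lib.ZetaRay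
open Pool.Agent.Lib.ChiBound

/-- the hypothesis of `S8` -/
def HypL (k : ℕ) : Prop := ∀ δ ε : ℝ, 0 < δ → 0 < ε → ∃ T₀ : ℝ, 1 ≤ T₀ ∧ ∀ s : ℂ,
  -(1 / 4) ≤ s.re → s.re ≤ 1 / 2 - δ → T₀ ≤ s.im →
    ‖iteratedDeriv k riemannZeta s‖ ≤ s.im ^ (1 / 2 - s.re + ε)

/-- zeta is close to a polynomial to the left of the critical line -/
lemma s8_approx (h1 : P1) {k : ℕ} (h : HypL k) {δ ε : ℝ} (hδ : 0 < δ) (hε : 0 < ε) :
    ∃ T₁ : ℝ, 4 ≤ T₁ ∧ ∀ T : ℝ, T₁ ≤ T → ∃ P : Polynomial ℂ, P.natDegree ≤ k ∧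
      ∀ z : ℂ, -(1 / 4) ≤ z.re → z.re ≤ 1 / 2 - δ → |z.im - T| ≤ 1 →
        ‖z - (((1 / 2 - δ : ℝ) : ℂ) + T * I)‖ ≤ 1 →
        ‖riemannZeta z - P.eval z‖ ≤ (2 * T) ^ (1 / 2 - z.re + ε) := by
  obtain ⟨T₀, hT₀, hb⟩ := h δ ε hδ hε
  refine ⟨T₀ + 4, by linarith, fun T hT => ?_⟩
  have hUo : IsOpen {z : ℂ | 1 < z.im} := isOpen_lt continuous_const continuous_im
  have hUc : Convex ℝ {z : ℂ | 1 < z.im} := by
    have := (convex_Ioi (1 : ℝ)).linear_preimage Complex.imLm
    exact this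
  have hd : DifferentiableOn ℂ riemannZeta {z : ℂ | 1 < z.im} := by
    intro z hz
    apply (differentiableAt_riemannZeta _).differentiableWithinAt
    rintro rfl
    have hz' : (1 : ℝ) < 0 := by simpa using hz
    linarith
  set z₀ : ℂ := ((1 / 2 - δ : ℝ) : ℂ) + T * I with hz₀
  have hz₀re : z₀.re = 1 / 2 - δ := by simp [hz₀]
  have hz₀im : z₀.im = T := by simp [hz₀]
  obtain ⟨P, hP, hPb⟩ := h1 k riemannZeta {z : ℂ | 1 < z.im} z₀ hUo hUc hd (by
    change 1 < z₀.im
    rw [hz₀im]; linarith)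
  refine ⟨P, hP, fun z hz1 hz2 hz3 hz4 => ?_⟩
  rw [abs_le] at hz3
  have key := hPb z (by change 1 < z.im; linarith [hz3.1]) ((2 * T) ^ (1 / 2 - z.re + ε)) (by
    rintro w ⟨a, b, ha, hb', hab, rfl⟩
    have hre : (a • z₀ + b • z).re = a * (1 / 2 - δ) + b * z.re := by
      simp [hz₀re]
    have him : (a • z₀ + b • z).im = a * T + b * z.im := by
      simp [hz₀im]
    have hre1 : z.re ≤ (a • z₀ + b • z).re := by
      rw [hre]
      have : z.re = a * z.re + b * z.re := by rw [← add_mul, hab, one_mul]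
      have h5 : a * z.re ≤ a * (1 / 2 - δ) := mul_le_mul_of_nonneg_left hz2 ha
      linarith
    have hre2 : (a • z₀ + b • z).re ≤ 1 / 2 - δ := by
      rw [hre]
      have : 1 / 2 - δ = a * (1 / 2 - δ) + b * (1 / 2 - δ) := by rw [← add_mul, hab, one_mul]
      have h5 : b * z.re ≤ b * (1 / 2 - δ) := mul_le_mul_of_nonneg_left hz2 hb'
      linarith
    have him1 : T - 1 ≤ (a • z₀ + b • z).im := by
      rw [him]
      have : T - 1 = a * (T - 1) + b * (T - 1) := by rw [← add_mul, hab, one_mul]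
      have h5 : b * (T - 1) ≤ b * z.im := mul_le_mul_of_nonneg_left (by linarith [hz3.1]) hb'
      have h6 : a * (T - 1) ≤ a * T := mul_le_mul_of_nonneg_left (by linarith) ha
      linarith
    have him2 : (a • z₀ + b • z).im ≤ T + 1 := by
      rw [him]
      have : T + 1 = a * (T + 1) + b * (T + 1) := by rw [← add_mul, hab, one_mul]
      have h5 : b * z.im ≤ b * (T + 1) := mul_le_mul_of_nonneg_left (by linarith [hz3.2]) hb'
      have h6 : a * T ≤ a * (T + 1) := mul_le_mul_of_nonneg_left (by linarith) ha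
      linarith
    set w := a • z₀ + b • z with hw
    refine (hb w (by linarith) hre2 (by linarith)).trans ?_
    calc w.im ^ (1 / 2 - w.re + ε) ≤ (2 * T) ^ (1 / 2 - w.re + ε) :=
          Real.rpow_le_rpow (by linarith) (by linarith) (by linarith)
      _ ≤ (2 * T) ^ (1 / 2 - z.re + ε) :=
          Real.rpow_le_rpow_of_exponent_le (by linarith) (by linarith))
  refine key.trans ?_
  have h5 : ‖z - z₀‖ ^ k ≤ 1 := pow_le_one₀ (norm_nonneg _) hz4
  have h6 : 0 ≤ (2 * T) ^ (1 / 2 - z.re + ε) := Real.rpow_nonneg (by linarith) _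
  calc (2 * T) ^ (1 / 2 - z.re + ε) * ‖z - z₀‖ ^ k ≤ (2 * T) ^ (1 / 2 - z.re + ε) * 1 :=
        mul_le_mul_of_nonneg_left h5 h6
    _ = _ := mul_one _

/-- bound at distance `x` to the left of the critical line -/
lemma s8_left (h1 : P1) (h2 : P2) {k : ℕ} (h : HypL k) {B x τ : ℝ} (hline : LineB B)
    (hx0 : 0 < x) (hx1 : x ≤ 1 / 4) (hxB : x ≤ B) (hτ : 0 < τ) :
    ∃ C T₁ : ℝ, 1 ≤ C ∧ 1 ≤ T₁ ∧ ∀ t : ℝ, T₁ ≤ t →
      ‖riemannZeta (((1 / 2 - x : ℝ) : ℂ) + t * I)‖ ≤ C * t ^ (B + τ) := by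
  have hB : 0 ≤ B := by linarith
  obtain ⟨δ, hδd⟩ : ∃ δ : ℝ, δ = min (x / 3) (τ / 6) := ⟨_, rfl⟩
  have hδ0 : 0 < δ := by rw [hδd]; positivity
  have hδx : δ ≤ x / 3 := by rw [hδd]; exact min_le_left _ _
  have hδτ : δ ≤ τ / 6 := by rw [hδd]; exact min_le_right _ _
  obtain ⟨C₁, T₁, hC₁, hT₁, hconv⟩ := hline.conv hB (η := τ / 2) (by positivity)
  obtain ⟨T₂, hT₂, happ⟩ := s8_approx h1 h (δ := δ) (ε := τ / 2) hδ0 (by positivity)
  obtain ⟨D, hD⟩ : ∃ D : ℝ, D = ((x - 2 * δ) / (δ / 2)) ^ k := ⟨_, rfl⟩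
  have hD0 : 0 ≤ D := by
    rw [hD]
    apply pow_nonneg
    apply div_nonneg <;> linarith
  have hk0 : (0 : ℝ) ≤ k := Nat.cast_nonneg k
  refine ⟨((k + 1) * (3 * C₁ + 1) * D + 1) * 2 ^ (B + τ), T₁ + T₂ + 21, ?_, by linarith, ?_⟩
  · have e1 : (1 : ℝ) ≤ 2 ^ (B + τ) := Real.one_le_rpow (by norm_num) (by linarith)
    have e2 : (0 : ℝ) ≤ (k + 1) * (3 * C₁ + 1) * D := by positivity
    nlinarith
  intro T hT
  have hT0 : 0 < T := by linarith
  obtain ⟨P, hPdeg, hP⟩ := happ T (by linarith)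
  obtain ⟨E, hE⟩ : ∃ E : ℝ, E = (2 * T) ^ (B + τ) := ⟨_, rfl⟩
  have hE0 : 0 < E := by rw [hE]; positivity
  obtain ⟨z₁, hz₁⟩ : ∃ z₁ : ℂ, z₁ = ((1 / 2 - 2 * δ : ℝ) : ℂ) + T * I := ⟨_, rfl⟩
  have hz₁re : z₁.re = 1 / 2 - 2 * δ := by simp [hz₁]
  have hz₁im : z₁.im = T := by simp [hz₁]
  have hball : ∀ w ∈ closedBall z₁ (δ / 2), ‖P.eval w‖ ≤ (3 * C₁ + 1) * E := by
    intro w hw
    rw [mem_closedBall, dist_eq_norm] at hw
    have hre := (abs_re_le_norm _).trans hw
    have him := (abs_im_le_norm _).trans hw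
    rw [sub_re, hz₁re, abs_le] at hre
    rw [sub_im, hz₁im] at him
    have him' := him
    rw [abs_le] at him
    obtain ⟨y, hy⟩ : ∃ y : ℝ, y = 1 / 2 - w.re := ⟨_, rfl⟩
    have hy1 : 3 * δ / 2 ≤ y := by rw [hy]; linarith [hre.2]
    have hy2 : y ≤ 5 * δ / 2 := by rw [hy]; linarith [hre.1]
    have hw1 : w = ((1 / 2 - y : ℝ) : ℂ) + w.im * I := by
      apply Complex.ext
      · simp [hy]
      · simp
    have hnear : ‖w - (((1 / 2 - δ : ℝ) : ℂ) + T * I)‖ ≤ 1 := by
      have e1 : w - (((1 / 2 - δ : ℝ) : ℂ) + T * I) = (w - z₁) + ((-δ : ℝ) : ℂ) := by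
        rw [hz₁]; push_cast; ring
      rw [e1]
      refine (norm_add_le _ _).trans ?_
      rw [Complex.norm_real, Real.norm_eq_abs, abs_neg, abs_of_pos hδ0]
      linarith
    have hapx := hP w (by linarith [hre.1]) (by linarith [hre.2]) (by linarith) hnear
    have hz := zeta_left (x := y) (t := w.im) (by linarith) (by linarith) (by linarith [him.1])
    rw [← hw1] at hz
    have hc := hconv w.im (by linarith [him.1]) y (by linarith) (by linarith)
    have him0 : 0 < w.im := by linarith [him.1]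
    have hz2 : ‖riemannZeta w‖ ≤ 3 * C₁ * E := by
      calc ‖riemannZeta w‖ ≤ 3 * w.im ^ y * ‖riemannZeta ((1 / 2 + y : ℝ) + w.im * I)‖ := hz
        _ ≤ 3 * w.im ^ y * (C₁ * w.im ^ (B * (1 - 2 * y) + τ / 2)) := by gcongr
        _ = 3 * C₁ * w.im ^ (y + (B * (1 - 2 * y) + τ / 2)) := by
            rw [Real.rpow_add him0 y]; ring
        _ ≤ 3 * C₁ * w.im ^ (B + τ) := by
            apply mul_le_mul_of_nonneg_left _ (by linarith)
            apply Real.rpow_le_rpow_of_exponent_le (by linarith [him.1])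
            have : 0 ≤ B * y := mul_nonneg hB (by linarith)
            nlinarith
        _ ≤ 3 * C₁ * E := by
            rw [hE]
            apply mul_le_mul_of_nonneg_left _ (by linarith)
            apply Real.rpow_le_rpow (by linarith) (by linarith [him.2]) (by linarith)
    have hz3 : (2 * T) ^ (1 / 2 - w.re + τ / 2) ≤ E := by
      rw [hE]
      apply Real.rpow_le_rpow_of_exponent_le (by linarith)
      rw [← hy]
      linarith
    have e2 : P.eval w = riemannZeta w - (riemannZeta w - P.eval w) := by ring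
    rw [e2]
    refine (norm_sub_le _ _).trans ?_
    linarith
  obtain ⟨z, hzd⟩ : ∃ z : ℂ, z = ((1 / 2 - x : ℝ) : ℂ) + T * I := ⟨_, rfl⟩
  have hzre : z.re = 1 / 2 - x := by simp [hzd]
  have hzim : z.im = T := by simp [hzd]
  have hzz₁ : ‖z - z₁‖ = x - 2 * δ := by
    have e1 : z - z₁ = ((-(x - 2 * δ) : ℝ) : ℂ) := by
      rw [hzd, hz₁]; push_cast; ring
    rw [e1, Complex.norm_real, Real.norm_eq_abs, abs_neg, abs_of_nonneg (by linarith)]
  have hzz₀ : ‖z - (((1 / 2 - δ : ℝ) : ℂ) + T * I)‖ = x - δ := by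
    have e1 : z - (((1 / 2 - δ : ℝ) : ℂ) + T * I) = ((-(x - δ) : ℝ) : ℂ) := by
      rw [hzd]; push_cast; ring
    rw [e1, Complex.norm_real, Real.norm_eq_abs, abs_neg, abs_of_nonneg (by linarith)]
  have hPz := h2 P k z₁ z (δ / 2) ((3 * C₁ + 1) * E) hPdeg (by positivity) hball
    (by rw [hzz₁]; linarith)
  rw [hzz₁, ← hD] at hPz
  have hapx := hP z (by rw [hzre]; linarith) (by rw [hzre]; linarith) (by rw [hzim]; simp)
    (by rw [hzz₀]; linarith)
  have hz3 : (2 * T) ^ (1 / 2 - z.re + τ / 2) ≤ E := by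
    rw [hE]
    apply Real.rpow_le_rpow_of_exponent_le (by linarith)
    rw [hzre]
    linarith
  rw [← hzd]
  have e2 : riemannZeta z = P.eval z + (riemannZeta z - P.eval z) := by ring
  calc ‖riemannZeta z‖ = ‖P.eval z + (riemannZeta z - P.eval z)‖ := by rw [← e2]
    _ ≤ ‖P.eval z‖ + ‖riemannZeta z - P.eval z‖ := norm_add_le _ _
    _ ≤ (k + 1) * ((3 * C₁ + 1) * E) * D + E := by linarith
    _ = ((k + 1) * (3 * C₁ + 1) * D + 1) * E := by ring
    _ = ((k + 1) * (3 * C₁ + 1) * D + 1) * 2 ^ (B + τ) * T ^ (B + τ) := by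
        rw [hE, Real.mul_rpow (by norm_num) hT0.le]; ring

/-- the mirror bound to the right of the critical line -/
lemma s8_right {B x τ : ℝ} (hx0 : 0 < x) (hx1 : x ≤ 1 / 4)
    (h : ∃ C T₁ : ℝ, 1 ≤ C ∧ 1 ≤ T₁ ∧ ∀ t : ℝ, T₁ ≤ t →
      ‖riemannZeta (((1 / 2 - x : ℝ) : ℂ) + t * I)‖ ≤ C * t ^ (B + τ)) :
    ∃ C T₁ : ℝ, 1 ≤ C ∧ 1 ≤ T₁ ∧ ∀ t : ℝ, T₁ ≤ t →
      ‖riemannZeta (((1 / 2 + x : ℝ) : ℂ) + t * I)‖ ≤ C * t ^ (B + τ - x) := by
  obtain ⟨C, T₁, hC, hT₁, h⟩ := h
  refine ⟨9 ^ x * C, T₁ + 20, ?_, by linarith, fun t ht => ?_⟩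
  · have : (1 : ℝ) ≤ 9 ^ x := Real.one_le_rpow (by norm_num) hx0.le
    nlinarith
  have ht0 : 0 < t := by linarith
  have h1 := functional (s := ((1 / 2 + x : ℝ) : ℂ) + t * I) (by simp; linarith)
    (by simp; linarith)
  have h2 : (1 - (((1 / 2 + x : ℝ) : ℂ) + t * I) : ℂ) =
      (starRingEnd ℂ) (((1 / 2 - x : ℝ) : ℂ) + t * I) := by
    apply Complex.ext
    · simp
      ring
    · simp
  rw [h1, norm_mul, h2, riemannZeta_conj, Complex.norm_conj]
  have h3 := chi_norm_le (x := x) (t := t) hx0.le (by linarith) (by linarith)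
  have h4 := h t (by linarith)
  have h5 : (9 / t : ℝ) ^ x = 9 ^ x * t ^ (-x) := by
    rw [Real.div_rpow (by norm_num) ht0.le, Real.rpow_neg ht0.le]; rfl
  calc ‖chi (((1 / 2 + x : ℝ) : ℂ) + t * I)‖ * ‖riemannZeta (((1 / 2 - x : ℝ) : ℂ) + t * I)‖
      ≤ (9 / t) ^ x * (C * t ^ (B + τ)) := by gcongr
    _ = 9 ^ x * C * (t ^ (B + τ) * t ^ (-x)) := by rw [h5]; ring
    _ = 9 ^ x * C * t ^ (B + τ - x) := by rw [← Real.rpow_add ht0]; rfl

/-- the improvement step -/
lemma s8_step (h1 : P1) (h2 : P2) {k : ℕ} (h : HypL k) {B : ℝ} (hB0 : 0 < B) (hB1 : B ≤ 1)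
    (hline : LineB B) : LineB (15 / 16 * B) := by
  obtain ⟨x, hx⟩ : ∃ x : ℝ, x = B / 4 := ⟨_, rfl⟩
  obtain ⟨τ, hτ⟩ : ∃ τ : ℝ, τ = B / 16 := ⟨_, rfl⟩
  have hleft := s8_left h1 h2 h (x := x) (τ := τ) hline (by linarith) (by linarith) (by linarith)
    (by linarith)
  have hright := s8_right (B := B) (x := x) (τ := τ) (by linarith) (by linarith) hleft
  obtain ⟨C₁, T₁, hC₁, hT₁, hl⟩ := hleft
  obtain ⟨C₂, T₂, hC₂, hT₂, hr⟩ := hright
  obtain ⟨Cc, Tc, hCc, hTc, hc⟩ := boundOn_crude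
  have hx0 : 0 < x := by linarith
  obtain ⟨T₃, hT₃⟩ : ∃ T₃ : ℝ, ∀ T : ℝ, T₃ ≤ T → 2 * T ^ (1 : ℝ) * Real.exp (-T) ≤ 1 := by
    have h1 := Real.tendsto_pow_mul_exp_neg_atTop_nhds_zero 1
    have h2 : ∀ᶠ T : ℝ in atTop, T ^ 1 * Real.exp (-T) < 1 / 2 :=
      h1.eventually (gt_mem_nhds (by norm_num))
    obtain ⟨T₃, hT₃⟩ := eventually_atTop.mp h2
    refine ⟨T₃, fun T hT => ?_⟩
    have := hT₃ T hT
    rw [Real.rpow_one]
    rw [pow_one] at this
    linarith
  obtain ⟨N, hN⟩ : ∃ N : ℝ, N = 2 ^ (B + τ) * (C₁ + C₂) + Cc := ⟨_, rfl⟩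
  have hN1 : 1 ≤ N := by
    rw [hN]
    have : (0 : ℝ) ≤ 2 ^ (B + τ) * (C₁ + C₂) := by positivity
    linarith
  refine ⟨N * Real.exp ((1 / 2 + x - (1 / 2 - x)) ^ 2), 4 + 2 * T₁ + 2 * T₂ + 2 * Tc + |T₃|,
    ?_, ?_, ?_⟩
  · have e1 : 1 ≤ Real.exp ((1 / 2 + x - (1 / 2 - x)) ^ 2) := Real.one_le_exp (sq_nonneg _)
    nlinarith
  · have := abs_nonneg T₃
    linarith
  intro T hT
  have habs1 := le_abs_self T₃
  have habs2 := abs_nonneg T₃
  have hT4 : 4 ≤ T := by linarith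
  have hT0 : 0 < T := by linarith
  set L := Real.log T with hL
  have hL0 : 0 ≤ L := Real.log_nonneg (by linarith)
  set Y := Real.sqrt T with hY
  have hY0 : 0 < Y := Real.sqrt_pos.mpr hT0
  have hYsq : Y ^ 2 = T := Real.sq_sqrt hT0.le
  have hYT : Y ≤ T / 2 := by nlinarith
  have hexpL : ∀ e : ℝ, Real.exp (L * e) = T ^ e := fun e => by
    rw [hL, Real.rpow_def_of_pos hT0]
  have hTB1 : 1 ≤ T ^ (B + τ) := Real.one_le_rpow (by linarith) (by linarith)
  have hTB0 : 0 < T ^ (B + τ) := by positivity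
  have h20 : (0 : ℝ) < 2 ^ (B + τ) := by positivity
  have key := gauss_max (a := 1 / 2 - x) (b := 1 / 2 + x) (κ := 1 / 2) (T := T) (Y := Y) (L := L)
    (M := N * T ^ (B + τ)) (by linarith) hY0 (by linarith) (by
      intro s hs1 hs2 hs3 hside
      rw [abs_le] at hs3
      have him1 : T / 2 ≤ s.im := by linarith [hs3.1]
      have him2 : s.im ≤ 2 * T := by linarith [hs3.2]
      have him0 : 0 < s.im := by linarith
      have hexp2 : Real.exp (-(s.im - T) ^ 2) ≤ 1 := by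
        rw [Real.exp_le_one_iff]; nlinarith [sq_nonneg (s.im - T)]
      have hz0 := norm_nonneg (riemannZeta s)
      rcases hside with hc1 | hc2 | hc3
      · -- left side
        have e1 : s = ((1 / 2 - x : ℝ) : ℂ) + s.im * I := by
          apply Complex.ext
          · simp [hc1]
          · simp
        have e2 : ‖riemannZeta s‖ ≤ C₁ * s.im ^ (B + τ) := by
          have := hl s.im (by linarith)
          rwa [← e1] at this
        have e3 : s.im ^ (B + τ) ≤ 2 ^ (B + τ) * T ^ (B + τ) := by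
          rw [← Real.mul_rpow (by norm_num) hT0.le]
          exact Real.rpow_le_rpow him0.le him2 (by linarith)
        have e4 : Real.exp (1 / 2 * L * (s.re - (1 / 2 - x))) = 1 := by rw [hc1]; simp
        rw [e4, mul_one]
        calc ‖riemannZeta s‖ * Real.exp (-(s.im - T) ^ 2) ≤ ‖riemannZeta s‖ * 1 := by gcongr
          _ = ‖riemannZeta s‖ := mul_one _
          _ ≤ C₁ * s.im ^ (B + τ) := e2
          _ ≤ C₁ * (2 ^ (B + τ) * T ^ (B + τ)) := by gcongr
          _ = (2 ^ (B + τ) * C₁) * T ^ (B + τ) := by ring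
          _ ≤ N * T ^ (B + τ) := by
              apply mul_le_mul_of_nonneg_right _ hTB0.le
              rw [hN]
              have : 0 ≤ 2 ^ (B + τ) * C₂ := by positivity
              linarith
      · -- right side
        have e1 : s = ((1 / 2 + x : ℝ) : ℂ) + s.im * I := by
          apply Complex.ext
          · simp [hc2]
          · simp
        have e2 : ‖riemannZeta s‖ ≤ C₂ * s.im ^ (B + τ - x) := by
          have := hr s.im (by linarith)
          rwa [← e1] at this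
        have e3 : s.im ^ (B + τ - x) ≤ 2 ^ (B + τ) * T ^ (B + τ - x) := by
          calc s.im ^ (B + τ - x) ≤ (2 * T) ^ (B + τ - x) :=
                Real.rpow_le_rpow him0.le him2 (by linarith)
            _ = 2 ^ (B + τ - x) * T ^ (B + τ - x) := Real.mul_rpow (by norm_num) hT0.le
            _ ≤ 2 ^ (B + τ) * T ^ (B + τ - x) := by
                apply mul_le_mul_of_nonneg_right _ (by positivity)
                exact Real.rpow_le_rpow_of_exponent_le (by norm_num) (by linarith)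
        have e4 : Real.exp (1 / 2 * L * (s.re - (1 / 2 - x))) = T ^ x := by
          rw [← hexpL, hc2]; congr 1; ring
        rw [e4]
        have e5 : T ^ (B + τ - x) * T ^ x = T ^ (B + τ) := by
          rw [← Real.rpow_add hT0]; congr 1; ring
        calc ‖riemannZeta s‖ * T ^ x * Real.exp (-(s.im - T) ^ 2)
            ≤ (C₂ * (2 ^ (B + τ) * T ^ (B + τ - x))) * T ^ x * 1 := by
              gcongr
              exact e2.trans (by gcongr)
          _ = (2 ^ (B + τ) * C₂) * (T ^ (B + τ - x) * T ^ x) := by ring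
          _ = (2 ^ (B + τ) * C₂) * T ^ (B + τ) := by rw [e5]
          _ ≤ N * T ^ (B + τ) := by
              apply mul_le_mul_of_nonneg_right _ hTB0.le
              rw [hN]
              have : 0 ≤ 2 ^ (B + τ) * C₁ := by positivity
              linarith
      · have e2 : ‖riemannZeta s‖ ≤ Cc * s.im ^ (1 : ℝ) := hc s (by linarith) (by linarith)
        have e3 : -(s.im - T) ^ 2 = -T := by
          rw [← sq_abs, hc3, hYsq]
        have e5 : Real.exp (1 / 2 * L * (s.re - (1 / 2 - x))) ≤ T ^ (B + τ) := by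
          rw [← hexpL, Real.exp_le_exp]
          have : 1 / 2 * (s.re - (1 / 2 - x)) ≤ B + τ := by linarith
          calc 1 / 2 * L * (s.re - (1 / 2 - x)) = L * (1 / 2 * (s.re - (1 / 2 - x))) := by ring
            _ ≤ L * (B + τ) := mul_le_mul_of_nonneg_left this hL0
        rw [e3]
        have e4 := hT₃ T (by linarith)
        rw [Real.rpow_one] at e2 e4
        calc ‖riemannZeta s‖ * Real.exp (1 / 2 * L * (s.re - (1 / 2 - x))) * Real.exp (-T)
            ≤ (Cc * (2 * T)) * T ^ (B + τ) * Real.exp (-T) := by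
              gcongr
              exact e2.trans (by gcongr)
          _ = Cc * T ^ (B + τ) * (2 * T * Real.exp (-T)) := by ring
          _ ≤ Cc * T ^ (B + τ) * 1 := by gcongr
          _ ≤ N * T ^ (B + τ) := by
              rw [mul_one]
              apply mul_le_mul_of_nonneg_right _ hTB0.le
              rw [hN]
              have : 0 ≤ 2 ^ (B + τ) * (C₁ + C₂) := by positivity
              linarith)
    (σ := 1 / 2) (by linarith) (by linarith)
  have e5 : 1 / 2 * L * (1 / 2 - (1 / 2 - x)) = L * (x / 2) := by ring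
  rw [e5, hexpL] at key
  have hpow : T ^ (B + τ) = T ^ (15 / 16 * B) * T ^ (x / 2) := by
    rw [← Real.rpow_add hT0]; congr 1; rw [hx, hτ]; ring
  have hx20 : 0 < T ^ (x / 2) := by positivity
  refine le_of_mul_le_mul_right ?_ hx20
  refine key.trans (le_of_eq ?_)
  rw [hpow]; ring

/-- **S8**: an upper bound for a derivative of zeta on the left implies LH. -/
theorem s8 (h1 : P1) (h2 : P2) : S8 := by
  intro k h ε hε
  have hk : HypL k := h
  have hiter : ∀ n : ℕ, LineB ((15 / 16) ^ n) := by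
    intro n
    induction n with
    | zero => simpa using lineB_one
    | succ n ih =>
      have := s8_step h1 h2 hk (B := (15 / 16) ^ n) (by positivity)
        (pow_le_one₀ (by norm_num) (by norm_num)) ih
      rwa [pow_succ, mul_comm]
  obtain ⟨n, hn⟩ := exists_pow_lt_of_lt_one hε (show (15 / 16 : ℝ) < 1 by norm_num)
  exact Pool.Agent.Lib.SampleZeta.LineB.line hε.le ((hiter n).mono hn.le)

end Pool.Agent.SPZ
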