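import Pool.Agent.SPZ.Targets

/-!
# S9: an upper bound for a derivative of zeta to the right of the critical line implies LH
-/

set_option autoImplicit false

namespace Pool.Agent.SPZ

open Complex Metric Set Filter Topology
open Pool.Agent.LHW (Up)
open Pool.Agent.Lib.ZetaLine

theorem s9 (h1 : P1) (h2 : P2) (h3 : S3) : S9 := by
  intro k hyp ε hε
  have hB : BoundOn (1 / 2) ε := by
    have key : ∀ a > 0, BoundOn (1 / 2 + a) (ε / 2) := by
      intro a ha
      obtain ⟨T₀, hT₀, hder⟩ := hyp a (ε / 2) ha (by positivity)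
      obtain ⟨C₀, hC₀, hz⟩ := h3.2 0 0
      obtain ⟨C₁, hC₁, hd⟩ := h3.2 k 0
      have hz' : ∀ s : ℂ, 3 / 2 ≤ s.re → ‖riemannZeta s‖ ≤ C₀ := by
        intro s hs
        simpa [Z] using hz s hs
      have hd' : ∀ s : ℂ, 3 / 2 ≤ s.re → ‖iteratedDeriv k riemannZeta s‖ ≤ C₁ := by
        intro s hs
        simpa [Z] using hd s hs
      set m : ℝ := C₀ + C₁ with hm
      set D : ℝ := 2 ^ k + (k + 1) * m * 8 ^ k + C₀ with hD
      have hm0 : 0 ≤ (k + 1) * m * 8 ^ k := by
        rw [hm]
        have : (0 : ℝ) ≤ C₀ + C₁ := by linarith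
        positivity
      have h2k : (0 : ℝ) < 2 ^ k := by positivity
      refine ⟨D, T₀ + 2, by rw [hD]; linarith, by linarith, ?_⟩
      intro s hs hT
      have hT1 : 1 ≤ s.im := by linarith
      have hTB : 1 ≤ s.im ^ (ε / 2) := Real.one_le_rpow hT1 (by positivity)
      by_cases hs2 : 3 / 2 ≤ s.re
      · calc ‖riemannZeta s‖ ≤ C₀ := hz' s hs2
          _ ≤ D * 1 := by rw [hD]; linarith
          _ ≤ D * s.im ^ (ε / 2) := by
            apply mul_le_mul_of_nonneg_left hTB
            rw [hD]; linarith
      push Not at hs2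
      set z₀ : ℂ := (2 : ℝ) + s.im * I with hz₀
      have hz₀re : z₀.re = 2 := by simp [hz₀]
      have hz₀im : z₀.im = s.im := by simp [hz₀]
      have hnorm : ‖s - z₀‖ = 2 - s.re := by
        have e : s - z₀ = ((s.re - 2 : ℝ) : ℂ) := by
          apply Complex.ext
          · simp [hz₀re]
          · simp [hz₀im]
        rw [e, Complex.norm_real, Real.norm_eq_abs, abs_of_nonpos (by linarith)]
        ring
      obtain ⟨P, hP, hPb⟩ := h1 k riemannZeta Up z₀ Pool.Agent.LHW.isOpen_Up
        (convex_halfSpace_im_gt 1) Pool.Agent.LHW.diff_Up (by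
          show 1 < z₀.im
          rw [hz₀im]; linarith)
      have hdisc : ∀ w ∈ closedBall z₀ (1 / 4), ‖P.eval w‖ ≤ m := by
        intro w hw
        rw [mem_closedBall, dist_eq_norm] at hw
        have hre : |(w - z₀).re| ≤ 1 / 4 := (abs_re_le_norm _).trans hw
        have him : |(w - z₀).im| ≤ 1 / 4 := (abs_im_le_norm _).trans hw
        rw [sub_re, hz₀re, abs_le] at hre
        rw [sub_im, hz₀im, abs_le] at him
        have hb := hPb w (show 1 < w.im by linarith [him.1]) C₁ (by
          intro v hv
          apply hd'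
          obtain ⟨p, q, hp, hq, hpq, rfl⟩ := hv
          have : (p • z₀ + q • w).re = p * 2 + q * w.re := by
            simp [hz₀re]
          rw [this]
          have : q = 1 - p := by linarith
          subst this
          nlinarith [hre.1])
        have hpow : ‖w - z₀‖ ^ k ≤ 1 := pow_le_one₀ (norm_nonneg _) (by linarith)
        have h3 : ‖P.eval w‖ ≤ ‖riemannZeta w‖ + ‖riemannZeta w - P.eval w‖ := by
          have := norm_sub_norm_le (P.eval w) (riemannZeta w)
          rw [norm_sub_rev] at this
          linarith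
        have h4 := hz' w (by linarith [hre.1])
        have h5 : C₁ * ‖w - z₀‖ ^ k ≤ C₁ * 1 :=
          mul_le_mul_of_nonneg_left hpow (by linarith)
        rw [hm]
        linarith
      have hpoly := h2 P k z₀ s (1 / 4) m hP (by norm_num) hdisc (by rw [hnorm]; linarith)
      have hseg := hPb s (show 1 < s.im by linarith) (s.im ^ (ε / 2)) (by
        intro v hv
        obtain ⟨p, q, hp, hq, hpq, rfl⟩ := hv
        have e1 : (p • z₀ + q • s).re = p * 2 + q * s.re := by
          simp [hz₀re]
        have e2 : (p • z₀ + q • s).im = s.im := by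
          have : (p • z₀ + q • s).im = (p + q) * s.im := by
            simp [hz₀im]; ring
          rw [this, hpq, one_mul]
        have hq' : q = 1 - p := by linarith
        have := hder (p • z₀ + q • s) (by rw [e1]; subst hq'; nlinarith)
          (by rw [e1]; subst hq'; nlinarith) (by rw [e2]; linarith)
        rwa [e2] at this)
      rw [hnorm] at hpoly hseg
      have hle2 : 2 - s.re ≤ 2 := by linarith
      have hge : 0 ≤ 2 - s.re := by linarith
      have e3 : ((2 - s.re) / (1 / 4)) ^ k ≤ 8 ^ k := by
        apply pow_le_pow_left₀ (by positivity)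
        rw [div_le_iff₀ (by norm_num)]
        linarith
      have e4 : (2 - s.re) ^ k ≤ 2 ^ k := pow_le_pow_left₀ hge hle2 k
      have e5 : ‖riemannZeta s‖ ≤ ‖riemannZeta s - P.eval s‖ + ‖P.eval s‖ := by
        have := norm_add_le (riemannZeta s - P.eval s) (P.eval s)
        rwa [sub_add_cancel] at this
      have hm1 : 0 ≤ ((k : ℝ) + 1) * m := by
        rw [hm]
        have : (0 : ℝ) ≤ C₀ + C₁ := by linarith
        positivity
      have hTp : 0 ≤ s.im ^ (ε / 2) := by linarith
      calc ‖riemannZeta s‖ ≤ s.im ^ (ε / 2) * (2 - s.re) ^ k +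
            (k + 1) * m * ((2 - s.re) / (1 / 4)) ^ k := by linarith
        _ ≤ s.im ^ (ε / 2) * 2 ^ k + (k + 1) * m * 8 ^ k := by
          gcongr
        _ ≤ D * s.im ^ (ε / 2) := by
          rw [hD]
          nlinarith
    have := boundOn_half_of_forall (B := ε / 2) (by positivity) key (ε / 2) (by positivity)
    rwa [add_halves] at this
  exact hB.line hε.le

end Pool.Agent.SPZ
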